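import Pool.Agent.H239R2.Cover.PlanarDefs

set_option autoImplicit false

/-!
# Straight-line drawings from integer coordinates
-/

namespace Pool.Agent.TH455

open Pool.Agent.H239R2.Planar (HasStraightLineDrawing)

/-- orientation of a triple of integer points -/
def ori (p q r : ℤ × ℤ) : ℤ := (q.1 - p.1) * (r.2 - p.2) - (q.2 - p.2) * (r.1 - p.1)

/-- real orientation -/
def oriR (p q r : ℝ × ℝ) : ℝ := (q.1 - p.1) * (r.2 - p.2) - (q.2 - p.2) * (r.1 - p.1)

/-- the point as a real point -/
def toR (p : ℤ × ℤ) : ℝ × ℝ := ((p.1 : ℝ), (p.2 : ℝ))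

theorem oriR_toR (p q r : ℤ × ℤ) : oriR (toR p) (toR q) (toR r) = (ori p q r : ℝ) := by
  unfold oriR toR ori
  push_cast
  ring

/-- separation test for two disjoint edges -/
def sepI (p q r s : ℤ × ℤ) : Prop :=
  0 < ori p q r * ori p q s ∨ 0 < ori r s p * ori r s q

instance (p q r s : ℤ × ℤ) : Decidable (sepI p q r s) := by unfold sepI; infer_instance

theorem mem_seg {p q x : ℝ × ℝ} (h : x ∈ segment ℝ p q) :
    ∃ t : ℝ, 0 ≤ t ∧ t ≤ 1 ∧ x.1 = (1 - t) * p.1 + t * q.1 ∧ x.2 = (1 - t) * p.2 + t * q.2 := by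
  rw [segment_eq_image] at h
  obtain ⟨t, ⟨h0, h1⟩, rfl⟩ := h
  exact ⟨t, h0, h1, by simp, by simp⟩

theorem seg_sep {p q r s x : ℝ × ℝ} (h : 0 < oriR p q r * oriR p q s)
    (h1 : x ∈ segment ℝ p q) (h2 : x ∈ segment ℝ r s) : False := by
  obtain ⟨t, _, _, a1, a2⟩ := mem_seg h1
  obtain ⟨w, w0, w1, b1, b2⟩ := mem_seg h2
  have e : (1 - w) * oriR p q r + w * oriR p q s = 0 := by
    have e1 : (1 - w) * oriR p q r + w * oriR p q s = oriR p q x := by
      unfold oriR
      rw [b1, b2]
      ring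
    rw [e1]
    unfold oriR
    rw [a1, a2]
    ring
  rcases lt_or_gt_of_ne (show oriR p q r ≠ 0 by intro h0; rw [h0] at h; simp at h) with hr | hr
  · have hs : oriR p q s < 0 := by
      by_contra hc
      push Not at hc
      nlinarith
    rcases lt_or_eq_of_le w0 with h' | h'
    · nlinarith [mul_neg_of_pos_of_neg h' hs]
    · rw [← h'] at e
      simp at e
      linarith
  · have hs : 0 < oriR p q s := by
      by_contra hc
      push Not at hc
      nlinarith
    rcases lt_or_eq_of_le w0 with h' | h'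
    · nlinarith [mul_pos h' hs]
    · rw [← h'] at e
      simp at e
      linarith

theorem seg_share {p q r x : ℝ × ℝ} (h : oriR p q r ≠ 0)
    (h1 : x ∈ segment ℝ p q) (h2 : x ∈ segment ℝ p r) : x = p := by
  obtain ⟨t, _, _, a1, a2⟩ := mem_seg h1
  obtain ⟨w, w0, w1, b1, b2⟩ := mem_seg h2
  have e : w * oriR p q r = 0 := by
    have e1 : w * oriR p q r = oriR p q x := by
      unfold oriR
      rw [b1, b2]
      ring
    rw [e1]
    unfold oriR
    rw [a1, a2]
    ring
  rcases mul_eq_zero.mp e with h' | h'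
  · apply Prod.ext
    · rw [b1, h']; ring
    · rw [b2, h']; ring
  · exact absurd h' h

/-- A drawing with integer coordinates. -/
theorem drawing_of_int {V : Type} (G : SimpleGraph V) (P : V → ℤ × ℤ)
    (hinj : Function.Injective P)
    (h1 : ∀ u v w, G.Adj u v → w ≠ u → w ≠ v → ori (P u) (P v) (P w) ≠ 0)
    (h2 : ∀ u v x y, G.Adj u v → G.Adj x y → u ≠ x → u ≠ y → v ≠ x → v ≠ y →
      sepI (P u) (P v) (P x) (P y)) : HasStraightLineDrawing G := by
  refine ⟨fun v => toR (P v), ?_, ?_, ?_⟩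
  · intro u v h
    apply hinj
    unfold toR at h
    simp only [Prod.mk.injEq, Int.cast_inj] at h
    exact Prod.ext h.1 h.2
  · intro u v w huv hw
    by_contra hcon
    push Not at hcon
    have h := h1 u v w huv hcon.1 hcon.2
    apply h
    have h' : oriR (toR (P u)) (toR (P v)) (toR (P w)) = 0 := by
      obtain ⟨t, _, _, a1, a2⟩ := mem_seg hw
      unfold oriR
      rw [a1, a2]
      ring
    rw [oriR_toR] at h'
    exact_mod_cast h'
  · intro u v x y huv hxy hne q hq1 hq2
    have share : ∀ a b c : V, G.Adj a b → G.Adj a c → b ≠ c →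
        q ∈ segment ℝ (toR (P a)) (toR (P b)) → q ∈ segment ℝ (toR (P a)) (toR (P c)) →
        q = toR (P a) := by
      intro a b c hab hac hbc q1 q2
      apply seg_share _ q1 q2
      rw [oriR_toR]
      exact_mod_cast h1 a b c hab hac.ne.symm hbc.symm
    by_cases e1 : u = x
    · subst e1
      have hvy : v ≠ y := by rintro rfl; exact hne rfl
      exact ⟨u, Or.inl rfl, Or.inl rfl, share u v y huv hxy hvy hq1 hq2⟩
    by_cases e2 : u = y
    · subst e2
      have hvx : v ≠ x := by rintro rfl; exact hne Sym2.eq_swap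
      rw [segment_symm] at hq2
      exact ⟨u, Or.inl rfl, Or.inr rfl, share u v x huv hxy.symm hvx hq1 hq2⟩
    by_cases e3 : v = x
    · subst e3
      have huy : u ≠ y := e2
      rw [segment_symm] at hq1
      exact ⟨v, Or.inr rfl, Or.inl rfl, share v u y huv.symm hxy huy hq1 hq2⟩
    by_cases e4 : v = y
    · subst e4
      rw [segment_symm] at hq1 hq2
      exact ⟨v, Or.inr rfl, Or.inr rfl, share v u x huv.symm hxy.symm e1 hq1 hq2⟩
    exfalso
    rcases h2 u v x y huv hxy e1 e2 e3 e4 with h | h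
    · apply seg_sep _ hq1 hq2
      rw [oriR_toR, oriR_toR]
      exact_mod_cast h
    · apply seg_sep _ hq2 hq1
      rw [oriR_toR, oriR_toR]
      exact_mod_cast h

theorem ori_swap (p q r : ℤ × ℤ) : ori q p r = - ori p q r := by unfold ori; ring

theorem sepI_swap1 {p q r s : ℤ × ℤ} (h : sepI p q r s) : sepI q p r s := by
  unfold sepI at *
  rcases h with h | h
  · left; rw [ori_swap p q r, ori_swap p q s]; linarith [neg_mul_neg (ori p q r) (ori p q s)]
  · right; rw [mul_comm]; exact h

theorem sepI_swap2 {p q r s : ℤ × ℤ} (h : sepI p q r s) : sepI p q s r := by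
  unfold sepI at *
  rcases h with h | h
  · left; rw [mul_comm]; exact h
  · right; rw [ori_swap r s p, ori_swap r s q]; linarith [neg_mul_neg (ori r s p) (ori r s q)]

/-- List version of `drawing_of_int`, to be checked by evaluation. -/
theorem drawing_of_list {V : Type} [DecidableEq V] (G : SimpleGraph V) (P : V → ℤ × ℤ)
    (es : List (V × V)) (hes : ∀ u v, G.Adj u v → (u, v) ∈ es ∨ (v, u) ∈ es)
    (hinj : Function.Injective P)
    (h1 : ∀ e ∈ es, ∀ w, w ≠ e.1 → w ≠ e.2 → ori (P e.1) (P e.2) (P w) ≠ 0)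
    (h2 : ∀ e ∈ es, ∀ f ∈ es, e.1 ≠ f.1 → e.1 ≠ f.2 → e.2 ≠ f.1 → e.2 ≠ f.2 →
      sepI (P e.1) (P e.2) (P f.1) (P f.2)) : HasStraightLineDrawing G := by
  apply drawing_of_int G P hinj
  · intro u v w huv hwu hwv
    rcases hes u v huv with h | h
    · exact h1 _ h w hwu hwv
    · have := h1 _ h w hwv hwu
      simp only at this
      rw [ori_swap]
      exact neg_ne_zero.mpr this
  · intro u v x y huv hxy a b c d
    rcases hes u v huv with h | h
    · rcases hes x y hxy with h' | h'
      · exact h2 _ h _ h' a b c d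
      · exact sepI_swap2 (h2 _ h _ h' b a d c)
    · rcases hes x y hxy with h' | h'
      · exact sepI_swap1 (h2 _ h _ h' c d a b)
      · exact sepI_swap1 (sepI_swap2 (h2 _ h _ h' d c b a))

end Pool.Agent.TH455
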