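import Pool.Agent.TH455.Defs
import Pool.Agent.TH455.Draw

set_option autoImplicit false

/-!
# A triangle-free planar graph on 15 vertices with a 3-list-assignment without a packing
-/

namespace Pool.Agent.TH455.Ex15

/-- the edges -/
def es : List (ℕ × ℕ) := [(0, 3), (0, 4), (1, 5), (1, 7), (2, 3), (2, 5), (3, 6), (4, 5), (4, 6),
  (0, 8), (2, 8), (1, 9), (2, 9), (2, 10), (4, 10), (2, 11), (7, 11), (3, 12), (5, 12), (5, 13),
  (6, 13), (5, 14), (7, 14)]

def adjB (a b : Fin 15) : Bool := es.contains (a.1, b.1) || es.contains (b.1, a.1)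

/-- the list of vertex `v`, as a function of the index -/
def lst (v : Fin 15) (i : Fin 3) : ℕ :=
  match v.1 with
  | 0 | 1 | 2 | 8 | 9 | 10 | 11 => ![0, 1, 3] i
  | 3 | 4 | 12 => ![1, 2, 3] i
  | _ => ![0, 2, 3] i

/-- the six permutations of three letters -/
def pm (s : Fin 6) (i : Fin 3) : Fin 3 :=
  match s.1 with
  | 0 => ![0, 1, 2] i
  | 1 => ![0, 2, 1] i
  | 2 => ![1, 0, 2] i
  | 3 => ![1, 2, 0] i
  | 4 => ![2, 0, 1] i
  | _ => ![2, 1, 0] i

def col (v : Fin 15) (s : Fin 6) (i : Fin 3) : ℕ := lst v (pm s i)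

def ok (u v : Fin 15) (s t : Fin 6) : Bool :=
  (!(Nat.beq (col u s 0) (col v t 0)) && !(Nat.beq (col u s 1) (col v t 1))) &&
    !(Nat.beq (col u s 2) (col v t 2))

def all6 (f : Fin 6 → Bool) : Bool := f 0 && (f 1 && (f 2 && (f 3 && (f 4 && f 5))))

def imp (a b : Bool) : Bool := !a || b

theorem all6_spec {f : Fin 6 → Bool} (h : all6 f = true) (s : Fin 6) : f s = true := by
  unfold all6 at h
  simp only [Bool.and_eq_true] at h
  fin_cases s
  · exact h.1
  · exact h.2.1
  · exact h.2.2.1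
  · exact h.2.2.2.1
  · exact h.2.2.2.2.1
  · exact h.2.2.2.2.2

theorem imp_spec {a b : Bool} (h : imp a b = true) (ha : a = true) : b = true := by
  unfold imp at h
  rw [ha] at h
  simpa using h

def chk : Bool :=
  all6 fun s1 : Fin 6 => imp (ok 5 1 0 s1) (
  all6 fun s2 : Fin 6 => imp (ok 5 2 0 s2) (
  all6 fun s9 : Fin 6 => imp (ok 1 9 s1 s9) ( imp (ok 2 9 s2 s9) (
  all6 fun s3 : Fin 6 => imp (ok 2 3 s2 s3) (
  all6 fun s12 : Fin 6 => imp (ok 5 12 0 s12) ( imp (ok 3 12 s3 s12) (
  all6 fun s0 : Fin 6 => imp (ok 3 0 s3 s0) (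
  all6 fun s4 : Fin 6 => imp (ok 5 4 0 s4) ( imp (ok 0 4 s0 s4) (
  all6 fun s6 : Fin 6 => imp (ok 3 6 s3 s6) ( imp (ok 4 6 s4 s6) (
  all6 fun s8 : Fin 6 => imp (ok 2 8 s2 s8) ( imp (ok 0 8 s0 s8) (
  all6 fun s10 : Fin 6 => imp (ok 2 10 s2 s10) ( imp (ok 4 10 s4 s10) (
  all6 fun s13 : Fin 6 => imp (ok 5 13 0 s13) ( imp (ok 6 13 s6 s13) (
  all6 fun s7 : Fin 6 => imp (ok 1 7 s1 s7) (
  all6 fun s11 : Fin 6 => imp (ok 2 11 s2 s11) ( imp (ok 7 11 s7 s11) (
  all6 fun s14 : Fin 6 => imp (ok 5 14 0 s14) ( imp (ok 7 14 s7 s14) (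
  false)))))))))))))))))))))))

theorem srch (st : Fin 15 → Fin 6) (h5 : st 5 = 0)
    (h : ∀ u v : Fin 15, adjB u v = true → ok u v (st u) (st v) = true) : False := by
  have H : chk = true := by decide +kernel
  unfold chk at H
  have H := all6_spec H (st 1)
  have H := imp_spec H (h5 ▸ h 5 1 (by decide))
  have H := all6_spec H (st 2)
  have H := imp_spec H (h5 ▸ h 5 2 (by decide))
  have H := all6_spec H (st 9)
  have H := imp_spec H (h 1 9 (by decide))
  have H := imp_spec H (h 2 9 (by decide))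
  have H := all6_spec H (st 3)
  have H := imp_spec H (h 2 3 (by decide))
  have H := all6_spec H (st 12)
  have H := imp_spec H (h5 ▸ h 5 12 (by decide))
  have H := imp_spec H (h 3 12 (by decide))
  have H := all6_spec H (st 0)
  have H := imp_spec H (h 3 0 (by decide))
  have H := all6_spec H (st 4)
  have H := imp_spec H (h5 ▸ h 5 4 (by decide))
  have H := imp_spec H (h 0 4 (by decide))
  have H := all6_spec H (st 6)
  have H := imp_spec H (h 3 6 (by decide))
  have H := imp_spec H (h 4 6 (by decide))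
  have H := all6_spec H (st 8)
  have H := imp_spec H (h 2 8 (by decide))
  have H := imp_spec H (h 0 8 (by decide))
  have H := all6_spec H (st 10)
  have H := imp_spec H (h 2 10 (by decide))
  have H := imp_spec H (h 4 10 (by decide))
  have H := all6_spec H (st 13)
  have H := imp_spec H (h5 ▸ h 5 13 (by decide))
  have H := imp_spec H (h 6 13 (by decide))
  have H := all6_spec H (st 7)
  have H := imp_spec H (h 1 7 (by decide))
  have H := all6_spec H (st 11)
  have H := imp_spec H (h 2 11 (by decide))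
  have H := imp_spec H (h 7 11 (by decide))
  have H := all6_spec H (st 14)
  have H := imp_spec H (h5 ▸ h 5 14 (by decide))
  have H := imp_spec H (h 7 14 (by decide))
  exact Bool.noConfusion H

/-- The graph. -/
def G : SimpleGraph (Fin 15) where
  Adj a b := adjB a b = true
  symm := ⟨by
    intro a b h
    unfold adjB at *
    rw [Bool.or_comm]
    exact h⟩
  loopless := ⟨by
    intro a h
    revert a
    decide⟩

instance : DecidableRel G.Adj := fun a b => inferInstanceAs (Decidable (adjB a b = true))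

/-- coordinates of a straight-line drawing -/
def P (v : Fin 15) : ℤ × ℤ :=
  match v.1 with
  | 0 => (3, 12)
  | 1 => (9, 7)
  | 2 => (2, 0)
  | 3 => (3, 6)
  | 4 => (5, 14)
  | 5 => (13, 15)
  | 6 => (6, 13)
  | 7 => (11, 7)
  | 8 => (2, 1)
  | 9 => (8, 4)
  | 10 => (0, 11)
  | 11 => (15, 2)
  | 12 => (10, 12)
  | 13 => (8, 13)
  | _ => (10, 8)

def esF : List (Fin 15 × Fin 15) := [(0, 3), (0, 4), (1, 5), (1, 7), (2, 3), (2, 5), (3, 6),
  (4, 5), (4, 6), (0, 8), (2, 8), (1, 9), (2, 9), (2, 10), (4, 10), (2, 11), (7, 11), (3, 12),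
  (5, 12), (5, 13), (6, 13), (5, 14), (7, 14)]

theorem adj_es : ∀ u v, G.Adj u v → (u, v) ∈ esF ∨ (v, u) ∈ esF := by
  decide +kernel

theorem P_inj : Function.Injective P := by
  have h : ∀ u v, P u = P v → u = v := by decide +kernel
  exact fun u v => h u v

theorem drawing : Pool.Agent.H239R2.Planar.HasStraightLineDrawing G := by
  apply drawing_of_list G P esF adj_es P_inj
  · decide +kernel
  · decide +kernel

theorem triangle_free : G.CliqueFree 3 := by
  have h : ∀ a b c, G.Adj a b → G.Adj a c → G.Adj b c → False := by decide +kernel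
  intro s hs
  rw [SimpleGraph.is3Clique_iff] at hs
  obtain ⟨a, b, c, hab, hac, hbc, _⟩ := hs
  exact h a b c hab hac hbc

theorem no1 : ¬ ListPackable G 1 := by
  intro h
  obtain ⟨c, h1, h2, _⟩ := h (fun _ => {0}) (fun _ => rfl)
  have a := Finset.mem_singleton.mp (h1 0 0)
  have b := Finset.mem_singleton.mp (h1 0 3)
  exact h2 0 0 3 (by decide) (a.trans b.symm)

theorem no2 : ¬ ListPackable G 2 := by
  intro h
  obtain ⟨c, h1, h2, _⟩ := h (fun _ => {0, 1}) (fun _ => rfl)
  have m : ∀ v, c 0 v = 0 ∨ c 0 v = 1 := by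
    intro v
    have := h1 0 v
    simpa using this
  have e1 := h2 0 0 3 (by decide)
  have e2 := h2 0 3 2 (by decide)
  have e3 := h2 0 2 5 (by decide)
  have e4 := h2 0 5 4 (by decide)
  have e5 := h2 0 4 0 (by decide)
  have m0 := m 0
  have m3 := m 3
  have m2 := m 2
  have m5 := m 5
  have m4 := m 4
  omega

theorem lst_inj (v : Fin 15) : Function.Injective (lst v) := by
  have h : ∀ v : Fin 15, ∀ i j : Fin 3, lst v i = lst v j → i = j := by decide +kernel
  exact fun i j => h v i j

theorem exists_state (v : Fin 15) (g : Fin 3 → ℕ) (hg : Function.Injective g)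
    (hm : ∀ i, ∃ j, g i = lst v j) : ∃ s : Fin 6, ∀ i, g i = col v s i := by
  choose f hf using hm
  have hinj : ∀ i j, i ≠ j → f i ≠ f j := by
    intro i j hij h
    apply hij
    apply hg
    rw [hf i, hf j, h]
  have key : ∀ a b c : Fin 3, a ≠ b → a ≠ c → b ≠ c →
      ∃ s : Fin 6, pm s 0 = a ∧ pm s 1 = b ∧ pm s 2 = c := by decide +kernel
  obtain ⟨s, h0, h1, h2⟩ := key (f 0) (f 1) (f 2) (hinj 0 1 (by decide)) (hinj 0 2 (by decide))
    (hinj 1 2 (by decide))
  refine ⟨s, ?_⟩
  intro i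
  unfold col
  fin_cases i
  · exact (hf 0).trans (by rw [← h0]; rfl)
  · exact (hf 1).trans (by rw [← h1]; rfl)
  · exact (hf 2).trans (by rw [← h2]; rfl)

theorem no3 : ¬ ListPackable G 3 := by
  intro h
  obtain ⟨c, h1, h2, h3⟩ := h (fun v => {lst v 0, lst v 1, lst v 2}) (by decide +kernel)
  -- normalise at the vertex 5
  have hm : ∀ v i, ∃ j, c i v = lst v j := by
    intro v i
    have := h1 i v
    simp only [Finset.mem_insert, Finset.mem_singleton] at this
    rcases this with h | h | h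
    · exact ⟨0, h⟩
    · exact ⟨1, h⟩
    · exact ⟨2, h⟩
  choose f hf using hm
  have hfinj : Function.Injective (f 5) := by
    intro i j hij
    by_contra hne
    exact h3 5 i j hne (by rw [hf 5 i, hf 5 j, hij])
  obtain ⟨g, hg1, hg2⟩ := Function.bijective_iff_has_inverse.mp
    (Finite.injective_iff_bijective.mp hfinj)
  have hginj : Function.Injective g := hg2.injective
  have hst : ∀ v, ∃ s : Fin 6, ∀ i, c (g i) v = col v s i := by
    intro v
    apply exists_state v
    · intro i j hij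
      by_contra hne
      exact h3 v (g i) (g j) (fun h => hne (hginj h)) hij
    · intro i
      exact ⟨f v (g i), hf v (g i)⟩
  choose st hst using hst
  have h5 : st 5 = 0 := by
    have key : ∀ s : Fin 6, (∀ i, lst 5 i = col 5 s i) → s = 0 := by decide +kernel
    apply key
    intro i
    rw [← hst 5 i, hf 5 (g i), hg2 i]
  apply srch st h5
  intro u v huv
  have hne : ∀ i, col u (st u) i ≠ col v (st v) i := by
    intro i h
    rw [← hst u i, ← hst v i] at h
    exact h2 (g i) u v huv h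
  unfold ok
  have n0 := hne 0
  have n1 := hne 1
  have n2 := hne 2
  have nb : ∀ a b : ℕ, a ≠ b → (!(Nat.beq a b)) = true := by
    intro a b hab
    cases h : Nat.beq a b
    · rfl
    · exact absurd (Nat.eq_of_beq_eq_true h) hab
  rw [nb _ _ n0, nb _ _ n1, nb _ _ n2]
  rfl

end Pool.Agent.TH455.Ex15
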