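import Pool.Agent.TH455.Upper
import Pool.Agent.TH455.Draw
import Pool.Agent.TH455.Ex15

set_option autoImplicit false

/-!
# The 4-cycle needs four colours for correspondence packing
-/

namespace Pool.Agent.TH455.C4

open Pool.Agent.TH455.Ex15 (pm all6 imp all6_spec imp_spec)

def adjB (a b : Fin 4) : Bool :=
  (a.1 + 1 == b.1) || (b.1 + 1 == a.1) || (a.1 == 0 && b.1 == 3) || (a.1 == 3 && b.1 == 0)

/-- The 4-cycle. -/
def G : SimpleGraph (Fin 4) where
  Adj a b := adjB a b = true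
  symm := ⟨by
    have h : ∀ a b : Fin 4, adjB a b = true → adjB b a = true := by decide
    exact h⟩
  loopless := ⟨by
    have h : ∀ a : Fin 4, ¬ adjB a a = true := by decide
    exact h⟩

instance : DecidableRel G.Adj := fun a b => inferInstanceAs (Decidable (adjB a b = true))

def P (v : Fin 4) : ℤ × ℤ :=
  match v.1 with
  | 0 => (0, 0)
  | 1 => (1, 0)
  | 2 => (1, 1)
  | _ => (0, 1)

def es : List (Fin 4 × Fin 4) := [(0, 1), (1, 2), (2, 3), (3, 0)]

theorem drawing : Pool.Agent.H239R2.Planar.HasStraightLineDrawing G := by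
  apply drawing_of_list G P es
  · decide
  · have h : ∀ u v, P u = P v → u = v := by decide
    exact fun u v => h u v
  · decide
  · decide

theorem bipartite : G.Colorable 2 := by
  refine ⟨SimpleGraph.Coloring.mk (fun v : Fin 4 => (⟨v.1 % 2, Nat.mod_lt _ (by norm_num)⟩ : Fin 2))
    ?_⟩
  have h : ∀ a b : Fin 4, G.Adj a b →
      (⟨a.1 % 2, Nat.mod_lt _ (by norm_num)⟩ : Fin 2) ≠ ⟨b.1 % 2, Nat.mod_lt _ (by norm_num)⟩ := by
    decide
  exact fun {a b} => h a b

theorem free : G.CliqueFree 3 := by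
  have h : ∀ a b c, G.Adj a b → G.Adj a c → G.Adj b c → False := by decide
  intro s hs
  rw [SimpleGraph.is3Clique_iff] at hs
  obtain ⟨a, b, c, hab, hac, hbc, _⟩ := hs
  exact h a b c hab hac hbc

/-- twisted permutations: a transposition on the edge `03` -/
def tw (k : ℕ) (τ : Equiv.Perm (Fin k)) (u v : Fin 4) : Equiv.Perm (Fin k) :=
  if (u.1 = 0 ∧ v.1 = 3) ∨ (u.1 = 3 ∧ v.1 = 0) then τ else 1

theorem tw_inv (k : ℕ) (τ : Equiv.Perm (Fin k)) (hτ : τ⁻¹ = τ) (u v : Fin 4) :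
    tw k τ v u = (tw k τ u v)⁻¹ := by
  unfold tw
  by_cases h : (u.1 = 0 ∧ v.1 = 3) ∨ (u.1 = 3 ∧ v.1 = 0)
  · rw [if_pos h, if_pos (by tauto), hτ]
  · rw [if_neg h, if_neg (by tauto), inv_one]

theorem no_one : ¬ ∀ C : Cover G 1, C.HasPacking := by
  intro h
  obtain ⟨φ, h1, _⟩ := permCover_packing (h (permCover G 1 (fun _ _ => 1) (fun _ _ _ => by simp)))
  exact h1 0 0 1 (by decide) (Subsingleton.elim _ _)

theorem no_two : ¬ ∀ C : Cover G 2, C.HasPacking := by
  intro h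
  obtain ⟨φ, h1, _⟩ := permCover_packing
    (h (permCover G 2 (tw 2 (Equiv.swap 0 1)) (fun u v _ => tw_inv 2 _ (by decide) u v)))
  have a := h1 0 0 1 (by decide)
  have b := h1 0 1 2 (by decide)
  have c := h1 0 2 3 (by decide)
  have d := h1 0 3 0 (by decide)
  have key : ∀ x y z w : Fin 2, y ≠ tw 2 (Equiv.swap 0 1) 0 1 x → z ≠ tw 2 (Equiv.swap 0 1) 1 2 y →
      w ≠ tw 2 (Equiv.swap 0 1) 2 3 z → x ≠ tw 2 (Equiv.swap 0 1) 3 0 w → False := by decide
  exact key _ _ _ _ a b c d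

theorem perm_state (a : Fin 3 → Fin 3) (ha : ∀ i j, i ≠ j → a i ≠ a j) :
    ∃ s : Fin 6, ∀ t, a t = pm s t := by
  have key : ∀ a b c : Fin 3, a ≠ b → a ≠ c → b ≠ c →
      ∃ s : Fin 6, pm s 0 = a ∧ pm s 1 = b ∧ pm s 2 = c := by decide +kernel
  obtain ⟨s, h0, h1, h2⟩ := key (a 0) (a 1) (a 2) (ha 0 1 (by decide)) (ha 0 2 (by decide))
    (ha 1 2 (by decide))
  refine ⟨s, ?_⟩
  intro i
  fin_cases i
  · exact h0.symm
  · exact h1.symm
  · exact h2.symm

theorem no_three : ¬ ∀ C : Cover G 3, C.HasPacking := by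
  intro h
  obtain ⟨φ, h1, h2⟩ := permCover_packing
    (h (permCover G 3 (tw 3 (Equiv.swap 0 1)) (fun u v _ => tw_inv 3 _ (by decide) u v)))
  have hst : ∀ v, ∃ s : Fin 6, ∀ t, φ t v = pm s t := fun v =>
    perm_state (fun t => φ t v) (fun i j hij => h2 v i j hij)
  choose st hst using hst
  have key : ∀ x y : Fin 6, (∀ t, pm y t ≠ pm x t) → ∀ z : Fin 6, (∀ t, pm z t ≠ pm y t) →
      ∀ w : Fin 6, (∀ t, pm w t ≠ pm z t) →
      (∀ t, pm x t ≠ (Equiv.swap (0 : Fin 3) 1) (pm w t)) → False := by decide +kernel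
  apply key (st 0) (st 1) _ (st 2) _ (st 3) _
  · intro t
    rw [← hst 0 t, ← hst 3 t]
    exact h1 t 3 0 (by decide)
  · intro t
    rw [← hst 1 t, ← hst 0 t]
    exact h1 t 0 1 (by decide)
  · intro t
    rw [← hst 2 t, ← hst 1 t]
    exact h1 t 1 2 (by decide)
  · intro t
    rw [← hst 3 t, ← hst 2 t]
    exact h1 t 2 3 (by decide)

theorem corr_eq : corrPackingNumber G = 4 := by
  apply sInf_eq_four
  · exact ⟨by norm_num, corr_of_sparse G (planar_free_sparse (Or.inr (Or.inl drawing)) free)⟩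
  · rintro ⟨h, _⟩; omega
  · rintro ⟨_, h⟩; exact no_one h
  · rintro ⟨_, h⟩; exact no_two h
  · rintro ⟨_, h⟩; exact no_three h

end Pool.Agent.TH455.C4
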