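import Pool.Agent.TH455.Bound

set_option autoImplicit false

/-!
# Packing for triangle-free graphs without `K₅`, `K₃,₃` minors
-/

namespace Pool.Agent.TH455

open Finset

/-- no `K₅` minor and no `K₃,₃` minor, in the form of the frozen statements -/
def NoKMinor {V : Type*} (G : SimpleGraph V) : Prop :=
  (¬ ∃ f : Fin 5 → Set V,
    (∀ i, (G.induce (f i)).Connected) ∧
    (∀ i j, i ≠ j → Disjoint (f i) (f j)) ∧
    (∀ i j, i ≠ j → ∃ a ∈ f i, ∃ b ∈ f j, G.Adj a b)) ∧
  (¬ ∃ f : Bool × Fin 3 → Set V,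
    (∀ i, (G.induce (f i)).Connected) ∧
    (∀ i j, i ≠ j → Disjoint (f i) (f j)) ∧
    (∀ i j, i.1 ≠ j.1 → ∃ a ∈ f i, ∃ b ∈ f j, G.Adj a b))

theorem not_minor5 {V : Type*} {G : SimpleGraph V} (h : NoKMinor G) (W : Set V) :
    ¬ Minor r5 G W := by
  rintro ⟨f, _, h2, h3, h4⟩
  exact h.1 ⟨f, fun i => conn_connected G _ (h2 i), h3, h4⟩

theorem not_minor33 {V : Type*} {G : SimpleGraph V} (h : NoKMinor G) (W : Set V) :
    ¬ Minor r33 G W := by
  rintro ⟨f, _, h2, h3, h4⟩
  exact h.2 ⟨f, fun i => conn_connected G _ (h2 i), h3, h4⟩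

theorem T6_free {V : Type*} {G : SimpleGraph V} (h : G.CliqueFree 3) (W : Finset V) :
    T6 (gi G) W = 0 := by
  classical
  rw [T6_eq]
  unfold Lk
  apply sum_eq_zero
  intro a _
  apply sum_eq_zero
  intro b _
  apply sum_eq_zero
  intro c _
  by_contra hne
  have h1 : G.Adj a b := by
    by_contra hh; apply hne; rw [gi_nz hh]; ring
  have h2 : G.Adj a c := by
    by_contra hh; apply hne; rw [gi_nz hh]; ring
  have h3 : G.Adj b c := by
    by_contra hh; apply hne; rw [gi_nz hh]; ring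
  exact h {a, b, c} (SimpleGraph.is3Clique_triple_iff.mpr ⟨h1, h2, h3⟩)

theorem I2_card {V : Type*} [DecidableEq V] (G : SimpleGraph V) (W : Finset V) :
    I2 (gi G) W + W.card ≤ W.card * W.card := by
  unfold I2
  have : ∀ a ∈ W, ∑ b ∈ W, gi G a b + 1 ≤ W.card := by
    intro a ha
    have h1 : ∑ b ∈ W, gi G a b = ∑ b ∈ W.erase a, gi G a b := by
      rw [← add_sum_erase W _ ha, gi_zero]; omega
    have h2 : ∑ b ∈ W.erase a, gi G a b ≤ ∑ _b ∈ W.erase a, 1 :=
      sum_le_sum (fun b _ => ind_le _)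
    have h3 : (W.erase a).card + 1 = W.card := card_erase_add_one ha
    rw [sum_const, smul_eq_mul] at h2
    omega
  have h4 : ∑ a ∈ W, (∑ b ∈ W, gi G a b + 1) ≤ ∑ _a ∈ W, W.card := sum_le_sum this
  rw [sum_add_distrib, sum_const, sum_const, smul_eq_mul, smul_eq_mul] at h4
  omega

/-- triangle-free graphs without the two minors have at most `2n - 4` edges -/
theorem free_bound {V : Type*} [DecidableEq V] {G : SimpleGraph V} (hfree : G.CliqueFree 3)
    (hm : NoKMinor G) (W : Finset V) (h4 : 4 ≤ W.card) : I2 (gi G) W + 8 ≤ 4 * W.card := by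
  have h := bound G W h4 (not_minor5 hm _) (not_minor33 hm _)
  unfold Good at h
  rw [T6_free hfree] at h
  omega

theorem free_sparse {V : Type*} {G : SimpleGraph V} (hfree : G.CliqueFree 3)
    (hm : NoKMinor G) : Sparse (gi G) := by
  classical
  intro W hW
  by_cases h4 : 4 ≤ W.card
  · have := free_bound hfree hm W h4
    omega
  · have h1 := I2_card G W
    have h2 := card_pos.mpr hW
    push Not at h4
    generalize W.card = k at *
    interval_cases k <;> omega

/-- **Packing of partial-matching covers on (2,2)-sparse graphs.** -/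
theorem pack_sparse {V : Type*} [Finite V] (G : SimpleGraph V) (hsp : Sparse (gi G))
    (X : V → V → Fin 4 → Fin 4 → Prop)
    (hs : ∀ u v i j, X u v i j → X v u j i)
    (hm : ∀ u v, G.Adj u v → ∀ i j j', X u v i j → X u v i j' → j = j') :
    ∃ π : V → Fin 4 → Fin 4, (∀ v, Function.Injective (π v)) ∧
      ∀ u v, G.Adj u v → ∀ t, ¬ X u v (π u t) (π v t) := by
  obtain ⟨F₁, F₂, e1, e2, h⟩ := two_ext G hsp
  exact pack4 G F₁ F₂ e1 e2 h X hs hm

/-- List version: every 4-list-assignment of a (2,2)-sparse graph has a packing. -/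
theorem pack_list {V α : Type*} [Finite V] (G : SimpleGraph V) (hsp : Sparse (gi G))
    (L : V → Finset α) (hL : ∀ v, (L v).card = 4) :
    ∃ c : Fin 4 → V → α, (∀ i v, c i v ∈ L v) ∧ (∀ i u v, G.Adj u v → c i u ≠ c i v) ∧
      (∀ v i j, i ≠ j → c i v ≠ c j v) ∧ (∀ v, ∀ x ∈ L v, ∃ i, c i v = x) := by
  classical
  let e : ∀ v, Fin 4 ≃ L v := fun v => ((L v).equivFinOfCardEq (hL v)).symm
  obtain ⟨π, h1, h2⟩ := pack_sparse G hsp (fun u v i j => (e u i : α) = (e v j : α))
    (fun u v i j h => h.symm)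
    (fun u v _ i j j' h h' => (e v).injective (Subtype.ext (h.symm.trans h')))
  refine ⟨fun i v => (e v (π v i) : α), fun i v => (e v (π v i)).2, ?_, ?_, ?_⟩
  · intro i u v huv h
    exact h2 u v huv i h
  · intro v i j hij h
    exact hij (h1 v ((e v).injective (Subtype.ext h)))
  · intro v x hx
    have hsurj : Function.Surjective (π v) := Finite.surjective_of_injective (h1 v)
    obtain ⟨i, hi⟩ := hsurj ((e v).symm ⟨x, hx⟩)
    exact ⟨i, by simp [hi]⟩

end Pool.Agent.TH455
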