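import Pool.Agent.TH455.Find

set_option autoImplicit false

/-!
# The bound `T ≥ 2e - 4n + 8` for graphs without `K₅` and `K₃,₃` minors
-/

namespace Pool.Agent.TH455

open Finset

theorem ind_ite (p : Prop) [Decidable p] : ind p = if p then 1 else 0 := by
  by_cases h : p
  · rw [ind_pos h, if_pos h]
  · rw [ind_neg h, if_neg h]

theorem base4 {V : Type*} [DecidableEq V] (G : SimpleGraph V) (W : Finset V) (hW : W.card = 4) :
    Good (gi G) W := by
  obtain ⟨a, b, c, d, hab, hac, had, hbc, hbd, hcd, rfl⟩ := card_eq_four.mp hW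
  have hs := gi_symm G
  have h0 := gi_zero G
  have na : a ∉ ({b, c, d} : Finset V) := by simp [hab, hac, had]
  have nb : b ∉ ({c, d} : Finset V) := by simp [hbc, hbd]
  have nc : c ∉ ({d} : Finset V) := by simp [hcd]
  have e0 : I2 (gi G) {d} = 0 := by simp [I2, h0]
  have t0 : T6 (gi G) {d} = 0 := by simp [T6_eq, Lk, h0]
  have l0 : ∀ x, Lk (gi G) x {d} = 0 := by intro x; simp [Lk, h0]
  have e : I2 (gi G) {a, b, c, d} = 2 * (gi G a b + gi G a c + gi G a d + gi G b c + gi G b d +
      gi G c d) := by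
    rw [I2_insert _ hs h0 a _ na, I2_insert _ hs h0 b _ nb, I2_insert _ hs h0 c _ nc, e0,
      sum_insert nb, sum_insert nc, sum_insert nc, sum_singleton, sum_singleton, sum_singleton]
    ring
  have t : T6 (gi G) {a, b, c, d} = 6 * (gi G a b * gi G a c * gi G b c +
      gi G a b * gi G a d * gi G b d + gi G a c * gi G a d * gi G c d +
      gi G b c * gi G b d * gi G c d) := by
    rw [T6_insert _ hs h0 a _ na, T6_insert _ hs h0 b _ nb, T6_insert _ hs h0 c _ nc, t0,
      Lk_insert _ hs h0 a b _ nb, Lk_insert _ hs h0 a c _ nc, Lk_insert _ hs h0 b c _ nc,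
      l0, l0, l0, sum_insert nc, sum_singleton, sum_singleton, sum_singleton]
    ring
  unfold Good
  rw [e, t, hW]
  have q1 : gi G a b ≤ 1 := ind_le _
  have q2 : gi G a c ≤ 1 := ind_le _
  have q3 : gi G a d ≤ 1 := ind_le _
  have q4 : gi G b c ≤ 1 := ind_le _
  have q5 : gi G b d ≤ 1 := ind_le _
  have q6 : gi G c d ≤ 1 := ind_le _
  generalize gi G a b = p1 at *
  generalize gi G a c = p2 at *
  generalize gi G a d = p3 at *
  generalize gi G b c = p4 at *
  generalize gi G b d = p5 at *
  generalize gi G c d = p6 at *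
  clear e t e0 t0 l0 hs h0
  interval_cases p1 <;> interval_cases p2 <;> interval_cases p3 <;> interval_cases p4 <;>
    interval_cases p5 <;> interval_cases p6 <;> norm_num

theorem small3 {V : Type*} [DecidableEq V] (G : SimpleGraph V) (a b c : V) (hab : G.Adj a b)
    (hac : G.Adj a c) (hbc : G.Adj b c) : Small (gi G) {a, b, c} := by
  have hs := gi_symm G
  have h0 := gi_zero G
  have na : a ∉ ({b, c} : Finset V) := by simp [hab.ne, hac.ne]
  have nb : b ∉ ({c} : Finset V) := by simp [hbc.ne]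
  have e0 : I2 (gi G) {c} = 0 := by simp [I2, h0]
  have t0 : T6 (gi G) {c} = 0 := by simp [T6_eq, Lk, h0]
  have l0 : ∀ x, Lk (gi G) x {c} = 0 := by intro x; simp [Lk, h0]
  have hcard : ({a, b, c} : Finset V).card = 3 := by
    rw [card_insert_of_notMem na, card_insert_of_notMem nb, card_singleton]
  unfold Small
  rw [I2_insert _ hs h0 a _ na, I2_insert _ hs h0 b _ nb, e0, T6_insert _ hs h0 a _ na,
    T6_insert _ hs h0 b _ nb, t0, Lk_insert _ hs h0 a b _ nb, l0, l0, sum_insert nb,
    sum_singleton, sum_singleton, sum_singleton, hcard, gi_one hab, gi_one hac, gi_one hbc]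
  norm_num

theorem small4 {V : Type*} [DecidableEq V] (G : SimpleGraph V) (u v y x : V) (huv : G.Adj u v)
    (hvy : G.Adj v y) (hxy : G.Adj x y) (hux : G.Adj u x) (huy : ¬ G.Adj u y)
    (hvx : ¬ G.Adj v x) (nuy : u ≠ y) (nvx : v ≠ x) :
    Small (gi G) {u, v, y, x} := by
  have hs := gi_symm G
  have h0 := gi_zero G
  have na : u ∉ ({v, y, x} : Finset V) := by simp [huv.ne, nuy, hux.ne]
  have nb : v ∉ ({y, x} : Finset V) := by simp [hvy.ne, nvx]
  have nc : y ∉ ({x} : Finset V) := by simp [hxy.ne.symm]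
  have e0 : I2 (gi G) {x} = 0 := by simp [I2, h0]
  have t0 : T6 (gi G) {x} = 0 := by simp [T6_eq, Lk, h0]
  have l0 : ∀ z, Lk (gi G) z {x} = 0 := by intro z; simp [Lk, h0]
  have hcard : ({u, v, y, x} : Finset V).card = 4 := by
    rw [card_insert_of_notMem na, card_insert_of_notMem nb, card_insert_of_notMem nc,
      card_singleton]
  unfold Small
  rw [I2_insert _ hs h0 u _ na, I2_insert _ hs h0 v _ nb, I2_insert _ hs h0 y _ nc, e0,
    T6_insert _ hs h0 u _ na, T6_insert _ hs h0 v _ nb, T6_insert _ hs h0 y _ nc, t0,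
    Lk_insert _ hs h0 u v _ nb, Lk_insert _ hs h0 u y _ nc, Lk_insert _ hs h0 v y _ nc,
    l0, l0, l0, hcard]
  simp only [sum_insert nb, sum_insert nc, sum_singleton]
  rw [gi_one huv, gi_one hvy, gi_one hxy.symm, gi_one hux, gi_nz huy, gi_nz hvx]
  norm_num

/-- The main induction. -/
theorem bound_aux {V : Type*} [DecidableEq V] : ∀ (N : ℕ) (G : SimpleGraph V) (W : Finset V),
    W.card + I2 (gi G) W ≤ N → 4 ≤ W.card → ¬ Minor r5 G (W : Set V) →
    ¬ Minor r33 G (W : Set V) → Good (gi G) W := by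
  classical
  intro N
  induction N with
  | zero => intro G W h1 h2; omega
  | succ N ih =>
    intro G W hN h4 hm5 hm33
    by_cases hW4 : W.card = 4
    · exact base4 G W hW4
    have h5 : 5 ≤ W.card := by omega
    -- edge in two triangles
    by_cases hA : ∃ u ∈ W, ∃ v ∈ W, G.Adj u v ∧ 2 ≤ cn G u v ((W.erase u).erase v)
    · obtain ⟨u, hu, v, hv, huv, ht⟩ := hA
      let G' : SimpleGraph V := G.deleteEdges {s(u, v)}
      have hG' : ∀ x y, G'.Adj x y ↔ (G.Adj x y ∧ ¬ (x = u ∧ y = v) ∧ ¬ (x = v ∧ y = u)) := by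
        intro x y
        simp only [G', SimpleGraph.deleteEdges_adj, Set.mem_singleton_iff, Sym2.eq,
          Sym2.rel_iff', Prod.mk.injEq, Prod.swap_prod_mk, not_or]
      have hle : ∀ a b, G'.Adj a b → G.Adj a b := fun a b h => ((hG' a b).1 h).1
      have hlt : I2 (gi G') W + 2 = I2 (gi G) W := by
        -- from the two-vertex decomposition
        have hne : u ≠ v := huv.ne
        have hu0 : u ∉ (W.erase u).erase v := by simp
        have hv0 : v ∉ (W.erase u).erase v := by simp
        have hW : insert u (insert v ((W.erase u).erase v)) = W := split_two hu hv hne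
        have e1 := I2_two (gi G) (gi_symm G) (gi_zero G) u v hne _ hu0 hv0
        have e2 := I2_two (gi G') (gi_symm G') (gi_zero G') u v hne _ hu0 hv0
        rw [hW] at e1 e2
        have cW : ∀ a ∈ (W.erase u).erase v, ∀ b ∈ (W.erase u).erase v,
            (G.Adj a b ↔ G'.Adj a b) := by
          intro a ha b hb
          rw [hG']
          constructor
          · intro h
            refine ⟨h, ?_, ?_⟩
            · rintro ⟨rfl, rfl⟩; exact hu0 ha
            · rintro ⟨rfl, rfl⟩; exact hv0 ha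
          · exact fun h => h.1
        have cu : ∀ b ∈ (W.erase u).erase v, (G.Adj u b ↔ G'.Adj u b) := by
          intro b hb
          rw [hG']
          constructor
          · intro h
            refine ⟨h, ?_, ?_⟩
            · rintro ⟨_, rfl⟩; exact hv0 hb
            · rintro ⟨_, rfl⟩; exact hu0 hb
          · exact fun h => h.1
        have cv : ∀ b ∈ (W.erase u).erase v, (G.Adj v b ↔ G'.Adj v b) := by
          intro b hb
          rw [hG']
          constructor
          · intro h
            refine ⟨h, ?_, ?_⟩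
            · rintro ⟨_, rfl⟩; exact hv0 hb
            · rintro ⟨_, rfl⟩; exact hu0 hb
          · exact fun h => h.1
        rw [I2_congr cW, sum_gi_congr cu, sum_gi_congr cv, gi_one huv] at e1
        have g2 : gi G' u v = 0 := gi_nz (by rw [hG']; tauto)
        rw [g2] at e2
        omega
      have hgood : Good (gi G') W := by
        apply ih G' W (by omega) h4
        · exact fun h => hm5 (minor_mono hle (Set.Subset.refl _) h)
        · exact fun h => hm33 (minor_mono hle (Set.Subset.refl _) h)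
      exact (good_edge G G' W u v hu hv huv hG' ht hgood).1
    -- vertex of small degree
    by_cases hB : ∃ v ∈ W, ∑ b ∈ W.erase v, gi G v b ≤ 2
    · obtain ⟨v, hv, hd⟩ := hB
      have hc : (W.erase v).card + 1 = W.card := card_erase_add_one hv
      have hsub : ((W.erase v : Finset V) : Set V) ⊆ (W : Set V) := by
        intro x hx; exact mem_of_mem_erase (mem_coe.mp hx)
      apply good_vertex G W v hv hd
      apply ih G (W.erase v)
      · have := I2_mono (gi G) (erase_subset v W)
        omega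
      · omega
      · exact fun h => hm5 (minor_mono (fun _ _ h => h) hsub h)
      · exact fun h => hm33 (minor_mono (fun _ _ h => h) hsub h)
    -- separation along a short cycle
    by_cases hC : ∃ S ⊆ W, 3 ≤ S.card ∧ Small (gi G) S ∧ ¬ Cut G (W : Set V) (S : Set V)
    · obtain ⟨S, hSW, hS3, hSmall, hcut⟩ := hC
      unfold Cut at hcut
      push Not at hcut
      obtain ⟨D, hD, hD1, hD2, hno⟩ := hcut
      let A : Finset V := W.filter (fun z => z ∈ S ∨ z ∈ D)
      let B : Finset V := W.filter (fun z => z ∈ S ∨ z ∉ D)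
      have hAB : A ∪ B = W := by
        ext z; simp only [A, B, mem_union, mem_filter]; tauto
      have hAiB : A ∩ B = S := by
        ext z
        simp only [A, B, mem_inter, mem_filter]
        constructor
        · rintro ⟨⟨_, h⟩, ⟨_, h'⟩⟩
          tauto
        · intro h
          exact ⟨⟨hSW h, Or.inl h⟩, ⟨hSW h, Or.inl h⟩⟩
      have hAW : A ⊆ W := filter_subset _ _
      have hBW : B ⊆ W := filter_subset _ _
      have hSA : S ⊆ A := fun z hz => mem_filter.mpr ⟨hSW hz, Or.inl hz⟩
      have hSB : S ⊆ B := fun z hz => mem_filter.mpr ⟨hSW hz, Or.inl hz⟩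
      obtain ⟨d, hd⟩ := hD1
      obtain ⟨e, ⟨heW, heS⟩, heD⟩ := hD2
      have hdW : d ∈ W := mem_coe.mp (hD hd).1
      have hdS : d ∉ S := fun h => (hD hd).2 (mem_coe.mpr h)
      have heS' : e ∉ S := fun h => heS (mem_coe.mpr h)
      have heW' : e ∈ W := mem_coe.mp heW
      have hdA : d ∈ A := mem_filter.mpr ⟨hdW, Or.inr hd⟩
      have heB : e ∈ B := mem_filter.mpr ⟨heW', Or.inr heD⟩
      have hdB : d ∉ B := by
        intro h
        rcases (mem_filter.mp h).2 with h | h
        · exact hdS h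
        · exact h hd
      have heA : e ∉ A := by
        intro h
        rcases (mem_filter.mp h).2 with h | h
        · exact heS' h
        · exact heD h
      have cA : A.card < W.card := card_lt_card ⟨hAW, fun h => heA (h heW')⟩
      have cB : B.card < W.card := card_lt_card ⟨hBW, fun h => hdB (h hdW)⟩
      have cA4 : S.card < A.card := card_lt_card ⟨hSA, fun h => hdS (h hdA)⟩
      have cB4 : S.card < B.card := card_lt_card ⟨hSB, fun h => heS' (h heB)⟩
      have iA := I2_mono (gi G) hAW
      have iB := I2_mono (gi G) hBW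
      have gA : Good (gi G) A := by
        apply ih G A (by omega) (by omega)
        · exact fun h => hm5 (minor_mono (fun _ _ h => h) (coe_subset.mpr hAW) h)
        · exact fun h => hm33 (minor_mono (fun _ _ h => h) (coe_subset.mpr hAW) h)
      have gB : Good (gi G) B := by
        apply ih G B (by omega) (by omega)
        · exact fun h => hm5 (minor_mono (fun _ _ h => h) (coe_subset.mpr hBW) h)
        · exact fun h => hm33 (minor_mono (fun _ _ h => h) (coe_subset.mpr hBW) h)
      rw [← hAB]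
      apply good_sep (gi G) A B _ gA gB (by rw [hAiB]; exact hSmall)
      intro a ha haB b hb hbA
      have haD : a ∈ D := by
        by_contra h
        exact haB (mem_filter.mpr ⟨hAW ha, Or.inr h⟩)
      have hbD : b ∉ D := by
        intro h
        exact hbA (mem_filter.mpr ⟨hBW hb, Or.inr h⟩)
      have hbS : b ∉ S := fun h => hbA (hSA h)
      have hnab : ¬ G.Adj a b := by
        apply hno a haD b
        exact ⟨⟨mem_coe.mpr (hBW hb), fun h => hbS (mem_coe.mp h)⟩, hbD⟩
      exact ⟨gi_nz hnab, gi_nz (fun h => hnab h.symm)⟩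
    push Not at hA hB hC
    -- pick an edge
    obtain ⟨u, hu⟩ : W.Nonempty := by rw [← card_pos]; omega
    have nbr : ∀ x ∈ W, ∀ p q : V, ∃ w ∈ W, G.Adj x w ∧ w ≠ p ∧ w ≠ q := by
      intro x hx p q
      by_contra hcon
      push Not at hcon
      have h1 := hB x hx
      have h2 : ∑ b ∈ W.erase x, gi G x b ≤ ∑ b ∈ W.erase x, (ind (b = p) + ind (b = q)) := by
        apply sum_le_sum
        intro b hb
        by_cases hadj : G.Adj x b
        · by_cases hbp : b = p
          · rw [ind_pos hbp, gi_one hadj]; omega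
          · have := hcon b (mem_of_mem_erase hb) hadj hbp
            rw [ind_pos this, gi_one hadj]; omega
        · rw [gi_nz hadj]; omega
      have h3 : ∀ p : V, ∑ b ∈ W.erase x, ind (b = p) ≤ 1 := by
        intro p
        by_cases hp : p ∈ W.erase x
        · rw [sum_eq_single p]
          · exact ind_le _
          · intro b _ hb; exact ind_neg hb
          · intro h; exact absurd hp h
        · rw [sum_eq_zero]
          · omega
          · intro b hb; exact ind_neg (fun h => hp (h ▸ hb))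
      rw [sum_add_distrib] at h2
      have := h3 p
      have := h3 q
      omega
    obtain ⟨v, hv, huv, _, _⟩ := nbr u hu u u
    have hne : u ≠ v := huv.ne
    obtain ⟨hI, hcontr⟩ := good_contr G W u v hu hv huv
    by_cases hsmall : cn G u v ((W.erase u).erase v) + nn G u v ((W.erase u).erase v) ≤ 2
    · apply hcontr hsmall
      have hc : (W.erase v).card + 1 = W.card := card_erase_add_one hv
      have hcoe : ((W.erase v : Finset V) : Set V) = (W : Set V) \ {v} := by simp
      apply ih _ _ (by omega) (by omega)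
      · intro h
        rw [hcoe] at h
        exact hm5 (minor_contr G u v _ (mem_coe.mpr hv) huv h)
      · intro h
        rw [hcoe] at h
        exact hm33 (minor_contr G u v _ (mem_coe.mpr hv) huv h)
    -- otherwise find a minor
    exfalso
    set W₀ := (W.erase u).erase v with hW₀
    have hW₀W : ∀ x ∈ W₀, x ∈ W := fun x hx => mem_of_mem_erase (mem_of_mem_erase hx)
    have hW₀u : ∀ x ∈ W₀, x ≠ u := by
      intro x hx h
      subst h
      simp [hW₀] at hx
    have hW₀v : ∀ x ∈ W₀, x ≠ v := by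
      intro x hx h
      subst h
      simp [hW₀] at hx
    have hcn1 : cn G u v W₀ ≤ 1 := by
      have := hA u hu v hv huv
      rw [← hW₀] at this
      omega
    let 𝒩 : Finset (V × V) := (W₀ ×ˢ W₀).filter (fun p => New G u v p.1 p.2)
    have hnn : nn G u v W₀ = 𝒩.card := by
      unfold nn
      rw [← sum_product', card_filter]
      apply sum_congr rfl
      intro p _
      exact ind_ite _
    have hcnc : cn G u v W₀ = (W₀.filter (fun b => G.Adj u b ∧ G.Adj v b)).card := by
      unfold cn gi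
      rw [card_filter]
      apply sum_congr rfl
      intro p _
      rw [mul_ind]
      exact ind_ite _
    have hN2 : 2 ≤ 𝒩.card := by omega
    have cut4 : ∀ p ∈ 𝒩, Cut G (W : Set V) {u, v, p.2, p.1} := by
      intro p hp
      obtain ⟨hpW, hp1, hp2, hp3, hp4, hp5⟩ := mem_filter.mp hp
      obtain ⟨hpW1, hpW2⟩ := mem_product.mp hpW
      have h := hC {u, v, p.2, p.1} (by
        intro z hz
        simp only [mem_insert, mem_singleton] at hz
        rcases hz with rfl | rfl | rfl | rfl
        · exact hu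
        · exact hv
        · exact hW₀W _ hpW2
        · exact hW₀W _ hpW1)
        (by
          rw [card_insert_of_notMem, card_insert_of_notMem]
          · have : 1 ≤ ({p.2, p.1} : Finset V).card := card_pos.mpr ⟨p.2, by simp⟩
            omega
          · simp [(hW₀v _ hpW2).symm, (hW₀v _ hpW1).symm]
          · simp [hne, (hW₀u _ hpW2).symm, (hW₀u _ hpW1).symm])
        (small4 G u v p.2 p.1 huv hp3 hp5 hp1 hp4 hp2 (hW₀u _ hpW2).symm (hW₀v _ hpW1).symm)
      simpa using h
    -- two new pairs sharing a coordinate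
    by_cases hs1 : ∃ p ∈ 𝒩, ∃ q ∈ 𝒩, p ≠ q ∧ p.1 = q.1
    · obtain ⟨p, hp, q, hq, hpq, h1⟩ := hs1
      have cp := cut4 p hp
      have cq := cut4 q hq
      obtain ⟨hpW, hp1, hp2, hp3, hp4, hp5⟩ := mem_filter.mp hp
      obtain ⟨hpW1, hpW2⟩ := mem_product.mp hpW
      obtain ⟨hqW, hq1, hq2, hq3, hq4, hq5⟩ := mem_filter.mp hq
      obtain ⟨hqW1, hqW2⟩ := mem_product.mp hqW
      obtain ⟨w, hw, huw, hwv, hwx⟩ := nbr u hu v p.1
      rw [← h1] at hq5 cq
      exact hm33 (find_share G W u v p.1 p.2 q.2 w (mem_coe.mpr hu) (mem_coe.mpr hv)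
        (mem_coe.mpr (hW₀W _ hpW1)) (mem_coe.mpr (hW₀W _ hpW2)) (mem_coe.mpr (hW₀W _ hqW2))
        (mem_coe.mpr hw) huv hp1 hp2 (hW₀v _ hpW1) hp3 hp4 hp5 (hW₀u _ hpW2) hq3 hq4 hq5
        (hW₀u _ hqW2) (fun h => hpq (Prod.ext h1 h)) huw hwv hwx cp cq)
    by_cases hs2 : ∃ p ∈ 𝒩, ∃ q ∈ 𝒩, p ≠ q ∧ p.2 = q.2
    · obtain ⟨p, hp, q, hq, hpq, h1⟩ := hs2
      have cp := cut4 p hp
      have cq := cut4 q hq
      obtain ⟨hpW, hp1, hp2, hp3, hp4, hp5⟩ := mem_filter.mp hp
      obtain ⟨hpW1, hpW2⟩ := mem_product.mp hpW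
      obtain ⟨hqW, hq1, hq2, hq3, hq4, hq5⟩ := mem_filter.mp hq
      obtain ⟨hqW1, hqW2⟩ := mem_product.mp hqW
      obtain ⟨w, hw, hvw, hwu, hwx⟩ := nbr v hv u p.2
      rw [← h1] at hq5 cq
      have e1 : ({u, v, p.2, p.1} : Set V) = {v, u, p.1, p.2} := by
        ext z; simp only [Set.mem_insert_iff, Set.mem_singleton_iff]; tauto
      have e2 : ({u, v, p.2, q.1} : Set V) = {v, u, q.1, p.2} := by
        ext z; simp only [Set.mem_insert_iff, Set.mem_singleton_iff]; tauto
      rw [e1] at cp
      rw [e2] at cq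
      exact hm33 (find_share G W v u p.2 p.1 q.1 w (mem_coe.mpr hv) (mem_coe.mpr hu)
        (mem_coe.mpr (hW₀W _ hpW2)) (mem_coe.mpr (hW₀W _ hpW1)) (mem_coe.mpr (hW₀W _ hqW1))
        (mem_coe.mpr hw) huv.symm hp3 hp4 (hW₀u _ hpW2) hp1 hp2 hp5.symm (hW₀v _ hpW1) hq1 hq2
        hq5.symm (hW₀v _ hqW1) (fun h => hpq (Prod.ext h h1)) hvw hwu hwx cp cq)
    -- now all new pairs are disjoint
    push Not at hs1 hs2
    -- description of the sets
    have pairfacts : ∀ p ∈ 𝒩, ({p.1, p.2} : Set V) ⊆ W ∧ Conn G {p.1, p.2} ∧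
        u ∉ ({p.1, p.2} : Set V) ∧ v ∉ ({p.1, p.2} : Set V) ∧
        (∃ a ∈ ({p.1, p.2} : Set V), G.Adj u a) ∧ (∃ a ∈ ({p.1, p.2} : Set V), G.Adj v a) ∧
        Cut G (W : Set V) ({u, v} ∪ {p.1, p.2}) := by
      intro p hp
      have cp := cut4 p hp
      obtain ⟨hpW, hp1, hp2, hp3, hp4, hp5⟩ := mem_filter.mp hp
      obtain ⟨hpW1, hpW2⟩ := mem_product.mp hpW
      refine ⟨?_, conn_pair G _ _ hp5, ?_, ?_, ⟨p.1, by simp, hp1⟩, ⟨p.2, by simp, hp3⟩, ?_⟩
      · rintro z (rfl | rfl)
        · exact mem_coe.mpr (hW₀W _ hpW1)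
        · exact mem_coe.mpr (hW₀W _ hpW2)
      · rintro (h | h)
        · exact hW₀u _ hpW1 h.symm
        · exact hW₀u _ hpW2 h.symm
      · rintro (h | h)
        · exact hW₀v _ hpW1 h.symm
        · exact hW₀v _ hpW2 h.symm
      · have e1 : ({u, v} ∪ {p.1, p.2} : Set V) = {u, v, p.2, p.1} := by
          ext z; simp only [Set.mem_union, Set.mem_insert_iff, Set.mem_singleton_iff]; tauto
        rw [e1]; exact cp
    have pairdisj : ∀ p ∈ 𝒩, ∀ q ∈ 𝒩, p ≠ q → Disjoint ({p.1, p.2} : Set V) {q.1, q.2} := by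
      intro p hp q hq hpq
      obtain ⟨hpW, hp1, hp2, hp3, hp4, hp5⟩ := mem_filter.mp hp
      obtain ⟨hqW, hq1, hq2, hq3, hq4, hq5⟩ := mem_filter.mp hq
      rw [Set.disjoint_left]
      rintro z (rfl | rfl) (h | h)
      · exact hs1 p hp q hq hpq h
      · have h' : p.1 = q.2 := h
        exact hq4 (h' ▸ hp1)
      · have h' : p.2 = q.1 := h
        exact hp4 (h' ▸ hq1)
      · exact hs2 p hp q hq hpq h
    by_cases hthree : 3 ≤ 𝒩.card
    · obtain ⟨p, q, r, hp, hq, hr, hpq, hpr, hqr⟩ := two_lt_card_iff.mp hthree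
      have fp := pairfacts p hp
      have fq := pairfacts q hq
      have fr := pairfacts r hr
      have := find_three G (W : Set V) u v (mem_coe.mpr hu) (mem_coe.mpr hv) huv
        ![{p.1, p.2}, {q.1, q.2}, {r.1, r.2}]
        (all3 fp.1 fq.1 fr.1) (all3 fp.2.1 fq.2.1 fr.2.1)
        (disj3 _ _ _ (pairdisj p hp q hq hpq) (pairdisj p hp r hr hpr) (pairdisj q hq r hr hqr))
        (all3 fp.2.2.1 fq.2.2.1 fr.2.2.1) (all3 fp.2.2.2.1 fq.2.2.2.1 fr.2.2.2.1)
        (all3 fp.2.2.2.2.1 fq.2.2.2.2.1 fr.2.2.2.2.1)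
        (all3 fp.2.2.2.2.2.1 fq.2.2.2.2.2.1 fr.2.2.2.2.2.1)
        (all3 fp.2.2.2.2.2.2 fq.2.2.2.2.2.2 fr.2.2.2.2.2.2)
      tauto
    · -- a common neighbour and two pairs
      have hc1 : 0 < (W₀.filter (fun b => G.Adj u b ∧ G.Adj v b)).card := by omega
      obtain ⟨z, hz⟩ := card_pos.mp hc1
      obtain ⟨hzW, hz1, hz2⟩ := mem_filter.mp hz
      obtain ⟨p, hp, q, hq, hpq⟩ := one_lt_card.mp (by omega : 1 < 𝒩.card)
      have fp := pairfacts p hp
      have fq := pairfacts q hq
      have zdisj : ∀ p ∈ 𝒩, Disjoint ({z} : Set V) {p.1, p.2} := by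
        intro p hp
        obtain ⟨hpW, hp1, hp2, hp3, hp4, hp5⟩ := mem_filter.mp hp
        rw [Set.disjoint_singleton_left]
        rintro (h | h)
        · exact hp2 (h ▸ hz2)
        · exact hp4 (h ▸ hz1)
      have fz : ({z} : Set V) ⊆ W ∧ Conn G {z} ∧
          u ∉ ({z} : Set V) ∧ v ∉ ({z} : Set V) ∧
          (∃ a ∈ ({z} : Set V), G.Adj u a) ∧ (∃ a ∈ ({z} : Set V), G.Adj v a) ∧
          Cut G (W : Set V) ({u, v} ∪ {z}) := by
        refine ⟨?_, conn_singleton G z, ?_, ?_, ⟨z, rfl, hz1⟩, ⟨z, rfl, hz2⟩, ?_⟩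
        · intro y hy
          have : y = z := hy
          rw [this]; exact mem_coe.mpr (hW₀W _ hzW)
        · exact fun h => hW₀u _ hzW (Set.mem_singleton_iff.mp h).symm
        · exact fun h => hW₀v _ hzW (Set.mem_singleton_iff.mp h).symm
        · have h := hC {u, v, z} (by
            intro y hy
            simp only [mem_insert, mem_singleton] at hy
            rcases hy with rfl | rfl | rfl
            · exact hu
            · exact hv
            · exact hW₀W _ hzW)
            (by
              rw [card_insert_of_notMem, card_insert_of_notMem, card_singleton]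
              · simp [(hW₀v _ hzW).symm]
              · simp [hne, (hW₀u _ hzW).symm])
            (small3 G u v z huv hz1 hz2)
          have e1 : ({u, v} ∪ {z} : Set V) = {u, v, z} := by
            ext y; simp only [Set.mem_union, Set.mem_insert_iff, Set.mem_singleton_iff]; tauto
          rw [e1]
          simpa using h
      have := find_three G (W : Set V) u v (mem_coe.mpr hu) (mem_coe.mpr hv) huv
        ![{z}, {p.1, p.2}, {q.1, q.2}]
        (all3 fz.1 fp.1 fq.1) (all3 fz.2.1 fp.2.1 fq.2.1)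
        (disj3 _ _ _ (zdisj p hp) (zdisj q hq) (pairdisj p hp q hq hpq))
        (all3 fz.2.2.1 fp.2.2.1 fq.2.2.1) (all3 fz.2.2.2.1 fp.2.2.2.1 fq.2.2.2.1)
        (all3 fz.2.2.2.2.1 fp.2.2.2.2.1 fq.2.2.2.2.1)
        (all3 fz.2.2.2.2.2.1 fp.2.2.2.2.2.1 fq.2.2.2.2.2.1)
        (all3 fz.2.2.2.2.2.2 fp.2.2.2.2.2.2 fq.2.2.2.2.2.2)
      tauto

/-- **Bound.** A graph without `K₅` and `K₃,₃` minors on at least four vertices has
`6T + 24n ≥ 12e + 48`. -/
theorem bound {V : Type*} [DecidableEq V] (G : SimpleGraph V) (W : Finset V) (h4 : 4 ≤ W.card)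
    (hm5 : ¬ Minor r5 G (W : Set V)) (hm33 : ¬ Minor r33 G (W : Set V)) : Good (gi G) W :=
  bound_aux _ G W le_rfl h4 hm5 hm33

end Pool.Agent.TH455
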