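import Pool.Agent.TH455.TwoMain

set_option autoImplicit false

/-!
# Counting edges and triangles inside vertex sets
-/

namespace Pool.Agent.TH455

open Finset

/-- ordered triangle count (six times the number of triangles) inside `W` -/
def T6 {V : Type*} (g : V → V → ℕ) (W : Finset V) : ℕ :=
  ∑ p ∈ W ×ˢ W ×ˢ W, g p.1 p.2.1 * g p.1 p.2.2 * g p.2.1 p.2.2

/-- ordered count of adjacent pairs in the neighbourhood of `x` -/
def Lk {V : Type*} (g : V → V → ℕ) (x : V) (W : Finset V) : ℕ :=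
  ∑ a ∈ W, ∑ b ∈ W, g x a * g x b * g a b

theorem T6_eq {V : Type*} (g : V → V → ℕ) (W : Finset V) :
    T6 g W = ∑ a ∈ W, Lk g a W := by
  unfold T6 Lk
  rw [sum_product]
  apply sum_congr rfl
  intro a _
  rw [sum_product]

theorem Lk_insert {V : Type*} [DecidableEq V] (g : V → V → ℕ) (hs : ∀ a b, g a b = g b a)
    (h0 : ∀ a, g a a = 0) (x v : V) (W : Finset V) (hv : v ∉ W) :
    Lk g x (insert v W) = Lk g x W + 2 * (g x v * ∑ b ∈ W, g x b * g v b) := by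
  unfold Lk
  rw [sum_insert hv, sum_insert hv, h0]
  have : ∀ a ∈ W, ∑ b ∈ insert v W, g x a * g x b * g a b =
      g x v * (g x a * g v a) + ∑ b ∈ W, g x a * g x b * g a b := by
    intro a _
    rw [sum_insert hv, hs a v]
    ring
  rw [sum_congr rfl this, sum_add_distrib, ← mul_sum]
  have h2 : ∑ b ∈ W, g x v * g x b * g v b = g x v * ∑ b ∈ W, g x b * g v b := by
    rw [mul_sum]
    apply sum_congr rfl
    intro b _
    ring
  rw [h2]
  ring

theorem T6_insert {V : Type*} [DecidableEq V] (g : V → V → ℕ) (hs : ∀ a b, g a b = g b a)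
    (h0 : ∀ a, g a a = 0) (x : V) (W : Finset V) (hx : x ∉ W) :
    T6 g (insert x W) = T6 g W + 3 * Lk g x W := by
  rw [T6_eq, T6_eq, sum_insert hx]
  have h1 : Lk g x (insert x W) = Lk g x W := by
    rw [Lk_insert g hs h0 x x W hx, h0]; ring
  have h2 : ∀ a ∈ W, Lk g a (insert x W) = Lk g a W + 2 * (g a x * ∑ b ∈ W, g a b * g x b) := by
    intro a _
    exact Lk_insert g hs h0 a x W hx
  rw [h1, sum_congr rfl h2, sum_add_distrib, ← mul_sum]
  have h3 : ∑ a ∈ W, g a x * ∑ b ∈ W, g a b * g x b = Lk g x W := by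
    unfold Lk
    apply sum_congr rfl
    intro a _
    rw [mul_sum]
    apply sum_congr rfl
    intro b _
    rw [hs a x]
    ring
  rw [h3]
  ring

/-- Two-vertex decomposition of the edge count. -/
theorem I2_two {V : Type*} [DecidableEq V] (g : V → V → ℕ) (hs : ∀ a b, g a b = g b a)
    (h0 : ∀ a, g a a = 0) (u v : V) (huv : u ≠ v) (W : Finset V) (hu : u ∉ W) (hv : v ∉ W) :
    I2 g (insert u (insert v W)) = I2 g W + 2 * (∑ b ∈ W, g u b) + 2 * (∑ b ∈ W, g v b) +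
      2 * g u v := by
  rw [I2_insert g hs h0 u _ (by simp [huv, hu]), I2_insert g hs h0 v W hv, sum_insert hv]
  ring

/-- Two-vertex decomposition of the triangle count. -/
theorem T6_two {V : Type*} [DecidableEq V] (g : V → V → ℕ) (hs : ∀ a b, g a b = g b a)
    (h0 : ∀ a, g a a = 0) (u v : V) (huv : u ≠ v) (W : Finset V) (hu : u ∉ W) (hv : v ∉ W) :
    T6 g (insert u (insert v W)) = T6 g W + 3 * Lk g u W + 3 * Lk g v W +
      6 * (g u v * ∑ b ∈ W, g u b * g v b) := by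
  rw [T6_insert g hs h0 u _ (by simp [huv, hu]), T6_insert g hs h0 v W hv,
    Lk_insert g hs h0 u v W hv]
  ring

/-- The inequality `T ≥ 2e - 4n + 8` in ordered counts. -/
def Good {V : Type*} (g : V → V → ℕ) (W : Finset V) : Prop :=
  6 * I2 g W + 48 ≤ T6 g W + 24 * W.card

/-- Reverse inequality for the cut set. -/
def Small {V : Type*} (g : V → V → ℕ) (S : Finset V) : Prop :=
  T6 g S + 24 * S.card ≤ 6 * I2 g S + 48

theorem I2_sep {V : Type*} [DecidableEq V] (g : V → V → ℕ) (A B : Finset V)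
    (hsep : ∀ a ∈ A, a ∉ B → ∀ b ∈ B, b ∉ A → g a b = 0 ∧ g b a = 0) :
    I2 g (A ∪ B) + I2 g (A ∩ B) = I2 g A + I2 g B := by
  have hp : ∀ Z : Finset V, I2 g Z = ∑ p ∈ Z ×ˢ Z, g p.1 p.2 := by
    intro Z; unfold I2; rw [sum_product]
  rw [hp, hp, hp, hp]
  have h1 : (A ∩ B) ×ˢ (A ∩ B) = (A ×ˢ A) ∩ (B ×ˢ B) := by
    ext p; simp only [mem_inter, mem_product]; tauto
  have h2 : ∑ p ∈ (A ∪ B) ×ˢ (A ∪ B), g p.1 p.2 = ∑ p ∈ (A ×ˢ A) ∪ (B ×ˢ B), g p.1 p.2 := by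
    symm
    apply sum_subset
    · intro p; simp only [mem_union, mem_product]; tauto
    · intro p hp1 hp2
      simp only [mem_union, mem_product] at hp1 hp2
      by_cases a1 : p.1 ∈ A <;> by_cases a2 : p.2 ∈ A <;> by_cases b1 : p.1 ∈ B <;>
        by_cases b2 : p.2 ∈ B <;> simp only [a1, a2, b1, b2] at hp1 hp2 <;>
        first
        | exact (hsep p.1 a1 b1 p.2 b2 a2).1
        | exact (hsep p.2 a2 b2 p.1 b1 a1).2
        | (exfalso; simp at hp1 hp2)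
  rw [h2, h1, sum_union_inter]

theorem T6_sep {V : Type*} [DecidableEq V] (g : V → V → ℕ) (A B : Finset V)
    (hsep : ∀ a ∈ A, a ∉ B → ∀ b ∈ B, b ∉ A → g a b = 0 ∧ g b a = 0) :
    T6 g (A ∪ B) + T6 g (A ∩ B) = T6 g A + T6 g B := by
  unfold T6
  have h1 : (A ∩ B) ×ˢ (A ∩ B) ×ˢ (A ∩ B) = (A ×ˢ A ×ˢ A) ∩ (B ×ˢ B ×ˢ B) := by
    ext p; simp only [mem_inter, mem_product]; tauto
  have h2 : ∑ p ∈ (A ∪ B) ×ˢ (A ∪ B) ×ˢ (A ∪ B), g p.1 p.2.1 * g p.1 p.2.2 * g p.2.1 p.2.2 =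
      ∑ p ∈ (A ×ˢ A ×ˢ A) ∪ (B ×ˢ B ×ˢ B), g p.1 p.2.1 * g p.1 p.2.2 * g p.2.1 p.2.2 := by
    symm
    apply sum_subset
    · intro p; simp only [mem_union, mem_product]; tauto
    · rintro ⟨x, y, z⟩ hp1 hp2
      simp only [mem_union, mem_product] at hp1 hp2
      simp only
      have hzero : ∀ a b : V, (a ∈ A ∨ a ∈ B) → (b ∈ A ∨ b ∈ B) → ¬ (a ∈ A ∧ b ∈ A) →
          ¬ (a ∈ B ∧ b ∈ B) → g a b = 0 := by
        intro a b ha hb h1 h2
        by_cases haA : a ∈ A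
        · have hbA : b ∉ A := fun h => h1 ⟨haA, h⟩
          have hbB : b ∈ B := by tauto
          have haB : a ∉ B := fun h => h2 ⟨h, hbB⟩
          exact (hsep a haA haB b hbB hbA).1
        · have haB : a ∈ B := by tauto
          have hbB : b ∉ B := fun h => h2 ⟨haB, h⟩
          have hbA : b ∈ A := by tauto
          exact (hsep b hbA hbB a haB haA).2
      have hcase : (¬ (x ∈ A ∧ y ∈ A) ∧ ¬ (x ∈ B ∧ y ∈ B)) ∨
          (¬ (x ∈ A ∧ z ∈ A) ∧ ¬ (x ∈ B ∧ z ∈ B)) ∨ (¬ (y ∈ A ∧ z ∈ A) ∧ ¬ (y ∈ B ∧ z ∈ B)) := by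
        tauto
      rcases hcase with h | h | h
      · rw [hzero x y hp1.1 hp1.2.1 h.1 h.2]; ring
      · rw [hzero x z hp1.1 hp1.2.2 h.1 h.2]; ring
      · rw [hzero y z hp1.2.1 hp1.2.2 h.1 h.2]; ring
  rw [h2, h1, sum_union_inter]

theorem good_sep {V : Type*} [DecidableEq V] (g : V → V → ℕ) (A B : Finset V)
    (hsep : ∀ a ∈ A, a ∉ B → ∀ b ∈ B, b ∉ A → g a b = 0 ∧ g b a = 0)
    (hA : Good g A) (hB : Good g B) (hS : Small g (A ∩ B)) : Good g (A ∪ B) := by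
  unfold Good Small at *
  have h1 := I2_sep g A B hsep
  have h2 := T6_sep g A B hsep
  have h3 := card_union_add_card_inter A B
  omega

end Pool.Agent.TH455
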