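import Pool.Agent.TH455.Defs
import Pool.Agent.TH455.Draw

set_option autoImplicit false

/-!
# Certificates for graphs with 3-lists without a packing

A packing of a `3`-list-assignment orders the list of every vertex (six orders), with ends of an
edge having different colours at each of the three positions.  Non-existence is certified by a
search tree with propagation of domains (bit masks of the six orders).
-/

namespace Pool.Agent.TH455.Csp

/-- position `i` of the order `s` of three letters -/
def pm (s i : ℕ) : ℕ :=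
  match s with
  | 0 => match i with | 0 => 0 | 1 => 1 | _ => 2
  | 1 => match i with | 0 => 0 | 1 => 2 | _ => 1
  | 2 => match i with | 0 => 1 | 1 => 0 | _ => 2
  | 3 => match i with | 0 => 1 | 1 => 2 | _ => 0
  | 4 => match i with | 0 => 2 | 1 => 0 | _ => 1
  | _ => match i with | 0 => 2 | 1 => 1 | _ => 0

/-- the letter `j` of a triple -/
def pick (t : ℕ × ℕ × ℕ) (j : ℕ) : ℕ :=
  match j with | 0 => t.1 | 1 => t.2.1 | _ => t.2.2

/-- the colour at position `i` when the triple `t` is in the order `s` -/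
def col (t : ℕ × ℕ × ℕ) (s i : ℕ) : ℕ := pick t (pm s i)

/-- the two orders differ at each position -/
def rel (t u : ℕ × ℕ × ℕ) (s r : ℕ) : Bool :=
  !(Nat.beq (col t s 0) (col u r 0)) &&
    (!(Nat.beq (col t s 1) (col u r 1)) && !(Nat.beq (col t s 2) (col u r 2)))

/-- bit `s` of the mask `m` -/
def bit (m s : ℕ) : Bool := Nat.testBit m s

def mk6 (b : ℕ → Bool) : ℕ :=
  (b 0).toNat + ((b 1).toNat * 2 + ((b 2).toNat * 4 + ((b 3).toNat * 8 +
    ((b 4).toNat * 16 + (b 5).toNat * 32))))

theorem bit_mk6 (b : ℕ → Bool) (s : ℕ) (hs : s < 6) : bit (mk6 b) s = b s := by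
  have key : ∀ b0 b1 b2 b3 b4 b5 : Bool, 
      bit (b0.toNat + (b1.toNat * 2 + (b2.toNat * 4 + (b3.toNat * 8 +
        (b4.toNat * 16 + b5.toNat * 32))))) 0 = b0 ∧
      bit (b0.toNat + (b1.toNat * 2 + (b2.toNat * 4 + (b3.toNat * 8 +
        (b4.toNat * 16 + b5.toNat * 32))))) 1 = b1 ∧
      bit (b0.toNat + (b1.toNat * 2 + (b2.toNat * 4 + (b3.toNat * 8 +
        (b4.toNat * 16 + b5.toNat * 32))))) 2 = b2 ∧
      bit (b0.toNat + (b1.toNat * 2 + (b2.toNat * 4 + (b3.toNat * 8 +
        (b4.toNat * 16 + b5.toNat * 32))))) 3 = b3 ∧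
      bit (b0.toNat + (b1.toNat * 2 + (b2.toNat * 4 + (b3.toNat * 8 +
        (b4.toNat * 16 + b5.toNat * 32))))) 4 = b4 ∧
      bit (b0.toNat + (b1.toNat * 2 + (b2.toNat * 4 + (b3.toNat * 8 +
        (b4.toNat * 16 + b5.toNat * 32))))) 5 = b5 := by
    decide +kernel
  obtain ⟨h0, h1, h2, h3, h4, h5⟩ := key (b 0) (b 1) (b 2) (b 3) (b 4) (b 5)
  unfold mk6
  interval_cases s
  · exact h0
  · exact h1
  · exact h2
  · exact h3
  · exact h4
  · exact h5

/-- orders of the triple `u` compatible with some order of `t` in the mask `m` -/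
def sup (t u : ℕ × ℕ × ℕ) (m r : ℕ) : Bool :=
  (bit m 0 && rel t u 0 r) || ((bit m 1 && rel t u 1 r) || ((bit m 2 && rel t u 2 r) ||
    ((bit m 3 && rel t u 3 r) || ((bit m 4 && rel t u 4 r) || (bit m 5 && rel t u 5 r)))))

theorem sup_of {t u : ℕ × ℕ × ℕ} {m s r : ℕ} (hs : s < 6) (h1 : bit m s = true)
    (h2 : rel t u s r = true) : sup t u m r = true := by
  unfold sup
  interval_cases s <;> simp [h1, h2]

/-- search trees -/
inductive Cert where
  | zero (v : ℕ) : Cert
  | step (x y : ℕ) (r : Cert) : Cert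
  | br (v : ℕ) (c0 c1 c2 c3 c4 c5 : Cert) : Cert

/-- the mask of a vertex -/
def dm (d : List ℕ) (v : ℕ) : ℕ := d.getD v 63

variable (lst : ℕ → ℕ × ℕ × ℕ) (adj : ℕ → ℕ → Bool)

def imp (a b : Bool) : Bool := !a || b

/-- the checker -/
def check : Cert → List ℕ → Bool
  | .zero v, d => Nat.beq (dm d v) 0
  | .step x y r, d =>
      adj x y && check r (d.set y (mk6 fun s =>
        bit (dm d y) s && sup (lst x) (lst y) (dm d x) s))
  | .br v c0 c1 c2 c3 c4 c5, d =>
      imp (bit (dm d v) 0) (check c0 (d.set v 1)) &&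
      (imp (bit (dm d v) 1) (check c1 (d.set v 2)) &&
      (imp (bit (dm d v) 2) (check c2 (d.set v 4)) &&
      (imp (bit (dm d v) 3) (check c3 (d.set v 8)) &&
      (imp (bit (dm d v) 4) (check c4 (d.set v 16)) &&
      imp (bit (dm d v) 5) (check c5 (d.set v 32))))))

theorem imp_spec {a b : Bool} (h : imp a b = true) (ha : a = true) : b = true := by
  unfold imp at h
  rw [ha] at h
  simpa using h

theorem dm_set (d : List ℕ) (v w m : ℕ) :
    dm (d.set v m) w = m ∨ dm (d.set v m) w = dm d w := by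
  unfold dm
  rw [List.getD_eq_getElem?_getD, List.getD_eq_getElem?_getD, List.getElem?_set]
  split
  · split
    · left; rfl
    · right
      rename_i h1 h2
      rw [List.getElem?_eq_none (by omega)]
  · right; rfl

theorem dm_set_ne (d : List ℕ) (v w m : ℕ) (h : v ≠ w) : dm (d.set v m) w = dm d w := by
  unfold dm
  rw [List.getD_eq_getElem?_getD, List.getD_eq_getElem?_getD, List.getElem?_set]
  rw [if_neg h]

theorem dom_set {d : List ℕ} {st : ℕ → ℕ} (h : ∀ v, bit (dm d v) (st v) = true) (v m : ℕ)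
    (hm : bit m (st v) = true) : ∀ w, bit (dm (d.set v m) w) (st w) = true := by
  intro w
  by_cases hvw : v = w
  · subst hvw
    rcases dm_set d v v m with h' | h'
    · rw [h']; exact hm
    · rw [h']; exact h v
  · rw [dm_set_ne d v w m hvw]
    exact h w

/-- Soundness of the checker. -/
theorem check_sound (st : ℕ → ℕ) (hst : ∀ v, st v < 6)
    (hadj : ∀ x y, adj x y = true → rel (lst x) (lst y) (st x) (st y) = true) :
    ∀ (c : Cert) (d : List ℕ), check lst adj c d = true →
      (∀ v, bit (dm d v) (st v) = true) → False := by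
  intro c
  induction c with
  | zero v =>
    intro d h hd
    have h0 : dm d v = 0 := Nat.eq_of_beq_eq_true h
    have := hd v
    rw [h0] at this
    simp [bit] at this
  | step x y r ih =>
    intro d h hd
    unfold check at h
    rw [Bool.and_eq_true] at h
    apply ih _ h.2
    apply dom_set hd
    rw [bit_mk6 _ _ (hst y), hd y, Bool.true_and]
    exact sup_of (hst x) (hd x) (hadj x y h.1)
  | br v c0 c1 c2 c3 c4 c5 i0 i1 i2 i3 i4 i5 =>
    intro d h hd
    unfold check at h
    simp only [Bool.and_eq_true] at h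
    obtain ⟨h0, h1, h2, h3, h4, h5⟩ := h
    have hv := hst v
    have hb := hd v
    generalize hs : st v = s at hv hb
    interval_cases s
    · exact i0 _ (imp_spec h0 hb) (dom_set hd v _ (by rw [hs]; rfl))
    · exact i1 _ (imp_spec h1 hb) (dom_set hd v _ (by rw [hs]; rfl))
    · exact i2 _ (imp_spec h2 hb) (dom_set hd v _ (by rw [hs]; rfl))
    · exact i3 _ (imp_spec h3 hb) (dom_set hd v _ (by rw [hs]; rfl))
    · exact i4 _ (imp_spec h4 hb) (dom_set hd v _ (by rw [hs]; rfl))
    · exact i5 _ (imp_spec h5 hb) (dom_set hd v _ (by rw [hs]; rfl))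

/-- distinct letters -/
def dist3 (t : ℕ × ℕ × ℕ) : Bool :=
  !(Nat.beq t.1 t.2.1) && (!(Nat.beq t.1 t.2.2) && !(Nat.beq t.2.1 t.2.2))

/-- the start: all masks full, except for `{0}` at the root -/
def start (n root : ℕ) : List ℕ := (List.replicate n 63).set root 1

theorem nb {a b : ℕ} (hab : a ≠ b) : (!(Nat.beq a b)) = true := by
  cases h : Nat.beq a b
  · rfl
  · exact absurd (Nat.eq_of_beq_eq_true h) hab

theorem bn {a b : ℕ} (h : (!(Nat.beq a b)) = true) : a ≠ b := by
  rintro rfl
  rw [Nat.beq_refl] at h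
  exact Bool.noConfusion h

theorem exists_state (t : ℕ × ℕ × ℕ) (g : Fin 3 → ℕ) (hg : Function.Injective g)
    (hm : ∀ i, ∃ j : Fin 3, g i = pick t j) : ∃ s : ℕ, s < 6 ∧ ∀ i : Fin 3, g i = col t s i := by
  choose f hf using hm
  have hinj : ∀ i j, i ≠ j → f i ≠ f j := by
    intro i j hij h
    apply hij
    apply hg
    rw [hf i, hf j, h]
  have key : ∀ a b c : Fin 3, a ≠ b → a ≠ c → b ≠ c →
      ∃ s : Fin 6, pm s 0 = a ∧ pm s 1 = b ∧ pm s 2 = c := by decide +kernel
  obtain ⟨s, h0, h1, h2⟩ := key (f 0) (f 1) (f 2) (hinj 0 1 (by decide)) (hinj 0 2 (by decide))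
    (hinj 1 2 (by decide))
  refine ⟨s, s.2, ?_⟩
  intro i
  unfold col
  fin_cases i
  · exact (hf 0).trans (by rw [← h0])
  · exact (hf 1).trans (by rw [← h1])
  · exact (hf 2).trans (by rw [← h2])

/-- The order `0` is the only one that keeps all three letters in place. -/
theorem state_zero (t : ℕ × ℕ × ℕ) (ht : dist3 t = true) (s : ℕ) (hs : s < 6)
    (h : ∀ i : Fin 3, pick t i = col t s i) : s = 0 := by
  unfold dist3 at ht
  simp only [Bool.and_eq_true] at ht
  obtain ⟨h1, h2, h3⟩ := ht
  have n1 := bn h1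
  have n2 := bn h2
  have n3 := bn h3
  have e0 := h 0
  have e1 := h 1
  have e2 := h 2
  interval_cases s
  · rfl
  · exact absurd e1 n3
  · exact absurd e0 n1
  · exact absurd e0 n1
  · exact absurd e0 n2
  · exact absurd e0 n2

theorem not_packable {n : ℕ} (G : SimpleGraph (Fin n)) (hl : ∀ v, v < n → dist3 (lst v) = true)
    (hadj : ∀ x y, adj x y = true → ∃ (hx : x < n) (hy : y < n), G.Adj ⟨x, hx⟩ ⟨y, hy⟩)
    (root : Fin n) (c : Cert) (H : check lst adj c (start n root) = true) :
    ¬ ListPackable G 3 := by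
  intro h
  obtain ⟨c, h1, h2, h3⟩ := h (fun v => {pick (lst v) 0, pick (lst v) 1, pick (lst v) 2}) (by
    intro v
    have := hl v v.2
    unfold dist3 at this
    simp only [Bool.and_eq_true] at this
    obtain ⟨h1, h2, h3⟩ := this
    exact Finset.card_eq_three.mpr ⟨_, _, _, bn h1, bn h2, bn h3, rfl⟩)
  have hm : ∀ (v : Fin n) i, ∃ j : Fin 3, c i v = pick (lst v) j := by
    intro v i
    have := h1 i v
    simp only [Finset.mem_insert, Finset.mem_singleton] at this
    rcases this with h | h | h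
    · exact ⟨0, h⟩
    · exact ⟨1, h⟩
    · exact ⟨2, h⟩
  choose f hf using hm
  have hfinj : Function.Injective (f root) := by
    intro i j hij
    by_contra hne
    exact h3 root i j hne (by rw [hf root i, hf root j, hij])
  obtain ⟨g, hg1, hg2⟩ := Function.bijective_iff_has_inverse.mp
    (Finite.injective_iff_bijective.mp hfinj)
  have hginj : Function.Injective g := hg2.injective
  have hst : ∀ v : Fin n, ∃ s : ℕ, s < 6 ∧ ∀ i : Fin 3, c (g i) v = col (lst v) s i := by
    intro v
    apply exists_state (lst v) (fun i => c (g i) v)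
    · intro i j hij
      by_contra hne
      exact h3 v (g i) (g j) (fun h => hne (hginj h)) hij
    · intro i
      exact ⟨f v (g i), hf v (g i)⟩
  choose st hst6 hst using hst
  have hroot : st root = 0 := by
    apply state_zero (lst root) (hl root root.2) _ (hst6 root)
    intro i
    rw [← hst root i, hf root (g i), hg2 i]
  let st' : ℕ → ℕ := fun v => if hv : v < n then st ⟨v, hv⟩ else 0
  have st'_of : ∀ v (hv : v < n), st' v = st ⟨v, hv⟩ := fun v hv => dif_pos hv
  have st'_lt : ∀ v, st' v < 6 := by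
    intro v
    by_cases hv : v < n
    · rw [st'_of v hv]; exact hst6 _
    · have : st' v = 0 := dif_neg hv
      omega
  have b63 : ∀ s, s < 6 → bit 63 s = true := by
    intro s hs
    interval_cases s <;> rfl
  apply check_sound lst adj st' st'_lt _ _ _ H
  · apply dom_set
    · intro v
      have : dm (List.replicate n 63) v = 63 := by
        unfold dm
        rw [List.getD_eq_getElem?_getD, List.getElem?_replicate]
        split <;> rfl
      rw [this]
      exact b63 _ (st'_lt v)
    · rw [st'_of root root.2, hroot]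
      rfl
  · intro x y hxy
    obtain ⟨hx, hy, ha⟩ := hadj x y hxy
    rw [st'_of x hx, st'_of y hy]
    have hne : ∀ i : Fin 3, col (lst x) (st ⟨x, hx⟩) i ≠ col (lst y) (st ⟨y, hy⟩) i := by
      intro i h
      rw [← hst ⟨x, hx⟩ i, ← hst ⟨y, hy⟩ i] at h
      exact h2 (g i) _ _ ha h
    have n0 : col (lst x) (st ⟨x, hx⟩) 0 ≠ col (lst y) (st ⟨y, hy⟩) 0 := hne 0
    have n1 : col (lst x) (st ⟨x, hx⟩) 1 ≠ col (lst y) (st ⟨y, hy⟩) 1 := hne 1
    have n2 : col (lst x) (st ⟨x, hx⟩) 2 ≠ col (lst y) (st ⟨y, hy⟩) 2 := hne 2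
    unfold rel
    rw [nb n0, nb n1, nb n2]
    rfl

/-- the relation given by a list of pairs -/
def memB (es : List (ℕ × ℕ)) (x y : ℕ) : Bool :=
  match es with
  | [] => false
  | e :: r => ((Nat.beq e.1 x && Nat.beq e.2 y) || (Nat.beq e.1 y && Nat.beq e.2 x)) || memB r x y

theorem memB_spec (es : List (ℕ × ℕ)) (x y : ℕ) (h : memB es x y = true) :
    (x, y) ∈ es ∨ (y, x) ∈ es := by
  induction es with
  | nil => exact Bool.noConfusion h
  | cons e r ih =>
    unfold memB at h
    rw [Bool.or_eq_true, Bool.or_eq_true] at h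
    rcases h with (h | h) | h
    · rw [Bool.and_eq_true] at h
      left
      rw [← Nat.eq_of_beq_eq_true h.1, ← Nat.eq_of_beq_eq_true h.2]
      exact List.mem_cons_self
    · rw [Bool.and_eq_true] at h
      right
      rw [← Nat.eq_of_beq_eq_true h.1, ← Nat.eq_of_beq_eq_true h.2]
      exact List.mem_cons_self
    · rcases ih h with h | h
      · exact Or.inl (List.mem_cons_of_mem _ h)
      · exact Or.inr (List.mem_cons_of_mem _ h)

end Pool.Agent.TH455.Csp
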