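import Mathlib

set_option autoImplicit false

/-!
# List packing, correspondence packing: definitions
-/

namespace Pool.Agent.TH455

/-- Every assignment of lists of exactly `k` colours (natural numbers) to the vertices of `G`
admits a packing: `k` proper list colourings which pairwise differ at every vertex. -/
def ListPackable {V : Type} (G : SimpleGraph V) (k : ℕ) : Prop :=
  ∀ L : V → Finset ℕ, (∀ v, (L v).card = k) →
    ∃ c : Fin k → V → ℕ, (∀ i v, c i v ∈ L v) ∧ (∀ i u v, G.Adj u v → c i u ≠ c i v) ∧
      ∀ v i j, i ≠ j → c i v ≠ c j v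

/-- The list packing number: the least `k ≥ 1` such that `G` is `ListPackable` with `k`. -/
noncomputable def listPackingNumber {V : Type} (G : SimpleGraph V) : ℕ :=
  sInf {k | 1 ≤ k ∧ ListPackable G k}

/-- A `k`-fold cover of `G`: a graph `H` on the disjoint union of the `k`-element sets
`{x | p x = v}`, each of which is a clique, joined along every edge of `G` by a perfect matching,
and with no other edges. -/
structure Cover {V : Type} (G : SimpleGraph V) (k : ℕ) where
  X : Type
  H : SimpleGraph X
  p : X → V
  card_fiber : ∀ v, Nat.card {x // p x = v} = k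
  clique : ∀ x y, p x = p y → x ≠ y → H.Adj x y
  matching : ∀ x v, G.Adj (p x) v → ∃! y, p y = v ∧ H.Adj x y
  only : ∀ x y, H.Adj x y → p x = p y ∨ G.Adj (p x) (p y)

/-- An `H`-colouring: an independent set meeting every fibre in exactly one point. -/
def Cover.IsColouring {V : Type} {G : SimpleGraph V} {k : ℕ} (C : Cover G k) (I : Set C.X) :
    Prop :=
  (∀ x ∈ I, ∀ y ∈ I, ¬ C.H.Adj x y) ∧ ∀ v, ∃! x, C.p x = v ∧ x ∈ I

/-- An `H`-packing: `k` pairwise disjoint `H`-colourings. -/
def Cover.HasPacking {V : Type} {G : SimpleGraph V} {k : ℕ} (C : Cover G k) : Prop :=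
  ∃ I : Fin k → Set C.X, (∀ i, C.IsColouring (I i)) ∧ ∀ i j, i ≠ j → Disjoint (I i) (I j)

/-- The correspondence packing number: the least `k ≥ 1` such that every `k`-fold cover of `G`
has a packing. -/
noncomputable def corrPackingNumber {V : Type} (G : SimpleGraph V) : ℕ :=
  sInf {k | 1 ≤ k ∧ ∀ C : Cover G k, C.HasPacking}

end Pool.Agent.TH455
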