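import Pool.Agent.TH455.Fast

set_option autoImplicit false

/-!
# A bipartite planar graph on 52 vertices with a 3-list-assignment without a packing
-/

namespace Pool.Agent.TH455.ExB

open Pool.Agent.TH455.Csp Pool.Agent.TH455.Fast

/-- the edges -/
def es : List (ℕ × ℕ) := [
  (0, 1), (0, 3), (0, 4), (1, 2), (1, 6), (1, 9), (1, 11), (1, 12), (1, 15), (1, 18), (2, 3),
  (2, 4), (3, 6), (3, 8), (3, 9), (3, 10), (3, 12), (3, 18), (3, 22), (3, 24), (3, 25),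
  (3, 26), (3, 29), (3, 34), (3, 35), (3, 38), (3, 41), (3, 44), (3, 47), (3, 50), (4, 22),
  (4, 25), (4, 27), (4, 29), (4, 31), (4, 33), (4, 35), (4, 41), (4, 44), (4, 50), (5, 6),
  (5, 8), (5, 10), (5, 11), (7, 8), (7, 9), (7, 11), (12, 14), (12, 17), (12, 20), (13, 14),
  (13, 16), (13, 17), (13, 19), (13, 20), (14, 18), (15, 17), (15, 19), (16, 18), (18, 19),
  (21, 22), (21, 24), (21, 26), (21, 27), (23, 24), (23, 25), (23, 27), (28, 29), (28, 31),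
  (28, 33), (28, 34), (30, 31), (30, 34), (30, 35), (32, 44), (32, 45), (35, 37), (35, 40),
  (35, 43), (36, 37), (36, 39), (36, 40), (36, 42), (36, 43), (37, 41), (38, 40), (38, 42),
  (39, 41), (41, 42), (44, 46), (44, 49), (45, 46), (45, 48), (45, 49), (45, 51), (46, 50),
  (47, 49), (47, 51), (48, 50), (50, 51)]

/-- the lists -/
def data : List (ℕ × ℕ × ℕ) := [
  (1, 2, 3), (0, 2, 4), (1, 3, 4), (0, 2, 3), (0, 1, 2), (0, 3, 4), (2, 3, 4), (0, 1, 3),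
  (2, 3, 4), (1, 2, 4), (0, 3, 4), (0, 3, 4), (0, 1, 3), (0, 3, 4), (1, 3, 4), (1, 2, 4),
  (0, 1, 4), (1, 2, 4), (0, 1, 4), (1, 2, 3), (0, 3, 4), (0, 1, 3), (1, 2, 3), (0, 3, 4),
  (1, 2, 3), (1, 2, 4), (0, 2, 3), (0, 1, 2), (0, 1, 3), (1, 2, 3), (0, 1, 4), (1, 2, 3),
  (0, 1, 4), (0, 1, 2), (0, 2, 3), (1, 2, 4), (1, 2, 3), (1, 3, 4), (0, 3, 4), (0, 2, 3),
  (0, 3, 4), (2, 3, 4), (0, 1, 4), (1, 2, 3), (0, 1, 4), (0, 1, 3), (1, 3, 4), (0, 2, 4),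
  (0, 3, 4), (2, 3, 4), (0, 3, 4), (1, 2, 4)]

/-- the sides of the bipartition -/
def sides : List Bool := [
  false, true, false, true, true, true, false, true, false, false, false, false, false, false,
  true, false, true, true, false, true, true, true, false, true, false, false, false, false,
  true, false, true, false, true, false, false, false, false, true, false, true, true, false,
  true, true, false, false, true, false, true, true, false, true]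

/-- vertices with coordinates of a straight-line drawing -/
def vs : List VC := [
  ⟨0, 184, 163⟩, ⟨1, 55, 54⟩, ⟨2, 562, 554⟩, ⟨3, 1053, 68⟩, ⟨4, 297, 277⟩, ⟨5, 215, 116⟩,
  ⟨6, 185, 146⟩, ⟨7, 168, 102⟩, ⟨8, 177, 91⟩, ⟨9, 148, 79⟩, ⟨10, 208, 100⟩, ⟨11, 190, 134⟩,
  ⟨12, 1074, 44⟩, ⟨13, 1159, 24⟩, ⟨14, 1099, 68⟩, ⟨15, 0, 3⟩, ⟨16, 1114, 80⟩, ⟨17, 1065, 17⟩,
  ⟨18, 599, 604⟩, ⟨19, 1200, 0⟩, ⟨20, 1102, 56⟩, ⟨21, 558, 536⟩, ⟨22, 564, 543⟩,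
  ⟨23, 538, 480⟩, ⟨24, 563, 497⟩, ⟨25, 528, 471⟩, ⟨26, 576, 510⟩, ⟨27, 551, 509⟩,
  ⟨28, 538, 437⟩, ⟨29, 520, 464⟩, ⟨30, 540, 413⟩, ⟨31, 539, 420⟩, ⟨32, 319, 230⟩,
  ⟨33, 528, 446⟩, ⟨34, 569, 404⟩, ⟨35, 512, 384⟩, ⟨36, 521, 337⟩, ⟨37, 496, 367⟩,
  ⟨38, 556, 316⟩, ⟨39, 499, 352⟩, ⟨40, 557, 326⟩, ⟨41, 429, 292⟩, ⟨42, 461, 302⟩,
  ⟨43, 534, 352⟩, ⟨44, 360, 206⟩, ⟨45, 308, 220⟩, ⟨46, 299, 269⟩, ⟨47, 251, 187⟩,
  ⟨48, 281, 240⟩, ⟨49, 296, 198⟩, ⟨50, 201, 174⟩, ⟨51, 283, 232⟩]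

/-- edges with the coordinates of their ends -/
def ed : List EC := [
  ⟨0, 1, 184, 163, 55, 54⟩, ⟨0, 3, 184, 163, 1053, 68⟩, ⟨0, 4, 184, 163, 297, 277⟩,
  ⟨1, 2, 55, 54, 562, 554⟩, ⟨1, 6, 55, 54, 185, 146⟩, ⟨1, 9, 55, 54, 148, 79⟩,
  ⟨1, 11, 55, 54, 190, 134⟩, ⟨1, 12, 55, 54, 1074, 44⟩, ⟨1, 15, 55, 54, 0, 3⟩,
  ⟨1, 18, 55, 54, 599, 604⟩, ⟨2, 3, 562, 554, 1053, 68⟩, ⟨2, 4, 562, 554, 297, 277⟩,
  ⟨3, 6, 1053, 68, 185, 146⟩, ⟨3, 8, 1053, 68, 177, 91⟩, ⟨3, 9, 1053, 68, 148, 79⟩,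
  ⟨3, 10, 1053, 68, 208, 100⟩, ⟨3, 12, 1053, 68, 1074, 44⟩, ⟨3, 18, 1053, 68, 599, 604⟩,
  ⟨3, 22, 1053, 68, 564, 543⟩, ⟨3, 24, 1053, 68, 563, 497⟩, ⟨3, 25, 1053, 68, 528, 471⟩,
  ⟨3, 26, 1053, 68, 576, 510⟩, ⟨3, 29, 1053, 68, 520, 464⟩, ⟨3, 34, 1053, 68, 569, 404⟩,
  ⟨3, 35, 1053, 68, 512, 384⟩, ⟨3, 38, 1053, 68, 556, 316⟩, ⟨3, 41, 1053, 68, 429, 292⟩,
  ⟨3, 44, 1053, 68, 360, 206⟩, ⟨3, 47, 1053, 68, 251, 187⟩, ⟨3, 50, 1053, 68, 201, 174⟩,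
  ⟨4, 22, 297, 277, 564, 543⟩, ⟨4, 25, 297, 277, 528, 471⟩, ⟨4, 27, 297, 277, 551, 509⟩,
  ⟨4, 29, 297, 277, 520, 464⟩, ⟨4, 31, 297, 277, 539, 420⟩, ⟨4, 33, 297, 277, 528, 446⟩,
  ⟨4, 35, 297, 277, 512, 384⟩, ⟨4, 41, 297, 277, 429, 292⟩, ⟨4, 44, 297, 277, 360, 206⟩,
  ⟨4, 50, 297, 277, 201, 174⟩, ⟨5, 6, 215, 116, 185, 146⟩, ⟨5, 8, 215, 116, 177, 91⟩,
  ⟨5, 10, 215, 116, 208, 100⟩, ⟨5, 11, 215, 116, 190, 134⟩, ⟨7, 8, 168, 102, 177, 91⟩,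
  ⟨7, 9, 168, 102, 148, 79⟩, ⟨7, 11, 168, 102, 190, 134⟩, ⟨12, 14, 1074, 44, 1099, 68⟩,
  ⟨12, 17, 1074, 44, 1065, 17⟩, ⟨12, 20, 1074, 44, 1102, 56⟩, ⟨13, 14, 1159, 24, 1099, 68⟩,
  ⟨13, 16, 1159, 24, 1114, 80⟩, ⟨13, 17, 1159, 24, 1065, 17⟩, ⟨13, 19, 1159, 24, 1200, 0⟩,
  ⟨13, 20, 1159, 24, 1102, 56⟩, ⟨14, 18, 1099, 68, 599, 604⟩, ⟨15, 17, 0, 3, 1065, 17⟩,
  ⟨15, 19, 0, 3, 1200, 0⟩, ⟨16, 18, 1114, 80, 599, 604⟩, ⟨18, 19, 599, 604, 1200, 0⟩,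
  ⟨21, 22, 558, 536, 564, 543⟩, ⟨21, 24, 558, 536, 563, 497⟩, ⟨21, 26, 558, 536, 576, 510⟩,
  ⟨21, 27, 558, 536, 551, 509⟩, ⟨23, 24, 538, 480, 563, 497⟩, ⟨23, 25, 538, 480, 528, 471⟩,
  ⟨23, 27, 538, 480, 551, 509⟩, ⟨28, 29, 538, 437, 520, 464⟩, ⟨28, 31, 538, 437, 539, 420⟩,
  ⟨28, 33, 538, 437, 528, 446⟩, ⟨28, 34, 538, 437, 569, 404⟩, ⟨30, 31, 540, 413, 539, 420⟩,
  ⟨30, 34, 540, 413, 569, 404⟩, ⟨30, 35, 540, 413, 512, 384⟩, ⟨32, 44, 319, 230, 360, 206⟩,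
  ⟨32, 45, 319, 230, 308, 220⟩, ⟨35, 37, 512, 384, 496, 367⟩, ⟨35, 40, 512, 384, 557, 326⟩,
  ⟨35, 43, 512, 384, 534, 352⟩, ⟨36, 37, 521, 337, 496, 367⟩, ⟨36, 39, 521, 337, 499, 352⟩,
  ⟨36, 40, 521, 337, 557, 326⟩, ⟨36, 42, 521, 337, 461, 302⟩, ⟨36, 43, 521, 337, 534, 352⟩,
  ⟨37, 41, 496, 367, 429, 292⟩, ⟨38, 40, 556, 316, 557, 326⟩, ⟨38, 42, 556, 316, 461, 302⟩,
  ⟨39, 41, 499, 352, 429, 292⟩, ⟨41, 42, 429, 292, 461, 302⟩, ⟨44, 46, 360, 206, 299, 269⟩,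
  ⟨44, 49, 360, 206, 296, 198⟩, ⟨45, 46, 308, 220, 299, 269⟩, ⟨45, 48, 308, 220, 281, 240⟩,
  ⟨45, 49, 308, 220, 296, 198⟩, ⟨45, 51, 308, 220, 283, 232⟩, ⟨46, 50, 299, 269, 201, 174⟩,
  ⟨47, 49, 251, 187, 296, 198⟩, ⟨47, 51, 251, 187, 283, 232⟩, ⟨48, 50, 281, 240, 201, 174⟩,
  ⟨50, 51, 201, 174, 283, 232⟩]

/-- the search tree -/
def cert : Cert :=
  .step 3 0 <| .step 3 2 <| .step 3 6 <| .step 3 8 <| .step 3 9 <| .step 3 10 <| .step 3 12 <|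
  .step 3 18 <| .step 3 22 <| .step 3 24 <| .step 3 25 <| .step 3 26 <| .step 3 29 <| .step 3
  34 <| .step 3 35 <| .step 3 38 <| .step 3 41 <| .step 3 44 <| .step 3 47 <| .step 3 50 <|
  .step 10 5 <| .step 12 20 <| .step 26 21 <| .step 34 28 <| .step 38 40 <| .step 41 39 <|
  .step 50 48 <| .br 4 (.step 4 35 <| .step 4 41 <| .step 35 37 <| .step 35 40 <| .step 35 43
  <| .step 41 37 <| .step 41 39 <| .step 41 42 <| .step 37 36 <| .step 43 36 <| .step 39 36 <|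
  .step 36 40 <| .step 36 42 <| .step 40 38 <| .step 42 38 <| .zero 38) (.step 4 0 <| .step 4 2
  <| .step 4 22 <| .step 4 25 <| .step 4 27 <| .step 4 29 <| .step 4 31 <| .step 4 33 <| .step
  4 35 <| .step 4 44 <| .step 0 1 <| .step 2 1 <| .step 27 21 <| .step 33 28 <| .step 35 43 <|
  .step 44 32 <| .step 1 11 <| .step 1 12 <| .step 1 18 <| .step 12 14 <| .step 12 17 <| .step
  12 20 <| .step 18 16 <| .step 20 13 <| .br 1 (.zero 0) (.zero 0) (.zero 0) (.step 1 6 <|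
  .step 1 9 <| .step 1 11 <| .step 6 5 <| .step 9 7 <| .step 5 8 <| .step 5 11 <| .step 8 7 <|
  .step 11 7 <| .zero 7) (.zero 0) (.step 1 15 <| .step 1 18 <| .step 18 14 <| .step 18 16 <|
  .step 18 19 <| .step 14 13 <| .step 16 13 <| .step 13 17 <| .step 13 19 <| .step 17 15 <|
  .step 19 15 <| .zero 15)) (.step 4 29 <| .step 4 31 <| .step 4 33 <| .step 4 35 <| .step 4 41
  <| .step 29 28 <| .step 33 28 <| .step 41 37 <| .step 41 39 <| .step 41 42 <| .step 28 31 <|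
  .step 28 34 <| .step 39 36 <| .step 31 30 <| .step 34 30 <| .step 30 35 <| .step 35 37 <|
  .step 35 40 <| .step 35 43 <| .step 37 36 <| .step 43 36 <| .step 36 40 <| .step 36 42 <|
  .step 40 38 <| .step 42 38 <| .zero 38) (.step 4 44 <| .step 4 50 <| .step 44 32 <| .step 44
  46 <| .step 44 49 <| .step 50 46 <| .step 50 48 <| .step 50 51 <| .step 32 45 <| .step 46 45
  <| .step 48 45 <| .step 45 49 <| .step 45 51 <| .step 49 47 <| .step 51 47 <| .zero 47)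
  (.step 4 0 <| .step 4 2 <| .step 4 22 <| .step 4 25 <| .step 4 27 <| .step 4 29 <| .step 4 31
  <| .step 4 33 <| .step 4 35 <| .step 4 41 <| .step 4 44 <| .step 4 50 <| .step 0 1 <| .step 2
  1 <| .step 35 43 <| .step 41 39 <| .step 44 32 <| .step 50 48 <| .step 1 11 <| .step 1 12 <|
  .step 1 18 <| .step 12 14 <| .step 12 17 <| .step 12 20 <| .step 18 16 <| .step 20 13 <| .br
  1 (.zero 0) (.zero 0) (.zero 0) (.step 1 6 <| .step 1 9 <| .step 1 11 <| .step 6 5 <| .step 9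
  7 <| .step 5 8 <| .step 5 11 <| .step 8 7 <| .step 11 7 <| .zero 7) (.zero 0) (.step 1 15 <|
  .step 1 18 <| .step 18 14 <| .step 18 16 <| .step 18 19 <| .step 14 13 <| .step 16 13 <|
  .step 13 17 <| .step 13 19 <| .step 17 15 <| .step 19 15 <| .zero 15)) (.step 4 22 <| .step 4
  25 <| .step 4 27 <| .step 22 21 <| .step 25 23 <| .step 21 24 <| .step 21 27 <| .step 24 23
  <| .step 27 23 <| .zero 23)

/-- The graph. -/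
def G : SimpleGraph (Fin 52) := gr 52 es

theorem esOk_true : esOk 52 es = true := by decide +kernel

theorem bipartite : G.Colorable 2 := bip_of es sides (by decide +kernel)

theorem drawing : Pool.Agent.H239R2.Planar.HasStraightLineDrawing G :=
  drawing_of_checks es vs ed rfl (by decide +kernel) (by decide +kernel) (by decide +kernel)
    (by decide +kernel) (by decide +kernel) (by decide +kernel)

theorem no3 : ¬ ListPackable G 3 :=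
  no3_of_cert es data esOk_true (by decide +kernel) (3 : Fin 52) cert (by decide +kernel)

end Pool.Agent.TH455.ExB
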