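import Pool.Agent.TH455.ExB
import Pool.Agent.TH455.C4

set_option autoImplicit false

/-!
# The list packing number of the 52-vertex graph is four
-/

namespace Pool.Agent.TH455.ExB

open Pool.Agent.TH455.Fast
open Pool.Agent.H239R2.Planar (HasStraightLineDrawing)

theorem no1_of {V : Type} (G : SimpleGraph V) (a b : V) (h : G.Adj a b) : ¬ ListPackable G 1 := by
  intro hp
  obtain ⟨c, h1, h2, _⟩ := hp (fun _ => {0}) (fun _ => rfl)
  have x := Finset.mem_singleton.mp (h1 0 a)
  have y := Finset.mem_singleton.mp (h1 0 b)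
  exact h2 0 a b h (x.trans y.symm)

theorem no2_of {V : Type} [DecidableEq V] (G : SimpleGraph V) (x y z w : V) (hxy : G.Adj x y)
    (hyz : G.Adj y z) (hzw : G.Adj z w) (hwx : G.Adj w x) (hxz : x ≠ z) (hyw : y ≠ w) :
    ¬ ListPackable G 2 := by
  intro hp
  obtain ⟨c, h1, h2, h3⟩ := hp (fun v => if v = y then {1, 2} else if v = z then {0, 2}
    else {0, 1}) (by intro v; split_ifs <;> rfl)
  have mx : ∀ i, c i x = 0 ∨ c i x = 1 := by
    intro i
    have := h1 i x
    rw [if_neg hxy.ne, if_neg hxz] at this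
    simpa using this
  have my : ∀ i, c i y = 1 ∨ c i y = 2 := by
    intro i
    have := h1 i y
    rw [if_pos rfl] at this
    simpa using this
  have mz : ∀ i, c i z = 0 ∨ c i z = 2 := by
    intro i
    have := h1 i z
    rw [if_neg hyz.ne.symm, if_pos rfl] at this
    simpa using this
  have mw : ∀ i, c i w = 0 ∨ c i w = 1 := by
    intro i
    have := h1 i w
    rw [if_neg hyw.symm, if_neg hzw.ne.symm] at this
    simpa using this
  have a0 := mx 0
  have a1 := mx 1
  have b0 := my 0
  have b1 := my 1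
  have c0 := mz 0
  have c1 := mz 1
  have d0 := mw 0
  have d1 := mw 1
  have e0 := h2 0 x y hxy
  have e1 := h2 1 x y hxy
  have f0 := h2 0 y z hyz
  have f1 := h2 1 y z hyz
  have g0 := h2 0 z w hzw
  have g1 := h2 1 z w hzw
  have k0 := h2 0 w x hwx
  have k1 := h2 1 w x hwx
  have p := h3 x 0 1 (by decide)
  have q := h3 y 0 1 (by decide)
  have r := h3 z 0 1 (by decide)
  have s := h3 w 0 1 (by decide)
  omega

theorem no1 : ¬ ListPackable G 1 := no1_of G 0 1 ⟨by decide, by decide⟩

theorem no2 : ¬ ListPackable G 2 :=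
  no2_of G 0 1 2 4 ⟨by decide, by decide⟩ ⟨by decide, by decide⟩ ⟨by decide, by decide⟩
    ⟨by decide, by decide⟩ (by decide) (by decide)

/-- Bipartite graphs with a straight-line drawing, or without `K₅` and `K₃,₃` minors, have
packings for lists of four colours. -/
theorem up (V : Type) [Fintype V] (G : SimpleGraph V) (hG : HasStraightLineDrawing G ∨ NoKMinor G)
    (h : G.Colorable 2) : ListPackable G 4 :=
  listPackable_of_sparse G (planar_free_sparse (Or.inr hG) (h.cliqueFree (by norm_num)))

theorem four : listPackingNumber G = 4 := by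
  apply sInf_eq_four
  · exact ⟨by norm_num, up _ _ (Or.inl drawing) bipartite⟩
  · rintro ⟨h, _⟩; omega
  · rintro ⟨_, h⟩; exact no1 h
  · rintro ⟨_, h⟩; exact no2 h
  · rintro ⟨_, h⟩; exact no3 h

end Pool.Agent.TH455.ExB
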