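import Pool.Agent.TH455.Csp

set_option autoImplicit false

/-!
# Kernel-friendly versions of the checkers

All data are explicit lists of natural numbers; intermediate results are forced by matching.
-/

namespace Pool.Agent.TH455.Fast

open Pool.Agent.TH455.Csp
open Pool.Agent.H239R2.Planar (HasStraightLineDrawing)

/-- evaluate `n` before applying `k` -/
def force {α : Type} (n : ℕ) (k : ℕ → α) : α :=
  match n with
  | 0 => k 0
  | m + 1 => k (Nat.succ m)

theorem force_eq {α : Type} (n : ℕ) (k : ℕ → α) : force n k = k n := by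
  cases n <;> rfl

/-- replace an entry, continuation-passing -/
def setk (d : List ℕ) (v m : ℕ) (k : List ℕ → Bool) : Bool :=
  match d with
  | [] => k []
  | a :: r =>
    match v with
    | 0 => k (m :: r)
    | v' + 1 => setk r v' m fun r' => k (a :: r')

theorem setk_eq (d : List ℕ) : ∀ (v m : ℕ) (k : List ℕ → Bool), setk d v m k = k (d.set v m) := by
  induction d with
  | nil => intro v m k; rfl
  | cons a r ih =>
    intro v m k
    cases v with
    | zero => rfl
    | succ v' =>
      unfold setk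
      simp only
      rw [ih]
      rfl

/-- the triple with explicit entries -/
def forceT {α : Type} (t : ℕ × ℕ × ℕ) (k : ℕ × ℕ × ℕ → α) : α :=
  match t with
  | (a, b, c) => k (a, b, c)

theorem forceT_eq {α : Type} (t : ℕ × ℕ × ℕ) (k : ℕ × ℕ × ℕ → α) : forceT t k = k t := rfl

variable (lst : ℕ → ℕ × ℕ × ℕ) (adj : ℕ → ℕ → Bool)

/-- the checker, forced -/
def checkF : Cert → List ℕ → Bool
  | .zero v, d => Nat.beq (dm d v) 0
  | .step x y r, d =>
      adj x y && force (dm d y) fun my => force (dm d x) fun mx =>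
        forceT (lst x) fun tx => forceT (lst y) fun ty =>
        force (mk6 fun s => bit my s && sup tx ty mx s) fun m =>
        setk d y m fun d' => checkF r d'
  | .br v c0 c1 c2 c3 c4 c5, d =>
      imp (bit (dm d v) 0) (setk d v 1 (checkF c0)) &&
      (imp (bit (dm d v) 1) (setk d v 2 (checkF c1)) &&
      (imp (bit (dm d v) 2) (setk d v 4 (checkF c2)) &&
      (imp (bit (dm d v) 3) (setk d v 8 (checkF c3)) &&
      (imp (bit (dm d v) 4) (setk d v 16 (checkF c4)) &&
      imp (bit (dm d v) 5) (setk d v 32 (checkF c5))))))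

theorem checkF_eq : ∀ (c : Cert) (d : List ℕ), checkF lst adj c d = check lst adj c d := by
  intro c
  induction c with
  | zero v => intro d; rfl
  | step x y r ih =>
    intro d
    unfold checkF check
    rw [force_eq, force_eq, forceT_eq, forceT_eq, force_eq, setk_eq, ih]
  | br v c0 c1 c2 c3 c4 c5 i0 i1 i2 i3 i4 i5 =>
    intro d
    unfold checkF check
    rw [setk_eq, setk_eq, setk_eq, setk_eq, setk_eq, setk_eq, i0, i1, i2, i3, i4, i5]

/-- the graph on `Fin n` with the given edges -/
def gr (n : ℕ) (es : List (ℕ × ℕ)) : SimpleGraph (Fin n) where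
  Adj a b := a ≠ b ∧ ((a.1, b.1) ∈ es ∨ (b.1, a.1) ∈ es)
  symm := ⟨fun _ _ h => ⟨h.1.symm, h.2.symm⟩⟩
  loopless := ⟨fun _ h => h.1 rfl⟩

/-- all entries are edges between distinct vertices below `n` -/
def esOk (n : ℕ) : List (ℕ × ℕ) → Bool
  | [] => true
  | e :: r => (Nat.blt e.1 e.2 && Nat.blt e.2 n) && esOk n r

theorem esOk_spec {n : ℕ} {es : List (ℕ × ℕ)} (h : esOk n es = true) :
    ∀ e ∈ es, e.1 < e.2 ∧ e.2 < n := by
  induction es with
  | nil => intro e he; simp at he
  | cons a r ih =>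
    unfold esOk at h
    rw [Bool.and_eq_true, Bool.and_eq_true, Nat.blt_eq, Nat.blt_eq] at h
    intro e he
    rcases List.mem_cons.mp he with rfl | he
    · exact h.1
    · exact ih h.2 e he

theorem no3_of_cert {n : ℕ} (es : List (ℕ × ℕ)) (data : List (ℕ × ℕ × ℕ)) (hes : esOk n es = true)
    (hd : data.all dist3 = true) (root : Fin n) (c : Cert)
    (H : checkF (fun v => data.getD v (0, 1, 2)) (memB es) c (start n root) = true) :
    ¬ ListPackable (gr n es) 3 := by
  rw [checkF_eq] at H
  apply not_packable (fun v => data.getD v (0, 1, 2)) (memB es) (gr n es) _ _ root c H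
  · intro v _
    rw [List.getD_eq_getElem?_getD]
    cases h : data[v]? with
    | none => rfl
    | some t => exact List.all_eq_true.mp hd t (List.mem_of_getElem? h)
  · intro x y hxy
    rcases memB_spec es x y hxy with h | h
    · have := esOk_spec hes _ h
      simp only at this
      have hx : x < n := by omega
      exact ⟨hx, this.2, by intro h'; have := congrArg Fin.val h'; simp only at this; omega,
        Or.inl h⟩
    · have := esOk_spec hes _ h
      simp only at this
      have hy : y < n := by omega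
      exact ⟨this.2, hy, by intro h'; have := congrArg Fin.val h'; simp only at this; omega,
        Or.inr h⟩

/-- the two ends of each edge get different Booleans -/
def bipOk (sd : List Bool) : List (ℕ × ℕ) → Bool
  | [] => true
  | e :: r => xor (sd.getD e.1 false) (sd.getD e.2 false) && bipOk sd r

theorem bip_of {n : ℕ} (es : List (ℕ × ℕ)) (sd : List Bool) (h : bipOk sd es = true) :
    (gr n es).Colorable 2 := by
  have key : ∀ e ∈ es, sd.getD e.1 false ≠ sd.getD e.2 false := by
    induction es with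
    | nil => intro e he; simp at he
    | cons a r ih =>
      unfold bipOk at h
      rw [Bool.and_eq_true] at h
      intro e he
      rcases List.mem_cons.mp he with rfl | he
      · intro h'
        rw [h'] at h
        simp at h
      · exact ih h.2 e he
  have hc : (gr n es).Coloring Bool := SimpleGraph.Coloring.mk (fun v => sd.getD v.1 false) (by
    rintro a b ⟨_, hab | hab⟩
    · exact key _ hab
    · exact (key _ hab).symm)
  simpa using hc.colorable

/-! ### drawings -/

/-- `1`, `2`, `0` for a positive, negative, zero orientation -/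
def sgn (p1 p2 q1 q2 r1 r2 : ℕ) : ℕ :=
  force (q1 * r2 + (q2 * p1 + p2 * r1)) fun a =>
  force (q1 * p2 + (p1 * r2 + q2 * r1)) fun b =>
  cond (Nat.blt b a) 1 (cond (Nat.blt a b) 2 0)

def pt (a b : ℕ) : ℤ × ℤ := ((a : ℤ), (b : ℤ))

theorem sgn_one {p1 p2 q1 q2 r1 r2 : ℕ} (h : sgn p1 p2 q1 q2 r1 r2 = 1) :
    0 < ori (pt p1 p2) (pt q1 q2) (pt r1 r2) := by
  unfold sgn at h
  rw [force_eq, force_eq] at h
  cases hb : Nat.blt (q1 * p2 + (p1 * r2 + q2 * r1)) (q1 * r2 + (q2 * p1 + p2 * r1)) with
  | false =>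
    rw [hb] at h
    cases hc : Nat.blt (q1 * r2 + (q2 * p1 + p2 * r1)) (q1 * p2 + (p1 * r2 + q2 * r1)) with
    | false => rw [hc] at h; simp at h
    | true => rw [hc] at h; simp at h
  | true =>
    rw [Nat.blt_eq] at hb
    unfold ori pt
    have : ((q1 * p2 + (p1 * r2 + q2 * r1) : ℕ) : ℤ) < ((q1 * r2 + (q2 * p1 + p2 * r1) : ℕ) : ℤ) := by
      exact_mod_cast hb
    push_cast at this
    simp only
    nlinarith

theorem sgn_two {p1 p2 q1 q2 r1 r2 : ℕ} (h : sgn p1 p2 q1 q2 r1 r2 = 2) :
    ori (pt p1 p2) (pt q1 q2) (pt r1 r2) < 0 := by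
  unfold sgn at h
  rw [force_eq, force_eq] at h
  cases hb : Nat.blt (q1 * p2 + (p1 * r2 + q2 * r1)) (q1 * r2 + (q2 * p1 + p2 * r1)) with
  | true => rw [hb] at h; simp at h
  | false =>
    rw [hb] at h
    cases hc : Nat.blt (q1 * r2 + (q2 * p1 + p2 * r1)) (q1 * p2 + (p1 * r2 + q2 * r1)) with
    | false => rw [hc] at h; simp at h
    | true =>
      rw [Nat.blt_eq] at hc
      unfold ori pt
      have : ((q1 * r2 + (q2 * p1 + p2 * r1) : ℕ) : ℤ) <
          ((q1 * p2 + (p1 * r2 + q2 * r1) : ℕ) : ℤ) := by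
        exact_mod_cast hc
      push_cast at this
      simp only
      nlinarith

theorem sgn_cases (p1 p2 q1 q2 r1 r2 : ℕ) : sgn p1 p2 q1 q2 r1 r2 = 1 ∨
    sgn p1 p2 q1 q2 r1 r2 = 2 ∨ sgn p1 p2 q1 q2 r1 r2 = 0 := by
  unfold sgn
  rw [force_eq, force_eq]
  cases Nat.blt (q1 * p2 + (p1 * r2 + q2 * r1)) (q1 * r2 + (q2 * p1 + p2 * r1)) with
  | true => exact Or.inl rfl
  | false =>
    cases Nat.blt (q1 * r2 + (q2 * p1 + p2 * r1)) (q1 * p2 + (p1 * r2 + q2 * r1)) with
    | true => exact Or.inr (Or.inl rfl)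
    | false => exact Or.inr (Or.inr rfl)

theorem sgn_ne {p1 p2 q1 q2 r1 r2 : ℕ} (h : sgn p1 p2 q1 q2 r1 r2 ≠ 0) :
    ori (pt p1 p2) (pt q1 q2) (pt r1 r2) ≠ 0 := by
  rcases sgn_cases p1 p2 q1 q2 r1 r2 with h1 | h1 | h1
  · exact (sgn_one h1).ne'
  · exact (sgn_two h1).ne
  · exact absurd h1 h

/-- both signs are positive or both are negative -/
def same (a b : ℕ) : Bool := (Nat.beq a 1 && Nat.beq b 1) || (Nat.beq a 2 && Nat.beq b 2)

theorem same_spec {p1 p2 q1 q2 r1 r2 s1 s2 : ℕ}
    (h : same (sgn p1 p2 q1 q2 r1 r2) (sgn p1 p2 q1 q2 s1 s2) = true) :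
    0 < ori (pt p1 p2) (pt q1 q2) (pt r1 r2) * ori (pt p1 p2) (pt q1 q2) (pt s1 s2) := by
  unfold same at h
  rw [Bool.or_eq_true, Bool.and_eq_true, Bool.and_eq_true] at h
  rcases h with ⟨h1, h2⟩ | ⟨h1, h2⟩
  · exact mul_pos (sgn_one (Nat.eq_of_beq_eq_true h1)) (sgn_one (Nat.eq_of_beq_eq_true h2))
  · exact mul_pos_of_neg_of_neg (sgn_two (Nat.eq_of_beq_eq_true h1))
      (sgn_two (Nat.eq_of_beq_eq_true h2))

/-- an edge with the coordinates of its ends -/
structure EC where
  u : ℕ
  v : ℕ
  p1 : ℕ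
  p2 : ℕ
  q1 : ℕ
  q2 : ℕ

/-- a vertex with its coordinates -/
structure VC where
  i : ℕ
  x : ℕ
  y : ℕ

def sepB (e f : EC) : Bool :=
  match e with
  | ⟨u, v, p1, p2, q1, q2⟩ =>
    match f with
    | ⟨u', v', r1, r2, s1, s2⟩ =>
      (((Nat.beq u u' || Nat.beq u v') || (Nat.beq v u' || Nat.beq v v')) ||
        same (sgn p1 p2 q1 q2 r1 r2) (sgn p1 p2 q1 q2 s1 s2)) ||
        same (sgn r1 r2 s1 s2 p1 p2) (sgn r1 r2 s1 s2 q1 q2)

def sepAll (e : EC) : List EC → Bool
  | [] => true
  | f :: r => sepB e f && sepAll e r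

def pairsOk : List EC → Bool
  | [] => true
  | e :: r => sepAll e r && pairsOk r

def offB (e : EC) (w : VC) : Bool :=
  match e with
  | ⟨u, v, p1, p2, q1, q2⟩ =>
    match w with
    | ⟨i, x, y⟩ => (Nat.beq i u || Nat.beq i v) || !(Nat.beq (sgn p1 p2 q1 q2 x y) 0)

def offAll (e : EC) : List VC → Bool
  | [] => true
  | w :: r => offB e w && offAll e r

def offOk (vs : List VC) : List EC → Bool
  | [] => true
  | e :: r => offAll e vs && offOk vs r

def neB (a b : VC) : Bool :=
  match a with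
  | ⟨_, x, y⟩ => match b with
    | ⟨_, x', y'⟩ => !(Nat.beq x x' && Nat.beq y y')

def neAll (a : VC) : List VC → Bool
  | [] => true
  | b :: r => neB a b && neAll a r

def distOk : List VC → Bool
  | [] => true
  | a :: r => neAll a r && distOk r

/-- the indices are `k, k+1, …` -/
def idxOk (k : ℕ) : List VC → Bool
  | [] => true
  | a :: r => Nat.beq a.i k && force (k + 1) fun k' => idxOk k' r

def lookOk (vs : List VC) : List EC → Bool
  | [] => true
  | e :: r =>
      (match e with
      | ⟨u, v, p1, p2, q1, q2⟩ =>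
        (match vs.getD u ⟨0, 0, 0⟩ with | ⟨_, x, y⟩ => Nat.beq x p1 && Nat.beq y p2) &&
        (match vs.getD v ⟨0, 0, 0⟩ with | ⟨_, x, y⟩ => Nat.beq x q1 && Nat.beq y q2)) &&
      lookOk vs r

/-- the coordinates of the edges are those of the vertices, and the edges are the given ones -/
def esEq : List (ℕ × ℕ) → List EC → Bool
  | [], [] => true
  | e :: r, f :: r' => (Nat.beq e.1 f.u && Nat.beq e.2 f.v) && esEq r r'
  | _, _ => false

theorem esEq_spec : ∀ (es : List (ℕ × ℕ)) (ed : List EC), esEq es ed = true →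
    ∀ e ∈ es, ∃ f ∈ ed, f.u = e.1 ∧ f.v = e.2 := by
  intro es
  induction es with
  | nil => intro ed _ e he; simp at he
  | cons a r ih =>
    intro ed h e he
    cases ed with
    | nil => exact Bool.noConfusion h
    | cons f r' =>
      unfold esEq at h
      rw [Bool.and_eq_true, Bool.and_eq_true] at h
      rcases List.mem_cons.mp he with rfl | he
      · exact ⟨f, List.mem_cons_self, (Nat.eq_of_beq_eq_true h.1.1).symm,
          (Nat.eq_of_beq_eq_true h.1.2).symm⟩
      · obtain ⟨f', hf', h'⟩ := ih r' h.2 e he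
        exact ⟨f', List.mem_cons_of_mem _ hf', h'⟩

theorem sepAll_spec {e : EC} {l : List EC} (h : sepAll e l = true) :
    ∀ f ∈ l, sepB e f = true := by
  induction l with
  | nil => intro f hf; simp at hf
  | cons a r ih =>
    unfold sepAll at h
    rw [Bool.and_eq_true] at h
    intro f hf
    rcases List.mem_cons.mp hf with rfl | hf
    · exact h.1
    · exact ih h.2 f hf

theorem pairsOk_spec {l : List EC} (h : pairsOk l = true) :
    ∀ e ∈ l, ∀ f ∈ l, e = f ∨ sepB e f = true ∨ sepB f e = true := by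
  induction l with
  | nil => intro f hf; simp at hf
  | cons a r ih =>
    unfold pairsOk at h
    rw [Bool.and_eq_true] at h
    intro e he f hf
    rcases List.mem_cons.mp he with he' | he'
    · rcases List.mem_cons.mp hf with hf' | hf'
      · exact Or.inl (he'.trans hf'.symm)
      · rw [he']
        exact Or.inr (Or.inl (sepAll_spec h.1 f hf'))
    · rcases List.mem_cons.mp hf with hf' | hf'
      · rw [hf']
        exact Or.inr (Or.inr (sepAll_spec h.1 e he'))
      · exact ih h.2 e he' f hf'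

theorem offAll_spec {e : EC} {l : List VC} (h : offAll e l = true) :
    ∀ f ∈ l, offB e f = true := by
  induction l with
  | nil => intro f hf; simp at hf
  | cons a r ih =>
    unfold offAll at h
    rw [Bool.and_eq_true] at h
    intro f hf
    rcases List.mem_cons.mp hf with rfl | hf
    · exact h.1
    · exact ih h.2 f hf

theorem offOk_spec {vs : List VC} {l : List EC} (h : offOk vs l = true) :
    ∀ e ∈ l, ∀ w ∈ vs, offB e w = true := by
  induction l with
  | nil => intro f hf; simp at hf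
  | cons a r ih =>
    unfold offOk at h
    rw [Bool.and_eq_true] at h
    intro f hf
    rcases List.mem_cons.mp hf with rfl | hf
    · exact offAll_spec h.1
    · exact ih h.2 f hf

theorem neAll_spec {a : VC} {l : List VC} (h : neAll a l = true) :
    ∀ f ∈ l, neB a f = true := by
  induction l with
  | nil => intro f hf; simp at hf
  | cons b r ih =>
    unfold neAll at h
    rw [Bool.and_eq_true] at h
    intro f hf
    rcases List.mem_cons.mp hf with rfl | hf
    · exact h.1
    · exact ih h.2 f hf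

theorem neB_spec {a b : VC} (h : neB a b = true) : ¬ (a.x = b.x ∧ a.y = b.y) := by
  obtain ⟨i, x, y⟩ := a
  obtain ⟨j, x', y'⟩ := b
  rintro ⟨h1, h2⟩
  simp only at h1 h2
  subst h1 h2
  unfold neB at h
  simp only [Nat.beq_refl, Bool.and_self, Bool.not_true] at h
  exact Bool.noConfusion h

theorem distOk_spec {l : List VC} (h : distOk l = true) :
    ∀ (i j : ℕ) (hi : i < l.length) (hj : j < l.length), i < j → ¬ (l[i].x = l[j].x ∧ l[i].y = l[j].y) := by
  induction l with
  | nil => intro i j hi; simp at hi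
  | cons a r ih =>
    unfold distOk at h
    rw [Bool.and_eq_true] at h
    intro i j hi hj hij
    cases j with
    | zero => omega
    | succ j =>
      cases i with
      | zero =>
        simp only [List.getElem_cons_zero, List.getElem_cons_succ]
        exact neB_spec (neAll_spec h.1 _ (List.getElem_mem _))
      | succ i =>
        simp only [List.getElem_cons_succ]
        exact ih h.2 i j _ _ (by omega)

theorem idxOk_spec {l : List VC} : ∀ (k : ℕ), idxOk k l = true →
    ∀ (i : ℕ) (hi : i < l.length), l[i].i = k + i := by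
  induction l with
  | nil => intro k _ i hi; simp at hi
  | cons a r ih =>
    intro k h i hi
    unfold idxOk at h
    rw [force_eq, Bool.and_eq_true] at h
    cases i with
    | zero => exact Nat.eq_of_beq_eq_true h.1
    | succ i =>
      simp only [List.getElem_cons_succ]
      rw [ih (k + 1) h.2 i _]
      omega

theorem lookOk_spec {vs : List VC} {l : List EC} (h : lookOk vs l = true) :
    ∀ e ∈ l, ((vs.getD e.u ⟨0, 0, 0⟩).x = e.p1 ∧ (vs.getD e.u ⟨0, 0, 0⟩).y = e.p2) ∧
      ((vs.getD e.v ⟨0, 0, 0⟩).x = e.q1 ∧ (vs.getD e.v ⟨0, 0, 0⟩).y = e.q2) := by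
  induction l with
  | nil => intro f hf; simp at hf
  | cons a r ih =>
    unfold lookOk at h
    rw [Bool.and_eq_true] at h
    intro f hf
    rcases List.mem_cons.mp hf with rfl | hf
    · obtain ⟨u, v, p1, p2, q1, q2⟩ := f
      have h1 := h.1
      simp only at h1
      rw [Bool.and_eq_true, Bool.and_eq_true, Bool.and_eq_true] at h1
      exact ⟨⟨Nat.eq_of_beq_eq_true h1.1.1, Nat.eq_of_beq_eq_true h1.1.2⟩,
        ⟨Nat.eq_of_beq_eq_true h1.2.1, Nat.eq_of_beq_eq_true h1.2.2⟩⟩
    · exact ih h.2 f hf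

theorem ori_pos_swap {p q r s : ℤ × ℤ} (h : sepI p q r s) : sepI r s p q := by
  unfold sepI at *
  exact h.symm

theorem sepB_spec (e f : EC) (h : sepB e f = true) (n1 : e.u ≠ f.u) (n2 : e.u ≠ f.v)
    (n3 : e.v ≠ f.u) (n4 : e.v ≠ f.v) :
    sepI (pt e.p1 e.p2) (pt e.q1 e.q2) (pt f.p1 f.p2) (pt f.q1 f.q2) := by
  obtain ⟨u, v, p1, p2, q1, q2⟩ := e
  obtain ⟨u', v', r1, r2, s1, s2⟩ := f
  simp only at n1 n2 n3 n4 ⊢
  unfold sepB at h
  simp only at h
  rw [Bool.or_eq_true, Bool.or_eq_true, Bool.or_eq_true, Bool.or_eq_true, Bool.or_eq_true] at h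
  unfold sepI
  rcases h with (((h | h) | (h | h)) | h) | h
  · exact absurd (Nat.eq_of_beq_eq_true h) n1
  · exact absurd (Nat.eq_of_beq_eq_true h) n2
  · exact absurd (Nat.eq_of_beq_eq_true h) n3
  · exact absurd (Nat.eq_of_beq_eq_true h) n4
  · exact Or.inl (same_spec h)
  · exact Or.inr (same_spec h)

/-- Soundness of the drawing checks. -/
theorem drawing_of_checks {n : ℕ} (es : List (ℕ × ℕ)) (vs : List VC) (ed : List EC)
    (hlen : vs.length = n) (h0 : idxOk 0 vs = true)
    (h1 : esEq es ed = true) (h2 : lookOk vs ed = true) (h3 : distOk vs = true)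
    (h4 : offOk vs ed = true) (h5 : pairsOk ed = true) :
    HasStraightLineDrawing (gr n es) := by
  let c : ℕ → VC := fun v => vs.getD v ⟨0, 0, 0⟩
  have c_of : ∀ v (hv : v < vs.length), c v = vs[v] := by
    intro v hv
    show vs.getD v _ = _
    rw [List.getD_eq_getElem?_getD, List.getElem?_eq_getElem hv]
    rfl
  let P : Fin n → ℤ × ℤ := fun v => pt (c v).x (c v).y
  have hidx : ∀ v : Fin n, (c v).i = v := by
    intro v
    rw [c_of v (by omega), idxOk_spec 0 h0]
    omega
  have hmem : ∀ v : Fin n, c v ∈ vs := by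
    intro v
    rw [c_of v (by omega)]
    exact List.getElem_mem _
  have edge : ∀ a b : Fin n, (a.1, b.1) ∈ es → ∃ f ∈ ed, f.u = a.1 ∧ f.v = b.1 ∧
      P a = pt f.p1 f.p2 ∧ P b = pt f.q1 f.q2 := by
    intro a b hab
    obtain ⟨f, hf, e1, e2⟩ := esEq_spec es ed h1 _ hab
    have hl := lookOk_spec h2 f hf
    simp only at e1 e2
    refine ⟨f, hf, e1, e2, ?_, ?_⟩
    · show pt (c a).x (c a).y = _
      rw [← hl.1.1, ← hl.1.2, e1]
    · show pt (c b).x (c b).y = _
      rw [← hl.2.1, ← hl.2.2, e2]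
  have hoff : ∀ a b w : Fin n, (a.1, b.1) ∈ es → w ≠ a → w ≠ b →
      ori (P a) (P b) (P w) ≠ 0 := by
    intro a b w hab hwa hwb
    obtain ⟨f, hf, e1, e2, e3, e4⟩ := edge a b hab
    have ho := offOk_spec h4 f hf (c w) (hmem w)
    rw [e3, e4]
    show ori _ _ (pt (c w).x (c w).y) ≠ 0
    have hi := hidx w
    revert ho
    generalize c w = z at hi ⊢
    obtain ⟨i, x, y⟩ := z
    obtain ⟨u, v, p1, p2, q1, q2⟩ := f
    simp only at e1 e2 hi ⊢
    intro ho
    unfold offB at ho
    simp only at ho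
    rw [Bool.or_eq_true, Bool.or_eq_true] at ho
    rcases ho with (ho | ho) | ho
    · exfalso; apply hwa; apply Fin.ext
      rw [← hi, ← e1]; exact Nat.eq_of_beq_eq_true ho
    · exfalso; apply hwb; apply Fin.ext
      rw [← hi, ← e2]; exact Nat.eq_of_beq_eq_true ho
    · exact sgn_ne (bn ho)
  have hsep : ∀ a b x y : Fin n, (a.1, b.1) ∈ es → (x.1, y.1) ∈ es → a ≠ x → a ≠ y → b ≠ x →
      b ≠ y → sepI (P a) (P b) (P x) (P y) := by
    intro a b x y hab hxy n1 n2 n3 n4
    have v1 : a.1 ≠ x.1 := fun h => n1 (Fin.ext h)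
    have v2 : a.1 ≠ y.1 := fun h => n2 (Fin.ext h)
    have v3 : b.1 ≠ x.1 := fun h => n3 (Fin.ext h)
    have v4 : b.1 ≠ y.1 := fun h => n4 (Fin.ext h)
    obtain ⟨f, hf, e1, e2, e3, e4⟩ := edge a b hab
    obtain ⟨g, hg, d1, d2, d3, d4⟩ := edge x y hxy
    rw [e3, e4, d3, d4]
    rcases pairsOk_spec h5 f hf g hg with h | h | h
    · exfalso; apply v1; rw [← e1, ← d1, h]
    · exact sepB_spec f g h (by rw [e1, d1]; exact v1) (by rw [e1, d2]; exact v2)
        (by rw [e2, d1]; exact v3) (by rw [e2, d2]; exact v4)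
    · exact ori_pos_swap (sepB_spec g f h (by rw [e1, d1]; exact v1.symm)
        (by rw [e2, d1]; exact v3.symm) (by rw [e1, d2]; exact v2.symm)
        (by rw [e2, d2]; exact v4.symm))
  apply drawing_of_int (gr n es) P
  · intro a b hab
    by_contra hne
    have hd : ∀ a b : Fin n, a.1 < b.1 → P a ≠ P b := by
      intro a b hlt h
      have hk := distOk_spec h3 a.1 b.1 (by omega) (by omega) hlt
      apply hk
      have h1 : pt (c a).x (c a).y = pt (c b).x (c b).y := h
      rw [c_of a (by omega), c_of b (by omega)] at h1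
      unfold pt at h1
      rw [Prod.mk.injEq] at h1
      exact ⟨by exact_mod_cast h1.1, by exact_mod_cast h1.2⟩
    rcases lt_trichotomy a.1 b.1 with h | h | h
    · exact hd a b h hab
    · exact hne (Fin.ext h)
    · exact hd b a h hab.symm
  · rintro a b w ⟨_, hab | hab⟩ hwa hwb
    · exact hoff a b w hab hwa hwb
    · rw [ori_swap]
      exact neg_ne_zero.mpr (hoff b a w hab hwb hwa)
  · rintro a b x y ⟨_, hab | hab⟩ ⟨_, hxy | hxy⟩ n1 n2 n3 n4
    · exact hsep a b x y hab hxy n1 n2 n3 n4
    · exact sepI_swap2 (hsep a b y x hab hxy n2 n1 n4 n3)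
    · exact sepI_swap1 (hsep b a x y hab hxy n3 n4 n1 n2)
    · exact sepI_swap1 (sepI_swap2 (hsep b a y x hab hxy n4 n3 n2 n1))

end Pool.Agent.TH455.Fast
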