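import Pool.Agent.TH455.Minor

set_option autoImplicit false

/-!
# Finding a `K₅` or `K₃,₃` minor
-/

namespace Pool.Agent.TH455

/-- adjacency requirement of `K₅` -/
def r5 : Fin 5 → Fin 5 → Prop := fun i j => i ≠ j

/-- adjacency requirement of `K₃,₃` -/
def r33 : Bool × Fin 3 → Bool × Fin 3 → Prop := fun i j => i.1 ≠ j.1

theorem disj3 {V : Type*} (X Y Z : Set V) (h1 : Disjoint X Y) (h2 : Disjoint X Z)
    (h3 : Disjoint Y Z) : ∀ i j : Fin 3, i ≠ j → Disjoint (![X, Y, Z] i) (![X, Y, Z] j) := by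
  intro i j hij
  fin_cases i <;> fin_cases j
  · exact absurd rfl hij
  · exact h1
  · exact h2
  · exact h1.symm
  · exact absurd rfl hij
  · exact h3
  · exact h2.symm
  · exact h3.symm
  · exact absurd rfl hij

theorem all3 {P : Fin 3 → Prop} (h0 : P 0) (h1 : P 1) (h2 : P 2) : ∀ i, P i := by
  intro i
  fin_cases i
  · exact h0
  · exact h1
  · exact h2

theorem mk33 {V : Type*} (G : SimpleGraph V) (W : Set V) (A B : Fin 3 → Set V)
    (hA : ∀ i, A i ⊆ W) (hB : ∀ i, B i ⊆ W) (cA : ∀ i, Conn G (A i)) (cB : ∀ i, Conn G (B i))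
    (dA : ∀ i j, i ≠ j → Disjoint (A i) (A j)) (dB : ∀ i j, i ≠ j → Disjoint (B i) (B j))
    (dAB : ∀ i j, Disjoint (A i) (B j)) (h : ∀ i j, ∃ a ∈ A i, ∃ b ∈ B j, G.Adj a b) :
    Minor r33 G W := by
  refine ⟨fun p => if p.1 = true then A p.2 else B p.2, ?_, ?_, ?_, ?_⟩
  · rintro ⟨b, i⟩
    cases b
    · exact hB i
    · exact hA i
  · rintro ⟨b, i⟩
    cases b
    · exact cB i
    · exact cA i
  · rintro ⟨b, i⟩ ⟨b', j⟩ hne
    cases b <;> cases b'
    · exact dB i j (fun h => hne (by rw [h]))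
    · exact (dAB j i).symm
    · exact dAB i j
    · exact dA i j (fun h => hne (by rw [h]))
  · rintro ⟨b, i⟩ ⟨b', j⟩ hne
    cases b <;> cases b'
    · exact absurd rfl hne
    · obtain ⟨a, ha, c, hc, hac⟩ := h j i
      exact ⟨c, hc, a, ha, hac.symm⟩
    · exact h i j
    · exact absurd rfl hne

theorem mk5 {V : Type*} (G : SimpleGraph V) (W : Set V) (u v : V) (Z : Fin 3 → Set V)
    (hu : u ∈ W) (hv : v ∈ W) (huv : G.Adj u v) (hZ : ∀ i, Z i ⊆ W) (cZ : ∀ i, Conn G (Z i))
    (dZ : ∀ i j, i ≠ j → Disjoint (Z i) (Z j)) (uZ : ∀ i, u ∉ Z i) (vZ : ∀ i, v ∉ Z i)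
    (au : ∀ i, ∃ a ∈ Z i, G.Adj u a) (av : ∀ i, ∃ a ∈ Z i, G.Adj v a)
    (aZ : ∀ i j, i ≠ j → ∃ a ∈ Z i, ∃ b ∈ Z j, G.Adj a b) : Minor r5 G W := by
  classical
  let e : Fin 5 ≃ Bool ⊕ Fin 3 := Fintype.equivOfCardEq (by simp)
  let f : Bool ⊕ Fin 3 → Set V := Sum.elim (fun b => if b = true then {u} else {v}) Z
  have hf : (∀ i, f i ⊆ W) ∧ (∀ i, Conn G (f i)) ∧ (∀ i j, i ≠ j → Disjoint (f i) (f j)) ∧
      (∀ i j, i ≠ j → ∃ a ∈ f i, ∃ b ∈ f j, G.Adj a b) := by
    refine ⟨?_, ?_, ?_, ?_⟩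
    · rintro (b | i)
      · cases b
        · intro x hx
          have : x = v := hx
          rw [this]; exact hv
        · intro x hx
          have : x = u := hx
          rw [this]; exact hu
      · exact hZ i
    · rintro (b | i)
      · cases b
        · exact conn_singleton G v
        · exact conn_singleton G u
      · exact cZ i
    · rintro (b | i) (b' | j) hne
      · cases b <;> cases b'
        · exact absurd rfl hne
        · refine Set.disjoint_left.mpr ?_
          intro x hx hx'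
          have h1 : x = v := hx
          have h2 : x = u := hx'
          exact huv.ne (h2.symm.trans h1)
        · refine Set.disjoint_left.mpr ?_
          intro x hx hx'
          have h1 : x = u := hx
          have h2 : x = v := hx'
          exact huv.ne (h1.symm.trans h2)
        · exact absurd rfl hne
      · cases b
        · refine Set.disjoint_left.mpr ?_
          intro x hx hx'
          have h1 : x = v := hx
          exact vZ j (h1 ▸ hx')
        · refine Set.disjoint_left.mpr ?_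
          intro x hx hx'
          have h1 : x = u := hx
          exact uZ j (h1 ▸ hx')
      · cases b'
        · refine Set.disjoint_right.mpr ?_
          intro x hx hx'
          have h1 : x = v := hx
          exact vZ i (h1 ▸ hx')
        · refine Set.disjoint_right.mpr ?_
          intro x hx hx'
          have h1 : x = u := hx
          exact uZ i (h1 ▸ hx')
      · exact dZ i j (fun h => hne (by rw [h]))
    · rintro (b | i) (b' | j) hne
      · cases b <;> cases b'
        · exact absurd rfl hne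
        · exact ⟨v, rfl, u, rfl, huv.symm⟩
        · exact ⟨u, rfl, v, rfl, huv⟩
        · exact absurd rfl hne
      · cases b
        · obtain ⟨a, ha, h⟩ := av j
          exact ⟨v, rfl, a, ha, h⟩
        · obtain ⟨a, ha, h⟩ := au j
          exact ⟨u, rfl, a, ha, h⟩
      · cases b'
        · obtain ⟨a, ha, h⟩ := av i
          exact ⟨a, ha, v, rfl, h.symm⟩
        · obtain ⟨a, ha, h⟩ := au i
          exact ⟨a, ha, u, rfl, h.symm⟩
      · exact aZ i j (fun h => hne (by rw [h]))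
  exact ⟨fun i => f (e i), fun i => hf.1 _, fun i => hf.2.1 _,
    fun i j hij => hf.2.2.1 _ _ (fun h => hij (e.injective h)),
    fun i j hij => hf.2.2.2 _ _ (fun h => hij (e.injective h))⟩

/-- cut condition: `G[W \ S]` is connected (or empty) -/
def Cut {V : Type*} (G : SimpleGraph V) (W S : Set V) : Prop :=
  ∀ D ⊆ W \ S, D.Nonempty → ((W \ S) \ D).Nonempty → ∃ a ∈ D, ∃ b ∈ (W \ S) \ D, G.Adj a b

/-- Three disjoint connected sets, each seeing both ends of `uv`, none of them separating. -/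
theorem find_three {V : Type*} (G : SimpleGraph V) (W : Set V) (u v : V)
    (hu : u ∈ W) (hv : v ∈ W) (huv : G.Adj u v) (Z : Fin 3 → Set V) (hZ : ∀ i, Z i ⊆ W)
    (cZ : ∀ i, Conn G (Z i)) (dZ : ∀ i j, i ≠ j → Disjoint (Z i) (Z j))
    (uZ : ∀ i, u ∉ Z i) (vZ : ∀ i, v ∉ Z i)
    (au : ∀ i, ∃ a ∈ Z i, G.Adj u a) (av : ∀ i, ∃ a ∈ Z i, G.Adj v a)
    (hcut : ∀ i, Cut G W ({u, v} ∪ Z i)) : Minor r5 G W ∨ Minor r33 G W := by
  classical
  let R : Set V := {x | x ∈ W ∧ x ≠ u ∧ x ≠ v ∧ ∀ i, x ∉ Z i}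
  let tch : V → Fin 3 → Prop := fun r i => ∃ a ∈ comp G R r, ∃ b ∈ Z i, G.Adj a b
  have hRW : ∀ x ∈ R, x ∈ W := fun x hx => hx.1
  -- propagation of touching
  have tprop : ∀ x y i, x ∈ R → y ∈ R → G.Adj x y → tch x i → tch y i := by
    rintro x y i hx hy hxy ⟨a, ha, b, hb, hab⟩
    exact ⟨a, comp_trans G R y x (comp_adj G R y (comp_self G R y) hx hxy.symm) ha, b, hb, hab⟩
  by_cases hall : ∃ r ∈ R, ∀ i, tch r i
  · -- K33
    right
    obtain ⟨r, hr, ht⟩ := hall
    have hC : comp G R r ⊆ R := comp_sub G R r hr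
    have d1 : Disjoint ({u} : Set V) {v} := by
      rw [Set.disjoint_singleton]; exact huv.ne
    have d2 : Disjoint ({u} : Set V) (comp G R r) := by
      rw [Set.disjoint_singleton_left]; exact fun h => (hC h).2.1 rfl
    have d3 : Disjoint ({v} : Set V) (comp G R r) := by
      rw [Set.disjoint_singleton_left]; exact fun h => (hC h).2.2.1 rfl
    refine mk33 G W ![{u}, {v}, comp G R r] Z ?_ hZ ?_ cZ (disj3 _ _ _ d1 d2 d3) dZ ?_ ?_
    · apply all3
      · intro x hx
        have : x = u := hx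
        rw [this]; exact hu
      · intro x hx
        have : x = v := hx
        rw [this]; exact hv
      · exact fun x hx => (hC hx).1
    · apply all3
      · exact conn_singleton G u
      · exact conn_singleton G v
      · exact comp_conn G R r
    · intro i j
      revert i
      apply all3
      · rw [Set.disjoint_left]
        intro x hx hx'
        have : x = u := hx
        exact uZ j (this ▸ hx')
      · rw [Set.disjoint_left]
        intro x hx hx'
        have : x = v := hx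
        exact vZ j (this ▸ hx')
      · rw [Set.disjoint_left]
        intro x hx hx'
        exact (hC hx).2.2.2 j hx'
    · intro i j
      revert i
      apply all3
      · obtain ⟨a, ha, h⟩ := au j
        exact ⟨u, rfl, a, ha, h⟩
      · obtain ⟨a, ha, h⟩ := av j
        exact ⟨v, rfl, a, ha, h⟩
      · exact ht j
  · -- K5
    left
    push Not at hall
    let Z' : Fin 3 → Set V := fun i => Z i ∪ {x | x ∈ R ∧ tch x i ∧ tch x (i + 1)}
    have hsub : ∀ i, Z i ⊆ Z' i := fun i => Set.subset_union_left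
    have hfin : ∀ i j k : Fin 3, i ≠ j → k = i ∨ k = i + 1 ∨ k = j ∨ k = j + 1 := by decide
    refine mk5 G W u v Z' hu hv huv ?_ ?_ ?_ ?_ ?_ ?_ ?_ ?_
    · intro i
      exact Set.union_subset (hZ i) (fun x hx => hx.1.1)
    · intro i
      refine ⟨(cZ i).1.mono (hsub i), ?_⟩
      intro D hD hD1 hD2
      by_contra hcon
      have hno : ∀ a b, a ∈ Z' i → b ∈ Z' i → G.Adj a b → (a ∈ D ↔ b ∈ D) := by
        intro a b ha hb hab
        constructor
        · intro h
          by_contra h'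
          exact hcon ⟨a, h, b, ⟨hb, h'⟩, hab⟩
        · intro h
          by_contra h'
          exact hcon ⟨b, h, a, ⟨ha, h'⟩, hab.symm⟩
      have hrep : ∀ x ∈ Z' i, ∃ b ∈ Z i, (x ∈ D ↔ b ∈ D) := by
        rintro x (hx | ⟨hxR, ⟨a, ha, b, hb, hab⟩, hx2⟩)
        · exact ⟨x, hx, Iff.rfl⟩
        · refine ⟨b, hb, ?_⟩
          have hx1 : tch x i := ⟨a, ha, b, hb, hab⟩
          -- everything in the component of x is in Z' i, with the same D-status
          have hcompAll : ∀ y, y ∈ comp G R x →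
              (y ∈ R ∧ tch y i ∧ tch y (i + 1)) ∧ (x ∈ D ↔ y ∈ D) := by
            intro y hy
            have hy' : Relation.ReflTransGen (fun a b => b ∈ R ∧ G.Adj a b) x y := hy
            induction hy' with
            | refl => exact ⟨⟨hxR, hx1, hx2⟩, Iff.rfl⟩
            | tail h1 h2 ih =>
              obtain ⟨⟨i1, i2, i3⟩, i4⟩ := ih h1
              have j : _ ∈ R ∧ tch _ i ∧ tch _ (i + 1) :=
                ⟨h2.1, tprop _ _ _ i1 h2.1 h2.2 i2, tprop _ _ _ i1 h2.1 h2.2 i3⟩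
              exact ⟨j, i4.trans (hno _ _ (Or.inr ⟨i1, i2, i3⟩) (Or.inr j) h2.2)⟩
          obtain ⟨j1, j2⟩ := hcompAll a ha
          exact j2.trans (hno a b (Or.inr j1) (Or.inl hb) hab)
      obtain ⟨d, hd⟩ := hD1
      obtain ⟨e, he, he'⟩ := hD2
      obtain ⟨b, hb, hbD⟩ := hrep d (hD hd)
      obtain ⟨c, hc, hcD⟩ := hrep e he
      obtain ⟨p, hp, q, hq, hpq⟩ := (cZ i).2 (D ∩ Z i) Set.inter_subset_right
        ⟨b, hbD.1 hd, hb⟩ ⟨c, hc, fun h => he' (hcD.2 h.1)⟩
      exact hcon ⟨p, hp.1, q, ⟨hsub i hq.1, fun h => hq.2 ⟨h, hq.1⟩⟩, hpq⟩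
    · intro i j hij
      rw [Set.disjoint_left]
      rintro x (hx | ⟨hxR, hx1, hx2⟩) (hy | ⟨hyR, hy1, hy2⟩)
      · exact Set.disjoint_left.mp (dZ i j hij) hx hy
      · exact hyR.2.2.2 i hx
      · exact hxR.2.2.2 j hy
      · obtain ⟨k, hk⟩ := hall x hxR
        apply hk
        rcases hfin i j k hij with rfl | rfl | rfl | rfl
        · exact hx1
        · exact hx2
        · exact hy1
        · exact hy2
    · rintro i (hx | hx)
      · exact uZ i hx
      · exact hx.1.2.1 rfl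
    · rintro i (hx | hx)
      · exact vZ i hx
      · exact hx.1.2.2.1 rfl
    · intro i
      obtain ⟨a, ha, h⟩ := au i
      exact ⟨a, hsub i ha, h⟩
    · intro i
      obtain ⟨a, ha, h⟩ := av i
      exact ⟨a, hsub i ha, h⟩
    · -- adjacency
      have hadj : ∀ i j k : Fin 3, j = i + 1 → i ≠ j → k ≠ i → k ≠ j →
          (∀ l, l = i ∨ l = j ∨ l = k) → ∃ a ∈ Z' i, ∃ b ∈ Z' j, G.Adj a b := by
        intro i j k hj hij hki hkj hl
        have hD : (Z i ∪ {x | x ∈ R ∧ tch x i}) ⊆ W \ ({u, v} ∪ Z k) := by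
          rintro x (hx | ⟨hxR, hx1⟩)
          · refine ⟨hZ i hx, ?_⟩
            rintro ((rfl | rfl) | h)
            · exact uZ i hx
            · exact vZ i hx
            · exact Set.disjoint_left.mp (dZ k i hki) h hx
          · refine ⟨hxR.1, ?_⟩
            rintro ((rfl | rfl) | h)
            · exact hxR.2.1 rfl
            · exact hxR.2.2.1 rfl
            · exact hxR.2.2.2 k h
        obtain ⟨z, hz⟩ := (cZ i).1
        obtain ⟨z', hz'⟩ := (cZ j).1
        obtain ⟨a, ha, b, hb, hab⟩ := hcut k _ hD ⟨z, Or.inl hz⟩ (by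
          refine ⟨z', ⟨hZ j hz', ?_⟩, ?_⟩
          · rintro ((rfl | rfl) | h)
            · exact uZ j hz'
            · exact vZ j hz'
            · exact Set.disjoint_left.mp (dZ k j hkj) h hz'
          · rintro (h | h)
            · exact Set.disjoint_left.mp (dZ i j hij) h hz'
            · exact h.1.2.2.2 j hz')
        obtain ⟨⟨hbW, hbuv⟩, hbD⟩ := hb
        have hbR : b ∈ Z j ∨ b ∈ R := by
          by_cases hbj : b ∈ Z j
          · exact Or.inl hbj
          · right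
            refine ⟨hbW, ?_, ?_, ?_⟩
            · rintro rfl; exact hbuv (Or.inl (Or.inl rfl))
            · rintro rfl; exact hbuv (Or.inl (Or.inr rfl))
            · intro l hbl
              rcases hl l with rfl | rfl | rfl
              · exact hbD (Or.inl hbl)
              · exact hbj hbl
              · exact hbuv (Or.inr hbl)
        rcases ha with ha | ⟨haR, hat⟩
        · rcases hbR with hb | hb
          · exact ⟨a, hsub i ha, b, hsub j hb, hab⟩
          · exact absurd (Or.inr ⟨hb, b, comp_self G R b, a, ha, hab.symm⟩) hbD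
        · rcases hbR with hb | hb
          · exact ⟨a, Or.inr ⟨haR, hat, by
              rw [← hj]; exact ⟨a, comp_self G R a, b, hb, hab⟩⟩, b, hsub j hb, hab⟩
          · exact absurd (Or.inr ⟨hb, tprop a b i haR hb hab hat⟩) hbD
      have hadj' : ∀ i j : Fin 3, j = i + 1 → ∃ a ∈ Z' i, ∃ b ∈ Z' j, G.Adj a b := by
        intro i j hj
        have q1 : ∀ i : Fin 3, i ≠ i + 1 := by decide
        have q2 : ∀ i : Fin 3, i + 2 ≠ i := by decide
        have q3 : ∀ i : Fin 3, i + 2 ≠ i + 1 := by decide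
        have q4 : ∀ i l : Fin 3, l = i ∨ l = i + 1 ∨ l = i + 2 := by decide
        subst hj
        exact hadj i (i + 1) (i + 2) rfl (q1 i) (q2 i) (q3 i) (q4 i)
      intro i j hij
      have q5 : ∀ i j : Fin 3, i ≠ j → j = i + 1 ∨ i = j + 1 := by decide
      have := q5 i j hij
      rcases this with h | h
      · exact hadj' i j h
      · obtain ⟨a, ha, b, hb, hab⟩ := hadj' j i h
        exact ⟨b, hb, a, ha, hab.symm⟩

/-- Two nonseparating induced 4-cycles `u v y₁ x` and `u v y₂ x`. -/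
theorem find_share {V : Type*} (G : SimpleGraph V) (W : Set V) (u v x y₁ y₂ w : V)
    (hu : u ∈ W) (hv : v ∈ W) (hx : x ∈ W) (hy₁ : y₁ ∈ W) (hy₂ : y₂ ∈ W) (hw : w ∈ W)
    (huv : G.Adj u v) (hux : G.Adj u x) (hvx : ¬ G.Adj v x) (hxv : x ≠ v)
    (h1 : G.Adj v y₁) (h1' : ¬ G.Adj u y₁) (h1x : G.Adj x y₁) (h1u : y₁ ≠ u)
    (h2 : G.Adj v y₂) (h2' : ¬ G.Adj u y₂) (h2x : G.Adj x y₂) (h2u : y₂ ≠ u) (hne : y₁ ≠ y₂)
    (huw : G.Adj u w) (hwv : w ≠ v) (hwx : w ≠ x)
    (hc1 : Cut G W {u, v, y₁, x}) (hc2 : Cut G W {u, v, y₂, x}) : Minor r33 G W := by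
  classical
  let R : Set V := {z | z ∈ W ∧ z ≠ u ∧ z ≠ v ∧ z ≠ x ∧ z ≠ y₁ ∧ z ≠ y₂}
  have hwR : w ∈ R := by
    refine ⟨hw, huw.ne.symm, hwv, hwx, ?_, ?_⟩
    · rintro rfl; exact h1' huw
    · rintro rfl; exact h2' huw
  have hC : comp G R w ⊆ R := comp_sub G R w hwR
  -- the component sees y₁ and y₂
  have see : ∀ p q : V, p ≠ q → (∀ z, z ∈ R → z ≠ p) → p ∈ W → p ≠ u → p ≠ v → p ≠ x →
      (∀ z, z ∈ R → z ≠ q) →
      (∀ z, z ∈ W → z ≠ u → z ≠ v → z ≠ x → z ≠ q → z = p ∨ z ∈ R) →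
      Cut G W {u, v, q, x} → ∃ a ∈ comp G R w, G.Adj a p := by
    intro p q hpq hRp hpW hpu hpv hpx hRq hRall hcut
    obtain ⟨a, ha, b, ⟨⟨hbW, hbS⟩, hbC⟩, hab⟩ := hcut (comp G R w)
      (by
        intro z hz
        have hzR := hC hz
        refine ⟨hzR.1, ?_⟩
        rintro (rfl | rfl | rfl | rfl)
        · exact hzR.2.1 rfl
        · exact hzR.2.2.1 rfl
        · exact hRq _ hzR rfl
        · exact hzR.2.2.2.1 rfl)
      ⟨w, comp_self G R w⟩
      (by
        refine ⟨p, ⟨hpW, ?_⟩, fun h => hRp p (hC h) rfl⟩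
        rintro (h | h | h | h)
        · exact hpu h
        · exact hpv h
        · exact hpq h
        · exact hpx h)
    have hb : b = p ∨ b ∈ R := by
      apply hRall b hbW
      · rintro rfl; exact hbS (Or.inl rfl)
      · rintro rfl; exact hbS (Or.inr (Or.inl rfl))
      · rintro rfl; exact hbS (Or.inr (Or.inr (Or.inr rfl)))
      · rintro rfl; exact hbS (Or.inr (Or.inr (Or.inl rfl)))
    rcases hb with rfl | hb
    · exact ⟨a, ha, hab⟩
    · exact absurd (comp_adj G R w ha hb hab) hbC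
  have s1 : ∃ a ∈ comp G R w, G.Adj a y₁ := by
    apply see y₁ y₂ hne (fun z hz => hz.2.2.2.2.1) hy₁ h1u h1.ne.symm h1x.ne.symm
      (fun z hz => hz.2.2.2.2.2) _ hc2
    intro z hz a1 a2 a3 a4
    by_cases h : z = y₁
    · exact Or.inl h
    · exact Or.inr ⟨hz, a1, a2, a3, h, a4⟩
  have s2 : ∃ a ∈ comp G R w, G.Adj a y₂ := by
    apply see y₂ y₁ hne.symm (fun z hz => hz.2.2.2.2.2) hy₂ h2u h2.ne.symm h2x.ne.symm
      (fun z hz => hz.2.2.2.2.1) _ hc1
    intro z hz a1 a2 a3 a4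
    by_cases h : z = y₂
    · exact Or.inl h
    · exact Or.inr ⟨hz, a1, a2, a3, a4, h⟩
  have ds : ∀ p q : V, p ≠ q → Disjoint ({p} : Set V) {q} := by
    intro p q h; rw [Set.disjoint_singleton]; exact h
  have dR : ∀ p : V, p ∉ R → Disjoint ({p} : Set V) (comp G R w) := by
    intro p h; rw [Set.disjoint_singleton_left]; exact fun h' => h (hC h')
  have hs : ∀ p : V, p ∈ W → ({p} : Set V) ⊆ W := by
    intro p hp z hz
    have : z = p := hz
    rw [this]; exact hp
  refine mk33 G W ![{x}, {v}, comp G R w] ![{u}, {y₁}, {y₂}] ?_ ?_ ?_ ?_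
    (disj3 _ _ _ (ds _ _ hxv) (dR x (fun h => h.2.2.2.1 rfl)) (dR v (fun h => h.2.2.1 rfl)))
    (disj3 _ _ _ (ds _ _ h1u.symm) (ds _ _ h2u.symm) (ds _ _ hne)) ?_ ?_
  · exact all3 (hs x hx) (hs v hv) (fun z hz => (hC hz).1)
  · exact all3 (hs u hu) (hs _ hy₁) (hs _ hy₂)
  · exact all3 (conn_singleton G _) (conn_singleton G _) (comp_conn G R w)
  · exact all3 (conn_singleton G _) (conn_singleton G _) (conn_singleton G _)
  · apply all3
    · exact all3 (ds _ _ hux.ne.symm) (ds _ _ h1x.ne) (ds _ _ h2x.ne)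
    · exact all3 (ds _ _ huv.ne.symm) (ds _ _ h1.ne) (ds _ _ h2.ne)
    · exact all3 (dR u (fun h => h.2.1 rfl)).symm (dR y₁ (fun h => h.2.2.2.2.1 rfl)).symm
        (dR y₂ (fun h => h.2.2.2.2.2 rfl)).symm
  · apply all3
    · exact all3 ⟨x, rfl, u, rfl, hux.symm⟩ ⟨x, rfl, y₁, rfl, h1x⟩ ⟨x, rfl, y₂, rfl, h2x⟩
    · exact all3 ⟨v, rfl, u, rfl, huv.symm⟩ ⟨v, rfl, y₁, rfl, h1⟩ ⟨v, rfl, y₂, rfl, h2⟩
    · refine all3 ⟨w, comp_self G R w, u, rfl, huw.symm⟩ ?_ ?_
      · obtain ⟨a, ha, h⟩ := s1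
        exact ⟨a, ha, y₁, rfl, h⟩
      · obtain ⟨a, ha, h⟩ := s2
        exact ⟨a, ha, y₂, rfl, h⟩

end Pool.Agent.TH455
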