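import Pool.Agent.TH455.PlanarSparse
import Pool.Agent.TH455.Defs

set_option autoImplicit false

/-!
# Upper bounds in terms of the packing numbers
-/

namespace Pool.Agent.TH455

open Finset

theorem listPackable_of_sparse {V : Type} [Finite V] (G : SimpleGraph V) (hsp : Sparse (gi G)) :
    ListPackable G 4 := by
  intro L hL
  obtain ⟨c, h1, h2, h3, _⟩ := pack_list G hsp L hL
  exact ⟨c, h1, h2, h3⟩

theorem listPackingNumber_le {V : Type} {G : SimpleGraph V} {k : ℕ} (hk : 1 ≤ k)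
    (h : ListPackable G k) : listPackingNumber G ≤ k := Nat.sInf_le ⟨hk, h⟩

theorem corr_of_sparse {V : Type} [Finite V] (G : SimpleGraph V) (hsp : Sparse (gi G))
    (C : Cover G 4) : C.HasPacking := by
  classical
  have e : ∀ v, Fin 4 ≃ {x // C.p x = v} := fun v =>
    ((Nat.equivFinOfCardPos (by rw [C.card_fiber v]; norm_num)).trans
      (finCongr (C.card_fiber v))).symm
  have hpe : ∀ v i, C.p (e v i).1 = v := fun v i => (e v i).2
  obtain ⟨π, h1, h2⟩ := pack_sparse G hsp (fun u v i j => C.H.Adj (e u i).1 (e v j).1)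
    (fun u v i j h => h.symm)
    (by
      intro u v huv i j j' h h'
      obtain ⟨y, _, hy⟩ := C.matching (e u i).1 v (by rw [hpe]; exact huv)
      have a := hy _ ⟨hpe v j, h⟩
      have b := hy _ ⟨hpe v j', h'⟩
      exact (e v).injective (Subtype.ext (a.trans b.symm)))
  refine ⟨fun t => {x | ∃ v, x = (e v (π v t)).1}, ?_, ?_⟩
  · intro t
    refine ⟨?_, ?_⟩
    · rintro x ⟨u, rfl⟩ y ⟨v, rfl⟩ hadj
      rcases C.only _ _ hadj with h | h
      · rw [hpe, hpe] at h
        subst h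
        exact C.H.loopless.irrefl _ hadj
      · rw [hpe, hpe] at h
        exact h2 u v h t hadj
    · intro v
      refine ⟨(e v (π v t)).1, ⟨hpe _ _, v, rfl⟩, ?_⟩
      rintro y ⟨hy, u, rfl⟩
      rw [hpe] at hy
      subst hy
      rfl
  · intro s t hst
    rw [Set.disjoint_left]
    rintro x ⟨u, rfl⟩ ⟨v, hv⟩
    have huv : u = v := by
      have := congrArg C.p hv
      rw [hpe, hpe] at this
      exact this
    subst huv
    exact hst (h1 u ((e u).injective (Subtype.ext hv)))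

theorem corrPackingNumber_le {V : Type} {G : SimpleGraph V} {k : ℕ} (hk : 1 ≤ k)
    (h : ∀ C : Cover G k, C.HasPacking) : corrPackingNumber G ≤ k := Nat.sInf_le ⟨hk, h⟩

/-- a lower bound for an infimum of natural numbers -/
theorem sInf_eq_four {S : Set ℕ} (h4 : 4 ∈ S) (h0 : 0 ∉ S) (h1 : 1 ∉ S) (h2 : 2 ∉ S)
    (h3 : 3 ∉ S) : sInf S = 4 := by
  apply le_antisymm (Nat.sInf_le h4)
  have hmem := Nat.sInf_mem (⟨4, h4⟩ : S.Nonempty)
  by_contra hcon
  push Not at hcon
  generalize sInf S = m at *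
  interval_cases m
  · exact h0 hmem
  · exact h1 hmem
  · exact h2 hmem
  · exact h3 hmem

/-- the permutation cover of `G` on `V × Fin k` given by permutations along oriented edges -/
def permCover {V : Type} (G : SimpleGraph V) (k : ℕ) (σ : V → V → Equiv.Perm (Fin k))
    (hσ : ∀ u v, G.Adj u v → σ v u = (σ u v)⁻¹) : Cover G k where
  X := V × Fin k
  H :=
    { Adj := fun x y => (x.1 = y.1 ∧ x.2 ≠ y.2) ∨ (G.Adj x.1 y.1 ∧ y.2 = σ x.1 y.1 x.2)
      symm := ⟨by
        rintro x y (⟨h1, h2⟩ | ⟨h1, h2⟩)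
        · exact Or.inl ⟨h1.symm, h2.symm⟩
        · right
          refine ⟨h1.symm, ?_⟩
          rw [hσ _ _ h1, h2]
          simp⟩
      loopless := ⟨by
        rintro x (⟨_, h2⟩ | ⟨h1, _⟩)
        · exact h2 rfl
        · exact G.loopless.irrefl _ h1⟩ }
  p := Prod.fst
  card_fiber := by
    intro v
    have e : {x : V × Fin k // x.1 = v} ≃ Fin k :=
      { toFun := fun x => x.1.2
        invFun := fun i => ⟨(v, i), rfl⟩
        left_inv := by
          rintro ⟨⟨a, i⟩, h⟩
          simp only at h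
          subst h
          rfl
        right_inv := fun i => rfl }
    rw [Nat.card_congr e, Nat.card_eq_fintype_card, Fintype.card_fin]
  clique := by
    rintro x y h1 h2
    left
    refine ⟨h1, fun h => h2 (Prod.ext h1 h)⟩
  matching := by
    rintro ⟨u, i⟩ v huv
    refine ⟨(v, σ u v i), ⟨rfl, Or.inr ⟨huv, rfl⟩⟩, ?_⟩
    rintro ⟨w, j⟩ ⟨rfl, h⟩
    rcases h with ⟨h1, _⟩ | ⟨_, h2⟩
    · exact absurd h1 huv.ne
    · exact Prod.ext rfl h2
  only := by
    rintro x y (⟨h1, _⟩ | ⟨h1, _⟩)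
    · exact Or.inl h1
    · exact Or.inr h1

/-- a packing of a permutation cover as a family of functions -/
theorem permCover_packing {V : Type} {G : SimpleGraph V} {k : ℕ} {σ : V → V → Equiv.Perm (Fin k)}
    {hσ : ∀ u v, G.Adj u v → σ v u = (σ u v)⁻¹} (h : (permCover G k σ hσ).HasPacking) :
    ∃ φ : Fin k → V → Fin k, (∀ t u v, G.Adj u v → φ t v ≠ σ u v (φ t u)) ∧
      ∀ v s t, s ≠ t → φ s v ≠ φ t v := by
  obtain ⟨I, h1, h2⟩ := h
  have hc : ∀ t v, ∃ i : Fin k, ((v, i) : V × Fin k) ∈ I t := by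
    intro t v
    obtain ⟨⟨u, i⟩, ⟨hu, hi⟩, _⟩ := (h1 t).2 v
    have hu' : u = v := hu
    subst hu'
    exact ⟨i, hi⟩
  choose φ hφ using hc
  refine ⟨φ, ?_, ?_⟩
  · intro t u v huv h
    exact (h1 t).1 _ (hφ t u) _ (hφ t v) (Or.inr ⟨huv, h⟩)
  · intro v s t hst h
    have := hφ s v
    rw [h] at this
    exact Set.disjoint_left.mp (h2 s t hst) this (hφ t v)

end Pool.Agent.TH455
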