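import Pool.Agent.TH455.MDefs
import Pool.Agent.TH455.Upper

set_option autoImplicit false

/-!
# `K₅` minus an edge has a 4-fold cover without a packing
-/

namespace Pool.Agent.TH455.K5m

/-- the matching (a permutation) from the colours at `u` to the colours at `v` -/
def sg (u v : Fin 5) (i : Fin 4) : Fin 4 :=
  (![
    ![![0, 1, 2, 3], ![0, 1, 3, 2], ![2, 1, 0, 3], ![1, 2, 3, 0], ![0, 3, 1, 2]],
    ![![0, 1, 3, 2], ![0, 1, 2, 3], ![2, 1, 3, 0], ![2, 0, 1, 3], ![2, 0, 3, 1]],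
    ![![2, 1, 0, 3], ![3, 1, 0, 2], ![0, 1, 2, 3], ![3, 1, 0, 2], ![1, 2, 3, 0]],
    ![![3, 0, 1, 2], ![1, 2, 0, 3], ![2, 1, 3, 0], ![0, 1, 2, 3], ![0, 1, 2, 3]],
    ![![0, 2, 3, 1], ![1, 3, 0, 2], ![3, 0, 1, 2], ![0, 1, 2, 3], ![0, 1, 2, 3]]] : Fin 5 → Fin 5 → Fin 4 → Fin 4) u v i

/-- the 24 permutations of four letters -/
def pm (s : Fin 24) (t : Fin 4) : Fin 4 :=
  (![![0, 1, 2, 3],
    ![0, 1, 3, 2],
    ![0, 2, 1, 3],
    ![0, 2, 3, 1],
    ![0, 3, 1, 2],
    ![0, 3, 2, 1],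
    ![1, 0, 2, 3],
    ![1, 0, 3, 2],
    ![1, 2, 0, 3],
    ![1, 2, 3, 0],
    ![1, 3, 0, 2],
    ![1, 3, 2, 0],
    ![2, 0, 1, 3],
    ![2, 0, 3, 1],
    ![2, 1, 0, 3],
    ![2, 1, 3, 0],
    ![2, 3, 0, 1],
    ![2, 3, 1, 0],
    ![3, 0, 1, 2],
    ![3, 0, 2, 1],
    ![3, 1, 0, 2],
    ![3, 1, 2, 0],
    ![3, 2, 0, 1],
    ![3, 2, 1, 0]] : Fin 24 → Fin 4 → Fin 4) s t

def l24 : List (Fin 24) := [0, 1, 2, 3, 4, 5, 6, 7, 8, 9, 10, 11, 12, 13, 14, 15, 16, 17, 18, 19, 20, 21, 22, 23]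

def adjB (a b : Fin 5) : Bool := (!(a.1 == b.1)) && !((a.1 == 3 && b.1 == 4) || (a.1 == 4 && b.1 == 3))

/-- `K₅` minus the edge `34`. -/
def G : SimpleGraph (Fin 5) where
  Adj a b := adjB a b = true
  symm := ⟨by
    have h : ∀ a b : Fin 5, adjB a b = true → adjB b a = true := by decide
    exact h⟩
  loopless := ⟨by
    have h : ∀ a : Fin 5, ¬ adjB a a = true := by decide
    exact h⟩

instance : DecidableRel G.Adj := fun a b => inferInstanceAs (Decidable (adjB a b = true))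

def cover : MCover G 4 where
  M u v i j := sg u v i = j
  symm := by
    have h : ∀ u v : Fin 5, ∀ i j : Fin 4, sg u v i = j → sg v u j = i := by decide +kernel
    exact h
  matching := by
    intro u v _ i j j' h h'
    exact h.symm.trans h'

def ok (u v : Fin 5) (s t : Fin 24) : Bool :=
  ((!(sg u v (pm s 0) == pm t 0) && !(sg u v (pm s 1) == pm t 1)) &&
    !(sg u v (pm s 2) == pm t 2)) && !(sg u v (pm s 3) == pm t 3)

def ext3 (s1 s2 : Fin 24) : Bool :=
  l24.any fun s3 => (ok 0 3 0 s3 && ok 1 3 s1 s3) && ok 2 3 s2 s3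

def ext4 (s1 s2 : Fin 24) : Bool :=
  l24.any fun s4 => (ok 0 4 0 s4 && ok 1 4 s1 s4) && ok 2 4 s2 s4

def chk : Bool :=
  l24.all fun s1 => !(ok 0 1 0 s1) || (l24.all fun s2 =>
    !(ok 0 2 0 s2 && ok 1 2 s1 s2) || !(ext3 s1 s2 && ext4 s1 s2))

theorem chk_true : chk = true := by decide +kernel

theorem mem_l24 (s : Fin 24) : s ∈ l24 := by
  revert s
  decide

theorem srch (st : Fin 5 → Fin 24) (h0 : st 0 = 0)
    (h : ∀ u v : Fin 5, adjB u v = true → ok u v (st u) (st v) = true) : False := by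
  have H := chk_true
  unfold chk at H
  rw [List.all_eq_true] at H
  have H1 := H (st 1) (mem_l24 _)
  have o01 := h 0 1 (by decide)
  have o02 := h 0 2 (by decide)
  have o03 := h 0 3 (by decide)
  have o04 := h 0 4 (by decide)
  have o12 := h 1 2 (by decide)
  have o13 := h 1 3 (by decide)
  have o14 := h 1 4 (by decide)
  have o23 := h 2 3 (by decide)
  have o24 := h 2 4 (by decide)
  rw [h0] at o01 o02 o03 o04
  rw [o01] at H1
  simp only [Bool.not_true, Bool.false_or, List.all_eq_true] at H1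
  have H2 := H1 (st 2) (mem_l24 _)
  rw [o02, o12] at H2
  have e3 : ext3 (st 1) (st 2) = true := by
    unfold ext3
    rw [List.any_eq_true]
    exact ⟨st 3, mem_l24 _, by rw [o03, o13, o23]; rfl⟩
  have e4 : ext4 (st 1) (st 2) = true := by
    unfold ext4
    rw [List.any_eq_true]
    exact ⟨st 4, mem_l24 _, by rw [o04, o14, o24]; rfl⟩
  rw [e3, e4] at H2
  exact absurd H2 (by decide)

theorem exists_state (g : Fin 4 → Fin 4) (hg : Function.Injective g) :
    ∃ s : Fin 24, ∀ i, g i = pm s i := by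
  have key : ∀ a b c d : Fin 4, a ≠ b → a ≠ c → a ≠ d → b ≠ c → b ≠ d → c ≠ d →
      ∃ s : Fin 24, pm s 0 = a ∧ pm s 1 = b ∧ pm s 2 = c ∧ pm s 3 = d := by decide +kernel
  have hne : ∀ i j : Fin 4, i ≠ j → g i ≠ g j := fun i j hij h => hij (hg h)
  obtain ⟨s, h0, h1, h2, h3⟩ := key (g 0) (g 1) (g 2) (g 3) (hne 0 1 (by decide))
    (hne 0 2 (by decide)) (hne 0 3 (by decide)) (hne 1 2 (by decide)) (hne 1 3 (by decide))
    (hne 2 3 (by decide))
  refine ⟨s, ?_⟩
  intro i
  fin_cases i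
  · exact h0.symm
  · exact h1.symm
  · exact h2.symm
  · exact h3.symm

theorem no4 : ¬ CorrPackable G 4 := by
  intro h
  obtain ⟨φ, h1, h2⟩ := h cover
  have hinj : Function.Injective (fun t => φ t 0) := by
    intro s t hst
    by_contra hne
    exact h2 0 s t hne hst
  obtain ⟨g, hg1, hg2⟩ := Function.bijective_iff_has_inverse.mp
    (Finite.injective_iff_bijective.mp hinj)
  have hginj : Function.Injective g := hg2.injective
  have hst : ∀ v, ∃ s : Fin 24, ∀ i, φ (g i) v = pm s i := by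
    intro v
    apply exists_state (fun i => φ (g i) v)
    intro i j hij
    by_contra hne
    exact h2 v (g i) (g j) (fun h => hne (hginj h)) hij
  choose st hst using hst
  have h0 : st 0 = 0 := by
    have key : ∀ s : Fin 24, (∀ i, i = pm s i) → s = 0 := by decide +kernel
    apply key
    intro i
    rw [← hst 0 i]
    exact (hg2 i).symm
  apply srch st h0
  intro u v huv
  have hne : ∀ i, sg u v (pm (st u) i) ≠ pm (st v) i := by
    intro i h
    rw [← hst u i, ← hst v i] at h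
    exact h1 (g i) u v huv h
  have nb : ∀ a b : Fin 4, a ≠ b → (!(a == b)) = true := by decide
  unfold ok
  rw [nb _ _ (hne 0), nb _ _ (hne 1), nb _ _ (hne 2), nb _ _ (hne 3)]
  rfl

/-- Fewer than four colours are not enough since `G` contains `K₄`. -/
theorem no_small (k : ℕ) (h1 : 1 ≤ k) (hk : k < 4) : ¬ CorrPackable G k := by
  intro h
  obtain ⟨φ, hφ, _⟩ := h
    { M := fun _ _ i j => i = j
      symm := fun _ _ _ _ h => h.symm
      matching := fun _ _ _ _ _ _ h h' => h.symm.trans h' }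
  have t : Fin k := ⟨0, h1⟩
  have key : ∀ i j : Fin 4, i ≠ j → G.Adj (i.castSucc) (j.castSucc) := by decide
  have hinj : Function.Injective (fun i : Fin 4 => φ t i.castSucc) := by
    intro i j hij
    by_contra hne
    exact hφ t _ _ (key i j hne) hij
  have := Fintype.card_le_of_injective _ hinj
  simp only [Fintype.card_fin] at this
  omega

end Pool.Agent.TH455.K5m
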