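import Pool.Agent.TH455.Defs

set_option autoImplicit false

/-!
# Correspondence packing with (not necessarily perfect) matchings: definitions
-/

namespace Pool.Agent.TH455

/-- A `k`-fold cover with matchings: for every edge `uv` a matching `M u v` between the colours
`Fin k` at `u` and the colours `Fin k` at `v`. -/
structure MCover {V : Type} (G : SimpleGraph V) (k : ℕ) where
  M : V → V → Fin k → Fin k → Prop
  symm : ∀ u v i j, M u v i j → M v u j i
  matching : ∀ u v, G.Adj u v → ∀ i j j', M u v i j → M u v i j' → j = j'

/-- A packing: `k` colourings avoiding all matched pairs on edges, pairwise different at every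
vertex. -/
def MCover.HasPacking {V : Type} {G : SimpleGraph V} {k : ℕ} (C : MCover G k) : Prop :=
  ∃ φ : Fin k → V → Fin k, (∀ t u v, G.Adj u v → ¬ C.M u v (φ t u) (φ t v)) ∧
    ∀ v s t, s ≠ t → φ s v ≠ φ t v

/-- Every `k`-fold cover of `G` has a packing. -/
def CorrPackable {V : Type} (G : SimpleGraph V) (k : ℕ) : Prop :=
  ∀ C : MCover G k, C.HasPacking

/-- The correspondence packing number: the least `k ≥ 1` such that every `k`-fold cover of `G`
has a packing. -/
noncomputable def mCorrPackingNumber {V : Type} (G : SimpleGraph V) : ℕ :=
  sInf {k | 1 ≤ k ∧ CorrPackable G k}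

/-- A cover coming from lists: if all `k`-fold covers have packings then so have all
`k`-list-assignments. -/
theorem listPackable_of_corrPackable {V : Type} {G : SimpleGraph V} {k : ℕ}
    (h : CorrPackable G k) : ListPackable G k := by
  intro L hL
  let e : ∀ v, Fin k ≃ L v := fun v => ((L v).equivFinOfCardEq (hL v)).symm
  let C : MCover G k :=
    { M := fun u v i j => (e u i : ℕ) = (e v j : ℕ)
      symm := fun u v i j h => h.symm
      matching := fun u v _ i j j' h h' =>
        (e v).injective (Subtype.ext (h.symm.trans h')) }
  obtain ⟨φ, h1, h2⟩ := h C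
  refine ⟨fun t v => (e v (φ t v) : ℕ), fun t v => (e v (φ t v)).2, ?_, ?_⟩
  · intro t u v huv hh
    exact h1 t u v huv hh
  · intro v s t hst hh
    exact h2 v s t hst ((e v).injective (Subtype.ext hh))

end Pool.Agent.TH455
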