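import Pool.Agent.TH455.K5m

set_option autoImplicit false

/-!
# Correspondence packing under a bound on the maximum average degree
-/

namespace Pool.Agent.TH455

open Finset

/-- `mad(G) < a`: every subgraph with at least one vertex has average degree less than `a`. -/
def MadLT {V : Type} (G : SimpleGraph V) (a : ℝ) : Prop :=
  ∀ H : G.Subgraph, H.verts.Nonempty → 2 * (H.edgeSet.ncard : ℝ) < a * (H.verts.ncard : ℝ)

theorem mcorr_of_sparse {V : Type} [Finite V] (G : SimpleGraph V) (hsp : Sparse (gi G)) :
    CorrPackable G 4 := by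
  intro C
  obtain ⟨π, h1, h2⟩ := pack_sparse G hsp C.M C.symm C.matching
  exact ⟨fun t v => π v t, fun t u v huv => h2 u v huv t,
    fun v s t hst h => hst (h1 v h)⟩

theorem induce_edges {V : Type} [Fintype V] (G : SimpleGraph V) (W : Finset V) :
    ((⊤ : G.Subgraph).induce (W : Set V)).edgeSet = (eIn G W : Set (Sym2 V)) := by
  classical
  ext e
  induction e using Sym2.ind with
  | _ a b =>
    simp [eIn, Finset.mk_mem_sym2_iff, and_assoc]

theorem sparse_of_mad {V : Type} [Fintype V] (G : SimpleGraph V) (h : MadLT G (18 / 5)) :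
    Sparse (gi G) := by
  classical
  intro W hW
  have h1 := h ((⊤ : G.Subgraph).induce (W : Set V)) hW.to_set
  rw [induce_edges, Set.ncard_coe_finset] at h1
  have h2 : ((⊤ : G.Subgraph).induce (W : Set V)).verts = (W : Set V) := rfl
  rw [h2, Set.ncard_coe_finset] at h1
  have h3 := I2_eq_edges G W
  have h4 := I2_card G W
  have h5 : 10 * (eIn G W).card < 18 * W.card := by
    have : (10 : ℝ) * (eIn G W).card < 18 * W.card := by linarith
    exact_mod_cast this
  by_cases hc : W.card ≤ 4
  · have hpos := card_pos.mpr hW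
    generalize W.card = n at *
    interval_cases n <;> omega
  · omega

theorem mad_of_count {V : Type} [Fintype V] (G : SimpleGraph V)
    (hc : ∀ W : Finset V, 5 * I2 (gi G) W ≤ 18 * W.card) (a : ℝ) (ha : 18 / 5 < a) :
    MadLT G a := by
  classical
  intro H hH
  let W : Finset V := H.verts.toFinset
  have hW : (W : Set V) = H.verts := by simp [W]
  have h1 : H.edgeSet ⊆ (eIn G W : Set (Sym2 V)) := by
    intro e he
    induction e using Sym2.ind with
    | _ x y =>
      have hxy : H.Adj x y := he
      have hx : x ∈ W := by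
        rw [← mem_coe, hW]; exact hxy.fst_mem
      have hy : y ∈ W := by
        rw [← mem_coe, hW]; exact hxy.snd_mem
      rw [mem_coe]
      simp only [eIn, mem_filter, Finset.mk_mem_sym2_iff, SimpleGraph.mem_edgeSet]
      exact ⟨⟨hx, hy⟩, hxy.adj_sub⟩
  have h2 : H.edgeSet.ncard ≤ (eIn G W).card := by
    rw [← Set.ncard_coe_finset]
    exact Set.ncard_le_ncard h1 (Finset.finite_toSet _)
  have h3 := I2_eq_edges G W
  have h4 := hc W
  have h5 : H.verts.ncard = W.card := by rw [← hW, Set.ncard_coe_finset]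
  rw [h5]
  have h6 : 10 * H.edgeSet.ncard ≤ 18 * W.card := by omega
  have h7 : (10 : ℝ) * H.edgeSet.ncard ≤ 18 * W.card := by exact_mod_cast h6
  have h8 : 0 < W.card := by
    rw [card_pos]
    obtain ⟨x, hx⟩ := hH
    exact ⟨x, by rw [← mem_coe, hW]; exact hx⟩
  have h9 : (0 : ℝ) < W.card := by exact_mod_cast h8
  nlinarith

theorem K5m_count : ∀ W : Finset (Fin 5), 5 * I2 (gi K5m.G) W ≤ 18 * W.card := by
  have h : ∀ W : Finset (Fin 5),
      5 * (∑ a ∈ W, ∑ b ∈ W, if K5m.G.Adj a b then 1 else 0) ≤ 18 * W.card := by decide +kernel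
  intro W
  have e : I2 (gi K5m.G) W = ∑ a ∈ W, ∑ b ∈ W, if K5m.G.Adj a b then 1 else 0 := by
    unfold I2 gi
    apply sum_congr rfl
    intro a _
    apply sum_congr rfl
    intro b _
    exact ind_ite _
  rw [e]
  exact h W

end Pool.Agent.TH455
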