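import Pool.Agent.TH455.Reduce

set_option autoImplicit false

/-!
# Minors via cut-connected branch sets
-/

namespace Pool.Agent.TH455

open Finset

/-- cut-connected set of vertices -/
def Conn {V : Type*} (G : SimpleGraph V) (S : Set V) : Prop :=
  S.Nonempty ∧ ∀ D ⊆ S, D.Nonempty → (S \ D).Nonempty → ∃ a ∈ D, ∃ b ∈ S \ D, G.Adj a b

/-- `W` contains a minor with index set `ι` and adjacency requirement `r`. -/
def Minor {V ι : Type*} (r : ι → ι → Prop) (G : SimpleGraph V) (W : Set V) : Prop :=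
  ∃ f : ι → Set V, (∀ i, f i ⊆ W) ∧ (∀ i, Conn G (f i)) ∧
    (∀ i j, i ≠ j → Disjoint (f i) (f j)) ∧ (∀ i j, r i j → ∃ a ∈ f i, ∃ b ∈ f j, G.Adj a b)

theorem conn_mono {V : Type*} {G G' : SimpleGraph V} (h : ∀ a b, G.Adj a b → G'.Adj a b)
    {S : Set V} (hS : Conn G S) : Conn G' S := by
  refine ⟨hS.1, ?_⟩
  intro D hD h1 h2
  obtain ⟨a, ha, b, hb, hab⟩ := hS.2 D hD h1 h2
  exact ⟨a, ha, b, hb, h a b hab⟩

theorem minor_mono {V ι : Type*} {r : ι → ι → Prop} {G G' : SimpleGraph V}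
    (h : ∀ a b, G.Adj a b → G'.Adj a b) {W W' : Set V} (hW : W ⊆ W')
    (hM : Minor r G W) : Minor r G' W' := by
  obtain ⟨f, h1, h2, h3, h4⟩ := hM
  refine ⟨f, fun i => (h1 i).trans hW, fun i => conn_mono h (h2 i), h3, ?_⟩
  intro i j hij
  obtain ⟨a, ha, b, hb, hab⟩ := h4 i j hij
  exact ⟨a, ha, b, hb, h a b hab⟩

theorem conn_singleton {V : Type*} (G : SimpleGraph V) (x : V) : Conn G {x} := by
  refine ⟨⟨x, rfl⟩, ?_⟩
  rintro D hD ⟨d, hd⟩ ⟨e, he, he'⟩
  have h1 : d = x := hD hd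
  have h2 : e = x := he
  subst h1; subst h2
  exact absurd hd he'

theorem conn_pair {V : Type*} (G : SimpleGraph V) (x y : V) (h : G.Adj x y) :
    Conn G {x, y} := by
  refine ⟨⟨x, by simp⟩, ?_⟩
  rintro D hD ⟨d, hd⟩ ⟨e, he, he'⟩
  have h1 : d = x ∨ d = y := hD hd
  have h2 : e = x ∨ e = y := he
  rcases h1 with rfl | rfl
  · rcases h2 with rfl | rfl
    · exact absurd hd he'
    · exact ⟨_, hd, _, ⟨he, he'⟩, h⟩
  · rcases h2 with rfl | rfl
    · exact ⟨_, hd, _, ⟨he, he'⟩, h.symm⟩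
    · exact absurd hd he'

/-- Lifting a minor through a contraction. -/
theorem minor_contr {V ι : Type*} {r : ι → ι → Prop} (G : SimpleGraph V) (u v : V) (W : Set V)
    (hv : v ∈ W) (huv : G.Adj u v)
    (hM : Minor r (contr G u v) (W \ {v})) : Minor r G W := by
  classical
  obtain ⟨f, h1, h2, h3, h4⟩ := hM
  let f' : ι → Set V := fun i => if u ∈ f i then insert v (f i) else f i
  have hf' : ∀ i, f i ⊆ f' i := by
    intro i
    by_cases h : u ∈ f i
    · simp only [f', if_pos h]; exact Set.subset_insert _ _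
    · simp only [f', if_neg h]; exact Set.Subset.refl _
  have hvf : ∀ i, v ∉ f i := fun i h => (h1 i h).2 rfl
  refine ⟨f', ?_, ?_, ?_, ?_⟩
  · intro i
    by_cases h : u ∈ f i
    · simp only [f', if_pos h]
      exact Set.insert_subset hv ((h1 i).trans Set.sdiff_subset)
    · simp only [f', if_neg h]
      exact (h1 i).trans Set.sdiff_subset
  · intro i
    by_cases h : u ∈ f i
    · simp only [f', if_pos h]
      refine ⟨⟨v, Set.mem_insert _ _⟩, ?_⟩
      intro D hD hD1 hD2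
      -- first the case where the edge uv crosses
      by_cases hcr : (u ∈ D ∧ v ∉ D) ∨ (v ∈ D ∧ u ∉ D)
      · rcases hcr with ⟨ha, hb⟩ | ⟨ha, hb⟩
        · exact ⟨u, ha, v, ⟨Set.mem_insert _ _, hb⟩, huv⟩
        · exact ⟨v, ha, u, ⟨Set.mem_insert_of_mem _ h, hb⟩, huv.symm⟩
      · have hiff : u ∈ D ↔ v ∈ D := by tauto
        have hne1 : (D ∩ f i).Nonempty := by
          obtain ⟨d, hd⟩ := hD1
          rcases hD hd with rfl | hd'
          · exact ⟨u, hiff.2 hd, h⟩
          · exact ⟨d, hd, hd'⟩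
        have hne2 : (f i \ (D ∩ f i)).Nonempty := by
          obtain ⟨e, he, he'⟩ := hD2
          rcases he with rfl | he
          · exact ⟨u, h, fun hc => he' (hiff.1 hc.1)⟩
          · exact ⟨e, he, fun hc => he' hc.1⟩
        obtain ⟨a, ha, b, hb, hab⟩ := (h2 i).2 (D ∩ f i) Set.inter_subset_right hne1 hne2
        have hbD : b ∉ D := fun hc => hb.2 ⟨hc, hb.1⟩
        rcases hab.2.2.2 with hq | ⟨rfl, hq⟩ | ⟨rfl, hq⟩
        · exact ⟨a, ha.1, b, ⟨Set.mem_insert_of_mem _ hb.1, hbD⟩, hq⟩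
        · exact ⟨v, hiff.1 ha.1, b, ⟨Set.mem_insert_of_mem _ hb.1, hbD⟩, hq⟩
        · exact ⟨a, ha.1, v, ⟨Set.mem_insert _ _, fun hc => hbD (hiff.2 hc)⟩, hq.symm⟩
    · simp only [f', if_neg h]
      refine ⟨(h2 i).1, ?_⟩
      intro D hD hD1 hD2
      obtain ⟨a, ha, b, hb, hab⟩ := (h2 i).2 D hD hD1 hD2
      rcases hab.2.2.2 with hq | ⟨rfl, hq⟩ | ⟨rfl, hq⟩
      · exact ⟨a, ha, b, hb, hq⟩
      · exact absurd (hD ha) h
      · exact absurd hb.1 h
  · intro i j hij
    have hd := h3 i j hij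
    rw [Set.disjoint_left] at hd ⊢
    intro x hx hx'
    by_cases hi : u ∈ f i
    · have hj : u ∉ f j := fun hj => hd hi hj
      simp only [f', if_pos hi] at hx
      simp only [f', if_neg hj] at hx'
      rcases hx with rfl | hx
      · exact hvf j hx'
      · exact hd hx hx'
    · simp only [f', if_neg hi] at hx
      by_cases hj : u ∈ f j
      · simp only [f', if_pos hj] at hx'
        rcases hx' with rfl | hx'
        · exact hvf i hx
        · exact hd hx hx'
      · simp only [f', if_neg hj] at hx'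
        exact hd hx hx'
  · intro i j hij
    obtain ⟨a, ha, b, hb, hab⟩ := h4 i j hij
    rcases hab.2.2.2 with hq | ⟨rfl, hq⟩ | ⟨rfl, hq⟩
    · exact ⟨a, hf' i ha, b, hf' j hb, hq⟩
    · refine ⟨v, ?_, b, hf' j hb, hq⟩
      simp only [f', if_pos ha]; exact Set.mem_insert _ _
    · refine ⟨a, hf' i ha, v, ?_, hq.symm⟩
      simp only [f', if_pos hb]; exact Set.mem_insert _ _

/-- the component of `r` in `R` (as a set of vertices reachable inside `R`) -/
def comp {V : Type*} (G : SimpleGraph V) (R : Set V) (r : V) : Set V :=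
  {x | Relation.ReflTransGen (fun a b => b ∈ R ∧ G.Adj a b) r x}

theorem comp_self {V : Type*} (G : SimpleGraph V) (R : Set V) (r : V) : r ∈ comp G R r :=
  Relation.ReflTransGen.refl

theorem comp_sub {V : Type*} (G : SimpleGraph V) (R : Set V) (r : V) (hr : r ∈ R) :
    comp G R r ⊆ R := by
  intro x hx
  induction hx with
  | refl => exact hr
  | tail _ h _ => exact h.1

theorem comp_adj {V : Type*} (G : SimpleGraph V) (R : Set V) (r : V) {a b : V}
    (ha : a ∈ comp G R r) (hb : b ∈ R) (hab : G.Adj a b) : b ∈ comp G R r :=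
  Relation.ReflTransGen.tail ha ⟨hb, hab⟩

theorem comp_trans {V : Type*} (G : SimpleGraph V) (R : Set V) (r s : V)
    (hs : s ∈ comp G R r) : comp G R s ⊆ comp G R r :=
  fun _ hx => Relation.ReflTransGen.trans hs hx

theorem comp_conn {V : Type*} (G : SimpleGraph V) (R : Set V) (r : V) :
    Conn G (comp G R r) := by
  refine ⟨⟨r, comp_self G R r⟩, ?_⟩
  intro D hD hD1 hD2
  by_contra hcon
  have hno : ∀ a b, a ∈ comp G R r → b ∈ comp G R r → G.Adj a b → (a ∈ D ↔ b ∈ D) := by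
    intro a b ha hb hab
    constructor
    · intro h
      by_contra h'
      exact hcon ⟨a, h, b, ⟨hb, h'⟩, hab⟩
    · intro h
      by_contra h'
      exact hcon ⟨b, h, a, ⟨ha, h'⟩, hab.symm⟩
  have hall : ∀ x, x ∈ comp G R r → (r ∈ D ↔ x ∈ D) := by
    intro x hx
    have hx' : Relation.ReflTransGen (fun a b => b ∈ R ∧ G.Adj a b) r x := hx
    induction hx' with
    | refl => exact Iff.rfl
    | tail h1 h2 ih => exact (ih h1).trans (hno _ _ h1 hx h2.2)
  obtain ⟨d, hd⟩ := hD1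
  obtain ⟨e, he, he'⟩ := hD2
  exact he' ((hall e he).1 ((hall d (hD hd)).2 hd))

/-- conversion to Mathlib's connectedness -/
theorem conn_connected {V : Type*} (G : SimpleGraph V) (S : Set V) (hS : Conn G S) :
    (G.induce S).Connected := by
  obtain ⟨⟨r, hr⟩, hcut⟩ := hS
  have key : ∀ x : S, (G.induce S).Reachable ⟨r, hr⟩ x := by
    by_contra hcon
    push Not at hcon
    obtain ⟨x, hx⟩ := hcon
    let D : Set V := {y | ∃ h : y ∈ S, (G.induce S).Reachable ⟨r, hr⟩ ⟨y, h⟩}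
    obtain ⟨a, ⟨ha, ha'⟩, b, ⟨hb, hb'⟩, hab⟩ := hcut D (fun y hy => hy.1)
      ⟨r, hr, SimpleGraph.Reachable.refl _⟩ ⟨x.1, x.2, fun h => hx h.2⟩
    apply hb'
    refine ⟨hb, ha'.trans (SimpleGraph.Adj.reachable ?_)⟩
    exact hab
  have : Nonempty S := ⟨⟨r, hr⟩⟩
  exact SimpleGraph.Connected.mk (fun x y => (key x).symm.trans (key y))

end Pool.Agent.TH455
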