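import Mathlib

set_option autoImplicit false

/-!
# Packings of 4-fold covers from two forest-like graphs

`Ext F` is the extension property of a forest: any locally extendable system of states
on the vertices of `F` has a global solution.
-/

namespace Pool.Agent.TH455

open Finset

/-- Extension property: every symmetric, locally extendable state system on `F` has a solution. -/
def Ext {V : Type*} (F : SimpleGraph V) : Prop :=
  ∀ (S : Type) (ok : V → S → Prop) (R : V → V → S → S → Prop),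
    (∀ v, ∃ s, ok v s) →
    (∀ u v s t, R u v s t → R v u t s) →
    (∀ u v, F.Adj u v → ∀ s, ok u s → ∃ t, ok v t ∧ R u v s t) →
    ∃ f : V → S, (∀ v, ok v (f v)) ∧ ∀ u v, F.Adj u v → R u v (f u) (f v)

theorem ext_bot {V : Type*} : Ext (⊥ : SimpleGraph V) := by
  intro S ok R h0 _ _
  choose f hf using h0
  exact ⟨f, hf, fun u v h => absurd h (by simp)⟩

/-- Adding a pendant edge. -/
theorem ext_leaf {V : Type*} (F : SimpleGraph V) (hF : Ext F) (v a : V)
    (hv : ∀ w, ¬ F.Adj v w) : Ext (F ⊔ SimpleGraph.edge v a) := by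
  classical
  intro S ok R h0 hs he
  by_cases hva : v = a
  · subst hva
    obtain ⟨f, hf1, hf2⟩ := hF S ok R h0 hs (fun u w h s hs' => he u w (Or.inl h) s hs')
    refine ⟨f, hf1, ?_⟩
    intro u w h
    rcases h with h | h
    · exact hf2 u w h
    · rw [SimpleGraph.edge_adj] at h
      rcases h with ⟨h1 | h1, h2⟩
      · exact absurd (h1.1.trans h1.2.symm) h2
      · exact absurd (h1.1.trans h1.2.symm) h2
  · obtain ⟨f, hf1, hf2⟩ := hF S ok R h0 hs (fun u w h s hs' => he u w (Or.inl h) s hs')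
    have hav : (F ⊔ SimpleGraph.edge v a).Adj a v := by
      refine Or.inr ?_
      rw [SimpleGraph.edge_adj]
      exact ⟨Or.inr ⟨rfl, rfl⟩, fun h => hva h.symm⟩
    obtain ⟨t, ht1, ht2⟩ := he a v hav (f a) (hf1 a)
    refine ⟨Function.update f v t, ?_, ?_⟩
    · intro w
      by_cases hw : w = v
      · subst hw; simpa using ht1
      · simpa [Function.update_of_ne hw] using hf1 w
    · intro x y hxy
      rcases hxy with h | h
      · have hx : x ≠ v := by
          rintro rfl; exact hv y h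
        have hy : y ≠ v := by
          rintro rfl; exact hv x h.symm
        rw [Function.update_of_ne hx, Function.update_of_ne hy]
        exact hf2 x y h
      · rw [SimpleGraph.edge_adj] at h
        rcases h with ⟨⟨rfl, rfl⟩ | ⟨rfl, rfl⟩, h2⟩
        · rw [Function.update_self, Function.update_of_ne (Ne.symm h2)]
          exact hs _ _ _ _ ht2
        · rw [Function.update_self, Function.update_of_ne h2]
          exact ht2

/-- Subdividing the edge `ab` by the (isolated) vertex `v`. -/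
theorem ext_subdiv {V : Type*} (F F' : SimpleGraph V) (hF : Ext F) (v a b : V)
    (hv : ∀ w, ¬ F.Adj v w) (hab : F.Adj a b)
    (hF' : ∀ x y, F'.Adj x y ↔ (F.Adj x y ∧ ¬ (x = a ∧ y = b) ∧ ¬ (x = b ∧ y = a)) ∨
      (x = v ∧ y = a) ∨ (x = a ∧ y = v) ∨ (x = v ∧ y = b) ∨ (x = b ∧ y = v)) : Ext F' := by
  classical
  have hva : v ≠ a := by rintro rfl; exact hv b hab
  have hvb : v ≠ b := by rintro rfl; exact hv a hab.symm
  have hne : a ≠ b := hab.ne
  intro S ok R h0 hs he
  have e1 : F'.Adj a v := by rw [hF']; tauto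
  have e2 : F'.Adj v b := by rw [hF']; tauto
  have e3 : F'.Adj b v := by rw [hF']; tauto
  have e4 : F'.Adj v a := by rw [hF']; tauto
  obtain ⟨f, hf1, hf2⟩ := hF S ok
    (fun x y s t => if (x = a ∧ y = b) ∨ (x = b ∧ y = a) then
      ∃ r, ok v r ∧ R x v s r ∧ R v y r t else R x y s t) h0
    (by
      intro x y s t h
      by_cases hc : (x = a ∧ y = b) ∨ (x = b ∧ y = a)
      · have hc' : (y = a ∧ x = b) ∨ (y = b ∧ x = a) := by tauto
        rw [if_pos hc] at h
        rw [if_pos hc']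
        obtain ⟨r, h1, h2, h3⟩ := h
        exact ⟨r, h1, hs _ _ _ _ h3, hs _ _ _ _ h2⟩
      · have hc' : ¬ ((y = a ∧ x = b) ∨ (y = b ∧ x = a)) := by tauto
        rw [if_neg hc] at h
        rw [if_neg hc']
        exact hs _ _ _ _ h)
    (by
      intro x y hxy s hs'
      by_cases hc : (x = a ∧ y = b) ∨ (x = b ∧ y = a)
      · simp only [if_pos hc]
        have h1 : F'.Adj x v := by
          rcases hc with ⟨rfl, rfl⟩ | ⟨rfl, rfl⟩
          · exact e1
          · exact e3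
        have h2 : F'.Adj v y := by
          rcases hc with ⟨rfl, rfl⟩ | ⟨rfl, rfl⟩
          · exact e2
          · exact e4
        obtain ⟨r, hr1, hr2⟩ := he x v h1 s hs'
        obtain ⟨t, ht1, ht2⟩ := he v y h2 r hr1
        exact ⟨t, ht1, r, hr1, hr2, ht2⟩
      · simp only [if_neg hc]
        have : F'.Adj x y := by
          rw [hF']; left; tauto
        exact he x y this s hs')
  have hab' := hf2 a b hab
  rw [if_pos (Or.inl ⟨rfl, rfl⟩)] at hab'
  obtain ⟨r, hr1, hr2, hr3⟩ := hab'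
  refine ⟨Function.update f v r, ?_, ?_⟩
  · intro w
    by_cases hw : w = v
    · subst hw; simpa using hr1
    · simpa [Function.update_of_ne hw] using hf1 w
  · intro x y hxy
    rw [hF'] at hxy
    rcases hxy with ⟨h, h1, h2⟩ | ⟨rfl, rfl⟩ | ⟨rfl, rfl⟩ | ⟨rfl, rfl⟩ | ⟨rfl, rfl⟩
    · have hx : x ≠ v := by
        rintro rfl; exact hv y h
      have hy : y ≠ v := by
        rintro rfl; exact hv x h.symm
      rw [Function.update_of_ne hx, Function.update_of_ne hy]
      have := hf2 x y h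
      rwa [if_neg (by tauto)] at this
    · rw [Function.update_self, Function.update_of_ne hva.symm]
      exact hs _ _ _ _ hr2
    · rw [Function.update_self, Function.update_of_ne hva.symm]
      exact hr2
    · rw [Function.update_self, Function.update_of_ne hvb.symm]
      exact hr3
    · rw [Function.update_self, Function.update_of_ne hvb.symm]
      exact hs _ _ _ _ hr3

/-- A partial matching of `Fin 4` with `Fin 4` is contained in a permutation. -/
theorem exists_perm (X : Fin 4 → Fin 4 → Prop)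
    (h1 : ∀ i j j', X i j → X i j' → j = j') (h2 : ∀ i i' j, X i j → X i' j → i = i') :
    ∃ σ : Equiv.Perm (Fin 4), ∀ i j, X i j → j = σ i := by
  classical
  let s : Finset (Fin 4) := univ.filter (fun i => ∃ j, X i j)
  let g : Fin 4 → Fin 4 := fun i => if h : ∃ j, X i j then h.choose else 0
  have hg : ∀ i ∈ s, X i (g i) := by
    intro i hi
    have h : ∃ j, X i j := by simpa [s] using hi
    simp only [g, dif_pos h]
    exact h.choose_spec
  have hinj : Set.InjOn g s := by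
    intro i hi i' hi' h
    have a := hg i hi
    have b := hg i' hi'
    rw [← h] at b
    exact h2 _ _ _ a b
  obtain ⟨σ, hσ⟩ := Finset.exists_equiv_extend_of_card_eq (α := Fin 4) (β := Fin 4) (t := univ)
    (by simp) (s := s) (f := g) (by simp) hinj
  let τ : Equiv.Perm (Fin 4) := σ.trans (Equiv.subtypeUnivEquiv (fun x => mem_univ x))
  refine ⟨τ, ?_⟩
  intro i j hij
  have hi : i ∈ s := by
    simp only [s, mem_filter, mem_univ, true_and]; exact ⟨j, hij⟩
  have : τ i = g i := by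
    simpa [τ] using hσ i hi
  rw [this]
  exact h1 i j (g i) hij (hg i hi)

/-- Splitting step. -/
theorem split_step (σ : Equiv.Perm (Fin 4)) (P : Finset (Fin 4)) (hP : P.card = 2) :
    ∃ Q : Finset (Fin 4), Q.card = 2 ∧ (∀ i ∈ P, σ i ∉ Q) ∧ (∀ i, i ∉ P → σ i ∈ Q) := by
  classical
  refine ⟨(P.image σ)ᶜ, ?_, ?_, ?_⟩
  · rw [card_compl, card_image_of_injective _ σ.injective, hP]; rfl
  · intro i hi h
    rw [mem_compl] at h
    exact h (mem_image_of_mem _ hi)
  · intro i hi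
    rw [mem_compl, mem_image]
    rintro ⟨j, hj, h⟩
    exact hi (σ.injective h ▸ hj)

/-- Ordering step. -/
theorem order_step (τ : Fin 4 → Fin 4) (hτ : Function.Injective τ) (P : Finset (Fin 4))
    (hP : P.card = 2) :
    ∃ ρ : Fin 4 → Fin 4, Function.Injective ρ ∧ (ρ 0 ∈ P ∧ ρ 1 ∈ P ∧ ρ 2 ∉ P ∧ ρ 3 ∉ P) ∧
      ∀ t, ρ t ≠ τ t := by
  classical
  obtain ⟨a, b, hab, rfl⟩ := Finset.card_eq_two.mp hP
  have hc : (({a, b} : Finset (Fin 4))ᶜ).card = 2 := by
    rw [card_compl, hP]; rfl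
  obtain ⟨c, d, hcd, hc'⟩ := Finset.card_eq_two.mp hc
  have hcm : c ∉ ({a, b} : Finset (Fin 4)) := by
    rw [← mem_compl, hc']; simp
  have hdm : d ∉ ({a, b} : Finset (Fin 4)) := by
    rw [← mem_compl, hc']; simp
  have hca : c ≠ a := by rintro rfl; simp at hcm
  have hcb : c ≠ b := by rintro rfl; simp at hcm
  have hda : d ≠ a := by rintro rfl; simp at hdm
  have hdb : d ≠ b := by rintro rfl; simp at hdm
  have key : ∀ p q : Fin 4, p ≠ q → ∀ x y : Fin 4, x ≠ y →
      ∃ p' q' : Fin 4, ((p' = p ∧ q' = q) ∨ (p' = q ∧ q' = p)) ∧ p' ≠ x ∧ q' ≠ y := by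
    intro p q hpq x y hxy
    by_cases h : p ≠ x ∧ q ≠ y
    · exact ⟨p, q, Or.inl ⟨rfl, rfl⟩, h.1, h.2⟩
    · refine ⟨q, p, Or.inr ⟨rfl, rfl⟩, ?_, ?_⟩
      · rintro rfl
        apply h
        exact ⟨hpq, hxy⟩
      · rintro rfl
        apply h
        exact ⟨fun e => hxy e.symm, fun e => hpq e.symm⟩
  obtain ⟨a', b', h1, h2, h3⟩ := key a b hab (τ 0) (τ 1) (fun h => by simpa using hτ h)
  obtain ⟨c', d', h4, h5, h6⟩ := key c d hcd (τ 2) (τ 3) (fun h => by
    have := hτ h; revert this; decide)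
  have ha'b' : a' ≠ b' := by
    rcases h1 with ⟨rfl, rfl⟩ | ⟨rfl, rfl⟩
    · exact hab
    · exact hab.symm
  have hc'd' : c' ≠ d' := by
    rcases h4 with ⟨rfl, rfl⟩ | ⟨rfl, rfl⟩
    · exact hcd
    · exact hcd.symm
  have hA : a' ∈ ({a, b} : Finset (Fin 4)) ∧ b' ∈ ({a, b} : Finset (Fin 4)) := by
    rcases h1 with ⟨rfl, rfl⟩ | ⟨rfl, rfl⟩ <;> simp
  have hC : c' ∉ ({a, b} : Finset (Fin 4)) ∧ d' ∉ ({a, b} : Finset (Fin 4)) := by
    rcases h4 with ⟨rfl, rfl⟩ | ⟨rfl, rfl⟩
    · exact ⟨hcm, hdm⟩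
    · exact ⟨hdm, hcm⟩
  refine ⟨![a', b', c', d'], ?_, ?_, ?_⟩
  · have n1 : a' ≠ c' := fun h => hC.1 (h ▸ hA.1)
    have n2 : a' ≠ d' := fun h => hC.2 (h ▸ hA.1)
    have n3 : b' ≠ c' := fun h => hC.1 (h ▸ hA.2)
    have n4 : b' ≠ d' := fun h => hC.2 (h ▸ hA.2)
    intro i j hij
    fin_cases i <;> fin_cases j <;> simp_all
  · exact ⟨hA.1, hA.2, hC.1, hC.2⟩
  · intro t
    fin_cases t
    · simpa using h2
    · simpa using h3
    · simpa using h5
    · simpa using h6

/-- **Main packing theorem.** If the edges of `G` are covered by two graphs with the extension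
property, then every system of partial matchings between `4`-element colour sets has a packing. -/
theorem pack4 {V : Type*} (G F₁ F₂ : SimpleGraph V) (h₁ : Ext F₁) (h₂ : Ext F₂)
    (hG : ∀ u v, G.Adj u v → F₁.Adj u v ∨ F₂.Adj u v)
    (X : V → V → Fin 4 → Fin 4 → Prop)
    (hs : ∀ u v i j, X u v i j → X v u j i)
    (hm : ∀ u v, G.Adj u v → ∀ i j j', X u v i j → X u v i j' → j = j') :
    ∃ π : V → Fin 4 → Fin 4, (∀ v, Function.Injective (π v)) ∧
      ∀ u v, G.Adj u v → ∀ t, ¬ X u v (π u t) (π v t) := by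
  classical
  have hσ : ∀ u v, ∃ σ : Equiv.Perm (Fin 4), ∀ i j, (G.Adj u v ∧ X u v i j) → j = σ i := by
    intro u v
    apply exists_perm
    · rintro i j j' ⟨hg, h⟩ ⟨_, h'⟩
      exact hm u v hg i j j' h h'
    · rintro i i' j ⟨hg, h⟩ ⟨_, h'⟩
      exact hm v u hg.symm j i i' (hs _ _ _ _ h) (hs _ _ _ _ h')
  -- the split
  obtain ⟨P, hP1, hP2⟩ := h₂ (Finset (Fin 4)) (fun _ P => P.card = 2)
    (fun u v P Q => (∀ i ∈ P, ∀ j ∈ Q, ¬ (G.Adj u v ∧ X u v i j)) ∧
      (∀ i, i ∉ P → ∀ j, j ∉ Q → ¬ (G.Adj u v ∧ X u v i j)))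
    (fun _ => ⟨{0, 1}, by decide⟩)
    (by
      intro u v P Q h
      refine ⟨?_, ?_⟩
      · intro i hi j hj h'
        exact h.1 j hj i hi ⟨h'.1.symm, hs _ _ _ _ h'.2⟩
      · intro i hi j hj h'
        exact h.2 j hj i hi ⟨h'.1.symm, hs _ _ _ _ h'.2⟩)
    (by
      intro u v _ P hP
      obtain ⟨σ, hσ'⟩ := hσ u v
      obtain ⟨Q, hQ, hQ1, hQ2⟩ := split_step σ P hP
      refine ⟨Q, hQ, ?_, ?_⟩
      · intro i hi j hj h'
        have := hσ' i j h'
        subst this
        exact hQ1 i hi hj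
      · intro i hi j hj h'
        have := hσ' i j h'
        subst this
        exact hj (hQ2 i hi))
  obtain ⟨π, hπ1, hπ2⟩ := h₁ (Fin 4 → Fin 4)
    (fun v ρ => Function.Injective ρ ∧ (ρ 0 ∈ P v ∧ ρ 1 ∈ P v ∧ ρ 2 ∉ P v ∧ ρ 3 ∉ P v))
    (fun u v ρ ρ' => ∀ t, ¬ (G.Adj u v ∧ X u v (ρ t) (ρ' t)))
    (by
      intro v
      obtain ⟨ρ, h1, h2, _⟩ := order_step id Function.injective_id (P v) (hP1 v)
      exact ⟨ρ, h1, h2⟩)
    (by
      intro u v ρ ρ' h t h'
      exact h t ⟨h'.1.symm, hs _ _ _ _ h'.2⟩)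
    (by
      rintro u v _ ρ ⟨hρ, _⟩
      obtain ⟨σ, hσ'⟩ := hσ u v
      obtain ⟨ρ', h1, h2, h3⟩ := order_step (σ ∘ ρ) (σ.injective.comp hρ) (P v) (hP1 v)
      refine ⟨ρ', ⟨h1, h2⟩, ?_⟩
      intro t h'
      exact h3 t (hσ' _ _ h'))
  refine ⟨π, fun v => (hπ1 v).1, ?_⟩
  intro u v huv t hX
  rcases hG u v huv with h | h
  · exact hπ2 u v h t ⟨huv, hX⟩
  · have hh := hP2 u v h
    have hu := (hπ1 u).2
    have hv := (hπ1 v).2
    fin_cases t
    · exact hh.1 _ hu.1 _ hv.1 ⟨huv, hX⟩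
    · exact hh.1 _ hu.2.1 _ hv.2.1 ⟨huv, hX⟩
    · exact hh.2 _ hu.2.2.1 _ hv.2.2.1 ⟨huv, hX⟩
    · exact hh.2 _ hu.2.2.2 _ hv.2.2.2 ⟨huv, hX⟩

end Pool.Agent.TH455
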