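import Pool.Agent.TH455.PlanarPack
import Pool.Agent.H239R2.Cover.PlanarP1
import Pool.Agent.H239R2.Cover.PlanarP2

set_option autoImplicit false

/-!
# Triangle-free planar graphs are (2,2)-sparse

Planarity by a rotation system with Euler's formula, by a straight-line drawing, or by the
exclusion of `K₅` and `K₃,₃` minors.
-/

namespace Pool.Agent.TH455

open Finset
open Pool.Agent.H239R2.Planar (IsPlanar HasStraightLineDrawing planar_sparse line_sparse rk)

/-- edges of `G` inside `W` -/
noncomputable def eIn {V : Type} (G : SimpleGraph V) (W : Finset V) : Finset (Sym2 V) := by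
  classical exact W.sym2.filter (fun e => e ∈ G.edgeSet)

theorem rk_le {V : Type} [Fintype V] (G : SimpleGraph V) (W : Finset V) (hW : W.Nonempty) :
    rk (eIn G W) + 1 ≤ W.card := by
  classical
  obtain ⟨w, hw⟩ := hW
  let S : Submodule ℚ (V → ℚ) := Submodule.span ℚ
    {x : V → ℚ | ∃ u v : V, s(u, v) ∈ eIn G W ∧ x = Pi.single u 1 - Pi.single v 1}
  let U : Submodule ℚ (V → ℚ) :=
    { carrier := {x | (∀ v, v ∉ W → x v = 0) ∧ ∑ v, x v = 0}
      zero_mem' := ⟨fun _ _ => rfl, by simp⟩
      add_mem' := by
        rintro x y ⟨h1, h2⟩ ⟨h3, h4⟩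
        refine ⟨fun v hv => ?_, ?_⟩
        · simp [h1 v hv, h3 v hv]
        · simp [sum_add_distrib, h2, h4]
      smul_mem' := by
        rintro c x ⟨h1, h2⟩
        refine ⟨fun v hv => ?_, ?_⟩
        · simp [h1 v hv]
        · simp [← mul_sum, h2] }
  have hSU : S ≤ U := by
    apply Submodule.span_le.mpr
    rintro x ⟨u, v, huv, rfl⟩
    have hmem : u ∈ W ∧ v ∈ W := by
      have := (mem_filter.mp huv).1
      rw [Finset.mk_mem_sym2_iff] at this
      exact this
    refine ⟨fun z hz => ?_, ?_⟩
    · have h1 : z ≠ u := by rintro rfl; exact hz hmem.1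
      have h2 : z ≠ v := by rintro rfl; exact hz hmem.2
      simp [Pi.single_apply, h1, h2]
    · simp [sum_sub_distrib, Pi.single_apply]
  let φ : U →ₗ[ℚ] ({v // v ∈ W.erase w} → ℚ) :=
    { toFun := fun x v => x.1 v.1
      map_add' := fun _ _ => rfl
      map_smul' := fun _ _ => rfl }
  have hφ : Function.Injective φ := by
    rw [← LinearMap.ker_eq_bot, LinearMap.ker_eq_bot']
    rintro ⟨x, hx1, hx2⟩ hx
    have h1 : ∀ v, v ≠ w → x v = 0 := by
      intro v hv
      by_cases hvW : v ∈ W
      · exact congrFun hx ⟨v, mem_erase.mpr ⟨hv, hvW⟩⟩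
      · exact hx1 v hvW
    have h2 : x w = 0 := by
      rw [← hx2]
      symm
      apply sum_eq_single
      · intro b _ hb; exact h1 b hb
      · intro h; exact absurd (mem_univ w) h
    apply Subtype.ext
    funext v
    by_cases hv : v = w
    · rw [hv]; exact h2
    · exact h1 v hv
  have h3 : Module.finrank ℚ U ≤ (W.erase w).card := by
    have := LinearMap.finrank_le_finrank_of_injective hφ
    rw [Module.finrank_fintype_fun_eq_card, Fintype.card_coe] at this
    exact this
  have h4 : Module.finrank ℚ S ≤ Module.finrank ℚ U := Submodule.finrank_mono hSU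
  have h5 : (W.erase w).card + 1 = W.card := card_erase_add_one hw
  have h6 : rk (eIn G W) = Module.finrank ℚ S := rfl
  omega

/-- the ordered count is twice the number of edges -/
theorem I2_eq_edges {V : Type} (G : SimpleGraph V) (W : Finset V) :
    I2 (gi G) W = 2 * (eIn G W).card := by
  classical
  induction W using Finset.induction_on with
  | empty => simp [I2, eIn]
  | insert x W hx ih =>
    rw [I2_insert (gi G) (gi_symm G) (gi_zero G) x W hx, ih]
    have h1 : (eIn G (insert x W)).card = (eIn G W).card + ∑ b ∈ W, gi G x b := by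
      have hsplit : eIn G (insert x W) =
          eIn G W ∪ (W.filter (fun b => G.Adj x b)).image (fun b => s(x, b)) := by
        ext e
        induction e using Sym2.ind with
        | _ a b =>
          simp only [eIn, mem_filter, mem_union, mem_image, Finset.mk_mem_sym2_iff,
            SimpleGraph.mem_edgeSet, mem_insert, Sym2.eq, Sym2.rel_iff', Prod.mk.injEq,
            Prod.swap_prod_mk]
          constructor
          · rintro ⟨⟨rfl | ha, rfl | hb⟩, hadj⟩
            · exact absurd hadj (G.loopless.irrefl _)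
            · exact Or.inr ⟨b, ⟨hb, hadj⟩, Or.inl ⟨rfl, rfl⟩⟩
            · exact Or.inr ⟨a, ⟨ha, hadj.symm⟩, Or.inr ⟨rfl, rfl⟩⟩
            · exact Or.inl ⟨⟨ha, hb⟩, hadj⟩
          · rintro (⟨⟨ha, hb⟩, hadj⟩ | ⟨c, ⟨hc, hadj⟩, ⟨rfl, rfl⟩ | ⟨rfl, rfl⟩⟩)
            · exact ⟨⟨Or.inr ha, Or.inr hb⟩, hadj⟩
            · exact ⟨⟨Or.inl rfl, Or.inr hc⟩, hadj⟩
            · exact ⟨⟨Or.inr hc, Or.inl rfl⟩, hadj.symm⟩
      rw [hsplit, card_union_of_disjoint, card_image_of_injOn]
      · congr 1
        rw [card_filter]
        apply sum_congr rfl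
        intro b _
        exact (ind_ite _).symm
      · intro a _ b _ h
        simp only [Sym2.eq, Sym2.rel_iff', Prod.mk.injEq, true_and, Prod.swap_prod_mk] at h
        rcases h with h | ⟨h1, h2⟩
        · exact h
        · exact h2.trans h1
      · rw [disjoint_left]
        intro e he he'
        obtain ⟨b, hb, rfl⟩ := mem_image.mp he'
        have := (mem_filter.mp he).1
        rw [Finset.mk_mem_sym2_iff] at this
        exact hx this.1
    rw [h1]
    ring

theorem egirth_of_free {V : Type} {G : SimpleGraph V} (h : G.CliqueFree 3) :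
    ((2 * 2 : ℕ) : ℕ∞) ≤ G.egirth := by
  rw [SimpleGraph.le_egirth]
  intro a w hw
  have h3 : 3 ≤ w.length := hw.three_le_length
  by_contra hcon
  have hlt : w.length < 4 := by
    by_contra h'
    push Not at h'
    apply hcon
    exact_mod_cast h'
  have heq : w.length = 3 := by omega
  obtain ⟨s, hs⟩ := (SimpleGraph.is3Clique_iff_exists_cycle_length_three (G := G)).mpr
    ⟨a, w, hw, heq⟩
  exact h s hs

theorem sparse_of_rank {V : Type} [Fintype V] (G : SimpleGraph V)
    (h : ∀ A : Finset (Sym2 V), (A : Set (Sym2 V)) ⊆ G.edgeSet →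
      2 * A.card ≤ 2 * rk A + A.card) : Sparse (gi G) := by
  classical
  intro W hW
  have h1 := h (eIn G W) (by
    intro e he
    exact (mem_filter.mp (mem_coe.mp he)).2)
  have h2 := rk_le G W hW
  have h3 := I2_eq_edges G W
  omega

/-- planarity in one of three classical senses -/
def PlanarAny {V : Type} (G : SimpleGraph V) : Prop :=
  IsPlanar G ∨ HasStraightLineDrawing G ∨ NoKMinor G

theorem planar_free_sparse {V : Type} [Fintype V] {G : SimpleGraph V} (hp : PlanarAny G)
    (hfree : G.CliqueFree 3) : Sparse (gi G) := by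
  rcases hp with hp | hp | hp
  · exact sparse_of_rank G (fun A hA => planar_sparse G hp 2 (egirth_of_free hfree) A hA)
  · exact sparse_of_rank G (fun A hA => line_sparse G hp 2 (egirth_of_free hfree) A hA)
  · exact free_sparse hfree hp

end Pool.Agent.TH455
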