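import Pool.Agent.TH455.Count

set_option autoImplicit false

/-!
# The reductions
-/

namespace Pool.Agent.TH455

open Finset

/-- adjacency indicator -/
noncomputable def gi {V : Type*} (G : SimpleGraph V) : V → V → ℕ := fun x y => ind (G.Adj x y)

theorem gi_symm {V : Type*} (G : SimpleGraph V) (x y : V) : gi G x y = gi G y x :=
  ind_congr (G.adj_comm x y)

theorem gi_zero {V : Type*} (G : SimpleGraph V) (x : V) : gi G x x = 0 :=
  ind_neg (G.loopless.irrefl x)

theorem gi_one {V : Type*} {G : SimpleGraph V} {x y : V} (h : G.Adj x y) : gi G x y = 1 := ind_pos h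
theorem gi_nz {V : Type*} {G : SimpleGraph V} {x y : V} (h : ¬ G.Adj x y) : gi G x y = 0 :=
  ind_neg h

/-- number of common neighbours in `W` -/
noncomputable def cn {V : Type*} (G : SimpleGraph V) (u v : V) (W : Finset V) : ℕ :=
  ∑ b ∈ W, gi G u b * gi G v b

/-- a new pair for the edge `uv` -/
def New {V : Type*} (G : SimpleGraph V) (u v a b : V) : Prop :=
  G.Adj u a ∧ ¬ G.Adj v a ∧ G.Adj v b ∧ ¬ G.Adj u b ∧ G.Adj a b

/-- number of new pairs in `W` -/
noncomputable def nn {V : Type*} (G : SimpleGraph V) (u v : V) (W : Finset V) : ℕ :=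
  ∑ a ∈ W, ∑ b ∈ W, ind (New G u v a b)

theorem sum_gi_congr {V : Type*} {G G' : SimpleGraph V} {W : Finset V} {u : V}
    (h : ∀ b ∈ W, (G.Adj u b ↔ G'.Adj u b)) : ∑ b ∈ W, gi G u b = ∑ b ∈ W, gi G' u b :=
  sum_congr rfl (fun b hb => ind_congr (h b hb))

theorem I2_congr {V : Type*} {G G' : SimpleGraph V} {W : Finset V}
    (h : ∀ a ∈ W, ∀ b ∈ W, (G.Adj a b ↔ G'.Adj a b)) : I2 (gi G) W = I2 (gi G') W :=
  sum_congr rfl (fun a ha => sum_congr rfl (fun b hb => ind_congr (h a ha b hb)))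

theorem T6_congr {V : Type*} {G G' : SimpleGraph V} {W : Finset V}
    (h : ∀ a ∈ W, ∀ b ∈ W, (G.Adj a b ↔ G'.Adj a b)) : T6 (gi G) W = T6 (gi G') W := by
  rw [T6_eq, T6_eq]
  unfold Lk
  apply sum_congr rfl
  intro a ha
  apply sum_congr rfl
  intro b hb
  apply sum_congr rfl
  intro c hc
  have h1 : gi G a b = gi G' a b := ind_congr (h a ha b hb)
  have h2 : gi G a c = gi G' a c := ind_congr (h a ha c hc)
  have h3 : gi G b c = gi G' b c := ind_congr (h b hb c hc)
  rw [h1, h2, h3]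

theorem Lk_congr {V : Type*} {G G' : SimpleGraph V} {W : Finset V} {x : V}
    (hx : ∀ b ∈ W, (G.Adj x b ↔ G'.Adj x b))
    (h : ∀ a ∈ W, ∀ b ∈ W, (G.Adj a b ↔ G'.Adj a b)) : Lk (gi G) x W = Lk (gi G') x W := by
  unfold Lk
  apply sum_congr rfl
  intro b hb
  apply sum_congr rfl
  intro c hc
  have h1 : gi G x b = gi G' x b := ind_congr (hx b hb)
  have h2 : gi G x c = gi G' x c := ind_congr (hx c hc)
  have h3 : gi G b c = gi G' b c := ind_congr (h b hb c hc)
  rw [h1, h2, h3]

theorem split_two {V : Type*} [DecidableEq V] {W : Finset V} {u v : V} (hu : u ∈ W) (hv : v ∈ W)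
    (huv : u ≠ v) : insert u (insert v ((W.erase u).erase v)) = W := by
  have hv' : v ∈ W.erase u := mem_erase.mpr ⟨huv.symm, hv⟩
  rw [insert_erase hv', insert_erase hu]

/-- deletion of an edge in two triangles -/
theorem good_edge {V : Type*} [DecidableEq V] (G G' : SimpleGraph V) (W : Finset V) (u v : V)
    (hu : u ∈ W) (hv : v ∈ W) (huv : G.Adj u v)
    (hG' : ∀ x y, G'.Adj x y ↔ (G.Adj x y ∧ ¬ (x = u ∧ y = v) ∧ ¬ (x = v ∧ y = u)))
    (ht : 2 ≤ cn G u v ((W.erase u).erase v)) (hgood : Good (gi G') W) :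
    Good (gi G) W ∧ I2 (gi G') W + 2 = I2 (gi G) W := by
  have hne : u ≠ v := huv.ne
  set W₀ := (W.erase u).erase v with hW₀
  have hu0 : u ∉ W₀ := by simp [hW₀]
  have hv0 : v ∉ W₀ := by simp [hW₀]
  have hW : insert u (insert v W₀) = W := split_two hu hv hne
  have e1 := I2_two (gi G) (gi_symm G) (gi_zero G) u v hne W₀ hu0 hv0
  have e2 := I2_two (gi G') (gi_symm G') (gi_zero G') u v hne W₀ hu0 hv0
  have t1 := T6_two (gi G) (gi_symm G) (gi_zero G) u v hne W₀ hu0 hv0
  have t2 := T6_two (gi G') (gi_symm G') (gi_zero G') u v hne W₀ hu0 hv0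
  rw [hW] at e1 e2 t1 t2
  have cW : ∀ a ∈ W₀, ∀ b ∈ W₀, (G.Adj a b ↔ G'.Adj a b) := by
    intro a ha b hb
    rw [hG']
    constructor
    · intro h
      refine ⟨h, ?_, ?_⟩
      · rintro ⟨rfl, rfl⟩; exact hu0 ha
      · rintro ⟨rfl, rfl⟩; exact hv0 ha
    · exact fun h => h.1
  have cu : ∀ b ∈ W₀, (G.Adj u b ↔ G'.Adj u b) := by
    intro b hb
    rw [hG']
    constructor
    · intro h
      refine ⟨h, ?_, ?_⟩
      · rintro ⟨_, rfl⟩; exact hv0 hb
      · rintro ⟨_, rfl⟩; exact hu0 hb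
    · exact fun h => h.1
  have cv : ∀ b ∈ W₀, (G.Adj v b ↔ G'.Adj v b) := by
    intro b hb
    rw [hG']
    constructor
    · intro h
      refine ⟨h, ?_, ?_⟩
      · rintro ⟨_, rfl⟩; exact hv0 hb
      · rintro ⟨_, rfl⟩; exact hu0 hb
    · exact fun h => h.1
  have hcn : ∑ b ∈ W₀, gi G u b * gi G v b = cn G u v W₀ := rfl
  have g1 : gi G u v = 1 := gi_one huv
  have g2 : gi G' u v = 0 := gi_nz (by rw [hG']; tauto)
  rw [I2_congr cW, sum_gi_congr cu, sum_gi_congr cv, g1] at e1
  rw [g2] at e2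
  rw [T6_congr cW, Lk_congr cu cW, Lk_congr cv cW, g1, hcn] at t1
  rw [g2] at t2
  unfold Good at *
  constructor
  · omega
  · omega

/-- deletion of a vertex of degree at most two -/
theorem good_vertex {V : Type*} [DecidableEq V] (G : SimpleGraph V) (W : Finset V) (v : V)
    (hv : v ∈ W) (hd : ∑ b ∈ W.erase v, gi G v b ≤ 2) (hgood : Good (gi G) (W.erase v)) :
    Good (gi G) W := by
  have e1 := I2_insert (gi G) (gi_symm G) (gi_zero G) v (W.erase v) (by simp)
  have t1 := T6_insert (gi G) (gi_symm G) (gi_zero G) v (W.erase v) (by simp)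
  rw [insert_erase hv] at e1 t1
  have hc : (W.erase v).card + 1 = W.card := card_erase_add_one hv
  unfold Good at *
  omega

/-- contraction of the edge `uv` into `u` -/
def contr {V : Type*} (G : SimpleGraph V) (u v : V) : SimpleGraph V where
  Adj a b := a ≠ b ∧ a ≠ v ∧ b ≠ v ∧ (G.Adj a b ∨ (a = u ∧ G.Adj v b) ∨ (b = u ∧ G.Adj v a))
  symm := ⟨by
    intro a b h
    refine ⟨h.1.symm, h.2.2.1, h.2.1, ?_⟩
    rcases h.2.2.2 with h | h | h
    · exact Or.inl h.symm
    · exact Or.inr (Or.inr h)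
    · exact Or.inr (Or.inl h)⟩
  loopless := ⟨fun a h => h.1 rfl⟩

theorem mul_ind (p q : Prop) : ind p * ind q = ind (p ∧ q) := by
  by_cases hp : p
  · by_cases hq : q
    · rw [ind_pos hp, ind_pos hq, ind_pos ⟨hp, hq⟩]
    · rw [ind_neg hq, ind_neg (fun h : p ∧ q => hq h.2)]; ring
  · rw [ind_neg hp, ind_neg (fun h : p ∧ q => hp h.1)]; ring

/-- contraction of an edge in few short cycles -/
theorem good_contr {V : Type*} [DecidableEq V] (G : SimpleGraph V) (W : Finset V) (u v : V)
    (hu : u ∈ W) (hv : v ∈ W) (huv : G.Adj u v) :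
    I2 (gi (contr G u v)) (W.erase v) ≤ I2 (gi G) W ∧
    (cn G u v ((W.erase u).erase v) + nn G u v ((W.erase u).erase v) ≤ 2 →
      Good (gi (contr G u v)) (W.erase v) → Good (gi G) W) := by
  have hne : u ≠ v := huv.ne
  set W₀ := (W.erase u).erase v with hW₀
  have hu0 : u ∉ W₀ := by simp [hW₀]
  have hv0 : v ∉ W₀ := by simp [hW₀]
  have hW : insert u (insert v W₀) = W := split_two hu hv hne
  have hWv : W.erase v = insert u W₀ := by
    ext x
    by_cases hx : x = v
    · subst hx; simp [hne.symm, hv0]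
    · by_cases hx' : x = u
      · subst hx'; simp [hu, hx]
      · simp [hW₀, hx, hx']
  have e1 := I2_two (gi G) (gi_symm G) (gi_zero G) u v hne W₀ hu0 hv0
  have t1 := T6_two (gi G) (gi_symm G) (gi_zero G) u v hne W₀ hu0 hv0
  rw [hW] at e1 t1
  have e2 := I2_insert (gi (contr G u v)) (gi_symm _) (gi_zero _) u W₀ hu0
  have t2 := T6_insert (gi (contr G u v)) (gi_symm _) (gi_zero _) u W₀ hu0
  have hcard1 : W.card = W₀.card + 2 := by
    rw [← hW, card_insert_of_notMem (by simp [hu0, hne]), card_insert_of_notMem hv0]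
  have hcard2 : (W.erase v).card = W₀.card + 1 := by
    rw [hWv, card_insert_of_notMem hu0]
  have cW : ∀ a ∈ W₀, ∀ b ∈ W₀, ((contr G u v).Adj a b ↔ G.Adj a b) := by
    intro a ha b hb
    constructor
    · rintro ⟨_, _, _, h | h | h⟩
      · exact h
      · exact absurd (h.1 ▸ ha) hu0
      · exact absurd (h.1 ▸ hb) hu0
    · intro h
      refine ⟨h.ne, ?_, ?_, Or.inl h⟩
      · rintro rfl; exact hv0 ha
      · rintro rfl; exact hv0 hb
  have cu : ∀ b ∈ W₀, ((contr G u v).Adj u b ↔ (G.Adj u b ∨ G.Adj v b)) := by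
    intro b hb
    constructor
    · rintro ⟨_, _, _, h | h | h⟩
      · exact Or.inl h
      · exact Or.inr h.2
      · exact absurd (h.1 ▸ hb) hu0
    · intro h
      refine ⟨?_, hne, ?_, ?_⟩
      · rintro rfl; exact hu0 hb
      · rintro rfl; exact hv0 hb
      · rcases h with h | h
        · exact Or.inl h
        · exact Or.inr (Or.inl ⟨rfl, h⟩)
  -- degree of the contracted vertex
  have hdeg : ∑ b ∈ W₀, gi (contr G u v) u b + cn G u v W₀ =
      ∑ b ∈ W₀, gi G u b + ∑ b ∈ W₀, gi G v b := by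
    unfold cn
    rw [← sum_add_distrib, ← sum_add_distrib]
    apply sum_congr rfl
    intro b hb
    have h1 : gi (contr G u v) u b = ind (G.Adj u b ∨ G.Adj v b) := ind_congr (cu b hb)
    rw [h1]
    unfold gi
    by_cases p : G.Adj u b
    · by_cases q : G.Adj v b
      · rw [ind_pos p, ind_pos q, ind_pos (Or.inl p)]
      · rw [ind_pos p, ind_neg q, ind_pos (Or.inl p)]
    · by_cases q : G.Adj v b
      · rw [ind_neg p, ind_pos q, ind_pos (Or.inr q)]
      · rw [ind_neg p, ind_neg q, ind_neg (by tauto)]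
  -- link of the contracted vertex
  have hlink : Lk (gi (contr G u v)) u W₀ ≤ Lk (gi G) u W₀ + Lk (gi G) v W₀ + 2 * nn G u v W₀ := by
    have hpt : ∀ a ∈ W₀, ∀ b ∈ W₀,
        gi (contr G u v) u a * gi (contr G u v) u b * gi (contr G u v) a b ≤
        gi G u a * gi G u b * gi G a b + gi G v a * gi G v b * gi G a b +
          (ind (New G u v a b) + ind (New G u v b a)) := by
      intro a ha b hb
      have h1 : gi (contr G u v) u a = ind (G.Adj u a ∨ G.Adj v a) := ind_congr (cu a ha)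
      have h2 : gi (contr G u v) u b = ind (G.Adj u b ∨ G.Adj v b) := ind_congr (cu b hb)
      have h3 : gi (contr G u v) a b = ind (G.Adj a b) := ind_congr (cW a ha b hb)
      rw [h1, h2, h3, mul_ind, mul_ind]
      by_cases hcase : ((G.Adj u a ∨ G.Adj v a) ∧ (G.Adj u b ∨ G.Adj v b)) ∧ G.Adj a b
      · rw [ind_pos hcase]
        obtain ⟨⟨ha', hb'⟩, hab⟩ := hcase
        by_cases p : G.Adj u a ∧ G.Adj u b
        · rw [gi_one p.1, gi_one p.2, gi_one hab]; omega
        · by_cases q : G.Adj v a ∧ G.Adj v b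
          · rw [gi_one q.1, gi_one q.2, gi_one hab]; omega
          · have hN : New G u v a b ∨ New G u v b a := by
              unfold New
              have := hab.symm
              tauto
            rcases hN with h | h
            · rw [ind_pos h]; omega
            · rw [ind_pos h]; omega
      · rw [ind_neg hcase]; omega
    have hsum : Lk (gi (contr G u v)) u W₀ ≤
        ∑ a ∈ W₀, ∑ b ∈ W₀, (gi G u a * gi G u b * gi G a b + gi G v a * gi G v b * gi G a b +
          (ind (New G u v a b) + ind (New G u v b a))) :=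
      sum_le_sum (fun a ha => sum_le_sum (fun b hb => hpt a ha b hb))
    refine hsum.trans ?_
    simp only [sum_add_distrib]
    have hsw : ∑ a ∈ W₀, ∑ b ∈ W₀, ind (New G u v b a) = nn G u v W₀ := by
      unfold nn
      exact sum_comm
    rw [hsw]
    unfold Lk nn
    omega
  have hcn : ∑ b ∈ W₀, gi G u b * gi G v b = cn G u v W₀ := rfl
  rw [gi_one huv] at e1
  rw [gi_one huv, hcn] at t1
  have e3 : I2 (gi (contr G u v)) W₀ = I2 (gi G) W₀ := I2_congr cW
  have t3 : T6 (gi (contr G u v)) W₀ = T6 (gi G) W₀ := T6_congr cW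
  rw [e3] at e2
  rw [t3] at t2
  constructor
  · rw [hWv]
    omega
  · intro ht hgood
    unfold Good at *
    rw [hcard2, hWv] at hgood
    rw [hcard1]
    omega

end Pool.Agent.TH455
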