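import Pool.Agent.TH455.Pack

set_option autoImplicit false

/-!
# (2,2)-sparse multigraphs are covered by two graphs with the extension property

Multigraphs are symmetric functions `m : V → V → ℕ` with zero diagonal.
-/

namespace Pool.Agent.TH455

open Finset

/-- ordered edge count inside `W` -/
def I2 {V : Type*} (m : V → V → ℕ) (W : Finset V) : ℕ := ∑ a ∈ W, ∑ b ∈ W, m a b

theorem I2_insert {V : Type*} [DecidableEq V] (m : V → V → ℕ) (hs : ∀ a b, m a b = m b a)
    (h0 : ∀ a, m a a = 0) (x : V) (W : Finset V) (hx : x ∉ W) :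
    I2 m (insert x W) = I2 m W + 2 * ∑ b ∈ W, m x b := by
  unfold I2
  rw [sum_insert hx, sum_insert hx, h0]
  have : ∀ a ∈ W, ∑ b ∈ insert x W, m a b = m x a + ∑ b ∈ W, m a b := by
    intro a _
    rw [sum_insert hx, hs a x]
  rw [sum_congr rfl this, sum_add_distrib]
  ring

theorem I2_even {V : Type*} (m : V → V → ℕ) (hs : ∀ a b, m a b = m b a)
    (h0 : ∀ a, m a a = 0) (W : Finset V) : ∃ k, I2 m W = 2 * k := by
  classical
  induction W using Finset.induction_on with
  | empty => exact ⟨0, by simp [I2]⟩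
  | insert x W hx ih =>
    obtain ⟨k, hk⟩ := ih
    rw [I2_insert m hs h0 x W hx, hk]
    exact ⟨k + ∑ b ∈ W, m x b, by ring⟩

theorem I2_mono {V : Type*} (m : V → V → ℕ) {W W' : Finset V} (h : W ⊆ W') :
    I2 m W ≤ I2 m W' := by
  unfold I2
  calc ∑ a ∈ W, ∑ b ∈ W, m a b ≤ ∑ a ∈ W, ∑ b ∈ W', m a b :=
        sum_le_sum (fun a _ => sum_le_sum_of_subset h)
    _ ≤ ∑ a ∈ W', ∑ b ∈ W', m a b := sum_le_sum_of_subset h

theorem I2_union {V : Type*} [DecidableEq V] (m : V → V → ℕ) (X Y : Finset V) :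
    I2 m X + I2 m Y ≤ I2 m (X ∪ Y) + I2 m (X ∩ Y) := by
  have hp : ∀ Z : Finset V, I2 m Z = ∑ p ∈ Z ×ˢ Z, m p.1 p.2 := by
    intro Z; unfold I2; rw [sum_product]
  rw [hp, hp, hp, hp]
  have h1 : (X ×ˢ X) ∩ (Y ×ˢ Y) = (X ∩ Y) ×ˢ (X ∩ Y) := by
    ext p; simp only [mem_inter, mem_product]; tauto
  have h2 : (X ×ˢ X) ∪ (Y ×ˢ Y) ⊆ (X ∪ Y) ×ˢ (X ∪ Y) := by
    intro p; simp only [mem_union, mem_product]; tauto
  rw [← sum_union_inter, h1]
  exact Nat.add_le_add_right (sum_le_sum_of_subset h2) _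

/-- The sparsity condition `e(W) ≤ 2|W| - 2`, in ordered counts. -/
def Sparse {V : Type*} (m : V → V → ℕ) : Prop :=
  ∀ W : Finset V, W.Nonempty → I2 m W + 4 ≤ 4 * W.card

/-- indicator -/
noncomputable def ind (p : Prop) : ℕ := by classical exact if p then 1 else 0

theorem ind_pos {p : Prop} (h : p) : ind p = 1 := by unfold ind; simp [h]
theorem ind_neg {p : Prop} (h : ¬ p) : ind p = 0 := by unfold ind; simp [h]
theorem ind_le (p : Prop) : ind p ≤ 1 := by
  by_cases h : p
  · rw [ind_pos h]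
  · rw [ind_neg h]; omega
theorem ind_congr {p q : Prop} (h : p ↔ q) : ind p = ind q := by
  by_cases hq : q
  · rw [ind_pos hq, ind_pos (h.2 hq)]
  · rw [ind_neg hq, ind_neg (fun hp => hq (h.1 hp))]
theorem ind_mono {p q : Prop} (h : p → q) : ind p ≤ ind q := by
  by_cases hp : p
  · rw [ind_pos hp, ind_pos (h hp)]
  · rw [ind_neg hp]; omega

/-- The conclusion of the decomposition theorem. -/
def Dec {V : Type*} (W₀ : Finset V) (m : V → V → ℕ) : Prop :=
  ∃ F₁ F₂ : SimpleGraph V, Ext F₁ ∧ Ext F₂ ∧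
    (∀ x y, F₁.Adj x y → x ∈ W₀) ∧ (∀ x y, F₂.Adj x y → x ∈ W₀) ∧
    ∀ x y, m x y ≤ ind (F₁.Adj x y) + ind (F₂.Adj x y)

/-- Adding a vertex of degree at most two. -/
theorem dec_small {V : Type*} [DecidableEq V] (W₀ : Finset V) (m m' : V → V → ℕ)
    (hs : ∀ a b, m a b = m b a) (h0 : ∀ a, m a a = 0)
    (v : V) (hv : v ∈ W₀) (hm' : ∀ x y, x ≠ v → y ≠ v → m x y ≤ m' x y)
    (hD : Dec (W₀.erase v) m') (a b : V) (ha : a ∈ W₀) (hb : b ∈ W₀)
    (hab : ∀ y, m v y ≤ ind (y = a) + ind (y = b)) : Dec W₀ m := by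
  obtain ⟨F₁, F₂, e1, e2, s1, s2, hle⟩ := hD
  have i1 : ∀ w, ¬ F₁.Adj v w := fun w h => by simpa using s1 v w h
  have i2 : ∀ w, ¬ F₂.Adj v w := fun w h => by simpa using s2 v w h
  refine ⟨F₁ ⊔ SimpleGraph.edge v a, F₂ ⊔ SimpleGraph.edge v b, ext_leaf F₁ e1 v a i1,
    ext_leaf F₂ e2 v b i2, ?_, ?_, ?_⟩
  · intro x y h
    rcases h with h | h
    · exact mem_of_mem_erase (s1 x y h)
    · rw [SimpleGraph.edge_adj] at h
      rcases h with ⟨⟨rfl, rfl⟩ | ⟨rfl, rfl⟩, _⟩
      · exact hv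
      · exact ha
  · intro x y h
    rcases h with h | h
    · exact mem_of_mem_erase (s2 x y h)
    · rw [SimpleGraph.edge_adj] at h
      rcases h with ⟨⟨rfl, rfl⟩ | ⟨rfl, rfl⟩, _⟩
      · exact hv
      · exact hb
  · have key : ∀ y, y ≠ v → m v y ≤ ind ((F₁ ⊔ SimpleGraph.edge v a).Adj v y) +
        ind ((F₂ ⊔ SimpleGraph.edge v b).Adj v y) := by
      intro y hy
      refine (hab y).trans (Nat.add_le_add (ind_mono ?_) (ind_mono ?_))
      · rintro rfl
        refine Or.inr ?_
        rw [SimpleGraph.edge_adj]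
        exact ⟨Or.inl ⟨rfl, rfl⟩, hy.symm⟩
      · rintro rfl
        refine Or.inr ?_
        rw [SimpleGraph.edge_adj]
        exact ⟨Or.inl ⟨rfl, rfl⟩, hy.symm⟩
    intro x y
    by_cases hx : x = v
    · subst hx
      by_cases hy : y = x
      · subst hy; rw [h0]; omega
      · exact key y hy
    · by_cases hy : y = v
      · subst hy
        rw [hs]
        refine (key x hx).trans (Nat.add_le_add (ind_mono ?_) (ind_mono ?_))
        · exact fun h => h.symm
        · exact fun h => h.symm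
      · exact (hm' x y hx hy).trans ((hle x y).trans (Nat.add_le_add
          (ind_mono (fun h => Or.inl h)) (ind_mono (fun h => Or.inl h))))

/-- Adding a vertex of degree three after adding the edge `ab`. -/
theorem dec_three {V : Type*} [DecidableEq V] (W₀ : Finset V) (m m' : V → V → ℕ)
    (hs : ∀ x y, m x y = m y x) (h0 : ∀ x, m x x = 0)
    (v : V) (hv : v ∈ W₀) (a b c : V) (ha : a ∈ W₀) (hb : b ∈ W₀) (hc : c ∈ W₀)
    (hav : a ≠ v) (hbv : b ≠ v)
    (hab : a ≠ b)
    (hm' : ∀ x y, x ≠ v → y ≠ v → m x y + ind ((x = a ∧ y = b) ∨ (x = b ∧ y = a)) ≤ m' x y)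
    (hD : Dec (W₀.erase v) m')
    (hdeg : ∀ y, m v y ≤ ind (y = a) + ind (y = b) + ind (y = c)) : Dec W₀ m := by
  obtain ⟨F₁, F₂, e1, e2, s1, s2, hle⟩ := hD
  -- the new edge lies in one of the forests
  have hone : F₁.Adj a b ∨ F₂.Adj a b := by
    by_contra hcon
    push Not at hcon
    have h1 := hle a b
    rw [ind_neg hcon.1, ind_neg hcon.2] at h1
    have h2 := hm' a b hav hbv
    rw [ind_pos (Or.inl ⟨rfl, rfl⟩)] at h2
    omega
  -- a symmetric auxiliary statement
  have aux : ∀ G₁ G₂ : SimpleGraph V, Ext G₁ → Ext G₂ →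
      (∀ x y, G₁.Adj x y → x ∈ W₀.erase v) → (∀ x y, G₂.Adj x y → x ∈ W₀.erase v) →
      (∀ x y, m' x y ≤ ind (G₁.Adj x y) + ind (G₂.Adj x y)) → G₁.Adj a b → Dec W₀ m := by
    intro G₁ G₂ e1 e2 s1 s2 hle hG
    have i1 : ∀ w, ¬ G₁.Adj v w := fun w h => by simpa using s1 v w h
    have i2 : ∀ w, ¬ G₂.Adj v w := fun w h => by simpa using s2 v w h
    let A : V → V → Prop := fun x y =>
      (G₁.Adj x y ∧ ¬ (x = a ∧ y = b) ∧ ¬ (x = b ∧ y = a)) ∨
      (x = v ∧ y = a) ∨ (x = a ∧ y = v) ∨ (x = v ∧ y = b) ∨ (x = b ∧ y = v)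
    let H : SimpleGraph V :=
      { Adj := A
        symm := ⟨by
          intro x y h
          rcases h with ⟨h1, h2, h3⟩ | h | h | h | h
          · exact Or.inl ⟨h1.symm, by tauto, by tauto⟩
          · exact Or.inr (Or.inr (Or.inl ⟨h.2, h.1⟩))
          · exact Or.inr (Or.inl ⟨h.2, h.1⟩)
          · exact Or.inr (Or.inr (Or.inr (Or.inr ⟨h.2, h.1⟩)))
          · exact Or.inr (Or.inr (Or.inr (Or.inl ⟨h.2, h.1⟩)))⟩
        loopless := ⟨by
          intro x h
          rcases h with ⟨h1, h2, h3⟩ | h | h | h | h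
          · exact G₁.loopless.irrefl x h1
          · exact hav (h.2.symm.trans h.1)
          · exact hav (h.1.symm.trans h.2)
          · exact hbv (h.2.symm.trans h.1)
          · exact hbv (h.1.symm.trans h.2)⟩ }
    have hH : ∀ x y, H.Adj x y ↔ A x y := fun x y => Iff.rfl
    refine ⟨H, G₂ ⊔ SimpleGraph.edge v c, ext_subdiv G₁ H e1 v a b i1 hG hH,
      ext_leaf G₂ e2 v c i2, ?_, ?_, ?_⟩
    · intro x y h
      rcases h with ⟨h1, h2, h3⟩ | h | h | h | h
      · exact mem_of_mem_erase (s1 x y h1)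
      · rw [h.1]; exact hv
      · rw [h.1]; exact ha
      · rw [h.1]; exact hv
      · rw [h.1]; exact hb
    · intro x y h
      rcases h with h | h
      · exact mem_of_mem_erase (s2 x y h)
      · rw [SimpleGraph.edge_adj] at h
        rcases h with ⟨⟨rfl, rfl⟩ | ⟨rfl, rfl⟩, _⟩
        · exact hv
        · exact hc
    · have key : ∀ y, y ≠ v → m v y ≤ ind (H.Adj v y) +
          ind ((G₂ ⊔ SimpleGraph.edge v c).Adj v y) := by
        intro y hy
        have h1 : ind (y = a) + ind (y = b) ≤ ind (H.Adj v y) := by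
          by_cases hya : y = a
          · subst hya
            have : ¬ (y = b) := hab
            rw [ind_pos rfl, ind_neg this, ind_pos]
            exact Or.inr (Or.inl ⟨rfl, rfl⟩)
          · rw [ind_neg hya]
            by_cases hyb : y = b
            · subst hyb
              rw [ind_pos rfl, ind_pos]
              exact Or.inr (Or.inr (Or.inr (Or.inl ⟨rfl, rfl⟩)))
            · rw [ind_neg hyb]; omega
        have h2 : ind (y = c) ≤ ind ((G₂ ⊔ SimpleGraph.edge v c).Adj v y) := by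
          apply ind_mono
          rintro rfl
          refine Or.inr ?_
          rw [SimpleGraph.edge_adj]
          exact ⟨Or.inl ⟨rfl, rfl⟩, hy.symm⟩
        have := hdeg y
        omega
      intro x y
      by_cases hx : x = v
      · subst hx
        by_cases hy : y = x
        · subst hy; rw [h0]; omega
        · exact key y hy
      · by_cases hy : y = v
        · subst hy
          rw [hs]
          refine (key x hx).trans (Nat.add_le_add (ind_mono ?_) (ind_mono ?_))
          · exact fun h => h.symm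
          · exact fun h => h.symm
        · have h1 := hm' x y hx hy
          have h2 := hle x y
          have h3 : ind (G₂.Adj x y) ≤ ind ((G₂ ⊔ SimpleGraph.edge v c).Adj x y) :=
            ind_mono (fun h => Or.inl h)
          by_cases hxy : (x = a ∧ y = b) ∨ (x = b ∧ y = a)
          · rw [ind_pos hxy] at h1
            have h4 := ind_le (G₁.Adj x y)
            omega
          · rw [ind_neg hxy] at h1
            have h4 : ind (G₁.Adj x y) ≤ ind (H.Adj x y) := by
              apply ind_mono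
              intro h
              exact Or.inl ⟨h, by tauto, by tauto⟩
            omega
  rcases hone with h | h
  · exact aux F₁ F₂ e1 e2 s1 s2 hle h
  · exact aux F₂ F₁ e2 e1 s2 s1 (fun x y => by rw [add_comm]; exact hle x y) h

end Pool.Agent.TH455
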