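import Pool.Agent.TH455.Two

set_option autoImplicit false

namespace Pool.Agent.TH455

open Finset

theorem extract {V : Type*} [DecidableEq V] (s : Finset V) (g : V → ℕ) (k : ℕ)
    (hg : ∀ y, y ∉ s → g y = 0) (hk : ∑ y ∈ s, g y = k + 1) :
    ∃ a ∈ s, ∃ g' : V → ℕ, (∀ y, g y = g' y + ind (y = a)) ∧ (∀ y, y ∉ s → g' y = 0) ∧
      ∑ y ∈ s, g' y = k := by
  have : ∃ a ∈ s, g a ≠ 0 := by
    by_contra h
    push Not at h
    rw [sum_eq_zero h] at hk
    omega
  obtain ⟨a, ha, hga⟩ := this
  refine ⟨a, ha, fun y => g y - ind (y = a), ?_, ?_, ?_⟩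
  · intro y
    change g y = g y - ind (y = a) + ind (y = a)
    by_cases h : y = a
    · subst h; rw [ind_pos rfl]; omega
    · rw [ind_neg h]; omega
  · intro y hy
    change g y - ind (y = a) = 0
    rw [hg y hy]; omega
  · change ∑ y ∈ s, (g y - ind (y = a)) = k
    have h1 : ∑ y ∈ s, (g y - ind (y = a)) + ∑ y ∈ s, ind (y = a) = ∑ y ∈ s, g y := by
      rw [← sum_add_distrib]
      apply sum_congr rfl
      intro y _
      by_cases h : y = a
      · subst h; rw [ind_pos rfl]; omega
      · rw [ind_neg h]; omega
    have h2 : ∑ y ∈ s, ind (y = a) = 1 := by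
      rw [sum_eq_single a]
      · exact ind_pos rfl
      · intro b _ hb; exact ind_neg hb
      · intro h; exact absurd ha h
    omega

theorem I2_add {V : Type*} (m e : V → V → ℕ) (W : Finset V) :
    I2 (fun x y => m x y + e x y) W = I2 m W + I2 e W := by
  unfold I2
  simp only [sum_add_distrib]

theorem I2_le {V : Type*} (m m' : V → V → ℕ) (h : ∀ x y, m x y ≤ m' x y) (W : Finset V) :
    I2 m W ≤ I2 m' W := by
  unfold I2
  exact sum_le_sum (fun a _ => sum_le_sum (fun b _ => h a b))

theorem I2_pair_le {V : Type*} [DecidableEq V] (p q : V) (W : Finset V) :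
    I2 (fun x y => ind ((x = p ∧ y = q) ∨ (x = q ∧ y = p))) W ≤ 2 := by
  have one : ∀ p q : V, I2 (fun x y => ind (x = p ∧ y = q)) W ≤ 1 := by
    intro p q
    unfold I2
    calc ∑ a ∈ W, ∑ b ∈ W, ind (a = p ∧ b = q) ≤ ∑ a ∈ W, ind (a = p) := by
          apply sum_le_sum
          intro a _
          by_cases h : a = p
          · subst h
            rw [ind_pos rfl]
            by_cases hq : q ∈ W
            · rw [sum_eq_single q]
              · exact ind_le _
              · intro b _ hb; exact ind_neg (fun h => hb h.2)
              · intro h; exact absurd hq h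
            · rw [sum_eq_zero]
              · omega
              · intro b hb; exact ind_neg (fun h => hq (h.2 ▸ hb))
          · rw [ind_neg h, sum_eq_zero]
            intro b _; exact ind_neg (fun h' => h h'.1)
      _ ≤ 1 := by
          by_cases hp : p ∈ W
          · rw [sum_eq_single p]
            · exact ind_le _
            · intro b _ hb; exact ind_neg hb
            · intro h; exact absurd hp h
          · rw [sum_eq_zero]
            · omega
            · intro b hb; exact ind_neg (fun h => hp (h ▸ hb))
  calc I2 (fun x y => ind ((x = p ∧ y = q) ∨ (x = q ∧ y = p))) W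
      ≤ I2 (fun x y => ind (x = p ∧ y = q) + ind (x = q ∧ y = p)) W := by
        apply I2_le
        intro x y
        by_cases h1 : x = p ∧ y = q
        · rw [ind_pos (Or.inl h1), ind_pos h1]; omega
        · by_cases h2 : x = q ∧ y = p
          · rw [ind_pos (Or.inr h2), ind_pos h2]; omega
          · rw [ind_neg (by tauto)]; omega
    _ = I2 (fun x y => ind (x = p ∧ y = q)) W + I2 (fun x y => ind (x = q ∧ y = p)) W :=
        I2_add _ _ _
    _ ≤ 2 := by have := one p q; have := one q p; omega

theorem I2_pair_zero {V : Type*} (p q : V) (W : Finset V) (h : ¬ (p ∈ W ∧ q ∈ W)) :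
    I2 (fun x y => ind ((x = p ∧ y = q) ∨ (x = q ∧ y = p))) W = 0 := by
  unfold I2
  apply sum_eq_zero
  intro a ha
  apply sum_eq_zero
  intro b hb
  apply ind_neg
  rintro (⟨rfl, rfl⟩ | ⟨rfl, rfl⟩)
  · exact h ⟨ha, hb⟩
  · exact h ⟨hb, ha⟩

theorem dec_all {V : Type*} [DecidableEq V] : ∀ (n : ℕ) (W₀ : Finset V), W₀.card = n →
    ∀ m : V → V → ℕ, (∀ x y, m x y = m y x) → (∀ x, m x x = 0) →
      (∀ x y, m x y ≠ 0 → x ∈ W₀) → Sparse m → Dec W₀ m := by
  intro n
  induction n with
  | zero =>
    intro W₀ hW m hs h0 hsup hsp
    have hW' : W₀ = ∅ := card_eq_zero.mp hW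
    subst hW'
    refine ⟨⊥, ⊥, ext_bot, ext_bot, fun x y h => absurd h (by simp),
      fun x y h => absurd h (by simp), ?_⟩
    intro x y
    have : m x y = 0 := by
      by_contra h
      simpa using hsup x y h
    omega
  | succ n ih =>
    intro W₀ hW m hs h0 hsup hsp
    have hne : W₀.Nonempty := by
      rw [← card_pos]; omega
    -- a vertex of degree at most 3
    obtain ⟨v, hv, hd⟩ : ∃ v ∈ W₀, ∑ b ∈ W₀, m v b < 4 := by
      by_contra hcon
      push Not at hcon
      have h1 : ∑ v ∈ W₀, 4 ≤ ∑ v ∈ W₀, ∑ b ∈ W₀, m v b := sum_le_sum hcon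
      have h2 := hsp W₀ hne
      unfold I2 at h2
      rw [sum_const, smul_eq_mul] at h1
      omega
    have hsup2 : ∀ y, y ∉ W₀ → m v y = 0 := by
      intro y hy
      by_contra h
      rw [hs] at h
      exact hy (hsup y v h)
    let m' : V → V → ℕ := fun x y => if x = v ∨ y = v then 0 else m x y
    have hm'le : ∀ x y, m' x y ≤ m x y := by
      intro x y
      by_cases h : x = v ∨ y = v
      · simp only [m', if_pos h]; omega
      · simp only [m', if_neg h]; omega
    have hm's : ∀ x y, m' x y = m' y x := by
      intro x y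
      by_cases h : x = v ∨ y = v
      · simp only [m', if_pos h, if_pos h.symm]
      · have h' : ¬ (y = v ∨ x = v) := by tauto
        simp only [m', if_neg h, if_neg h', hs x y]
    have hm'0 : ∀ x, m' x x = 0 := fun x => Nat.le_zero.mp ((hm'le x x).trans (h0 x).le)
    have hm'e : ∀ x y, x ≠ v → y ≠ v → m' x y = m x y := by
      intro x y hx hy
      have : ¬ (x = v ∨ y = v) := by tauto
      simp only [m', if_neg this]
    have hm'v : ∀ y, m' v y = 0 := fun y => by simp [m']
    have hm'v' : ∀ y, m' y v = 0 := fun y => by simp [m']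
    have hm'sup : ∀ x y, m' x y ≠ 0 → x ∈ W₀.erase v := by
      intro x y h
      rw [mem_erase]
      refine ⟨?_, hsup x y (fun h' => h (Nat.le_zero.mp ((hm'le x y).trans h'.le)))⟩
      rintro rfl
      exact h (hm'v y)
    have hm'sp : Sparse m' := fun W hW => by
      have := I2_le m' m hm'le W
      have := hsp W hW
      omega
    have hcard : (W₀.erase v).card = n := by
      rw [card_erase_of_mem hv]; omega
    have hm'I : ∀ W : Finset V, v ∉ W → I2 m' W = I2 m W := by
      intro W hvW
      unfold I2
      apply sum_congr rfl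
      intro a ha
      apply sum_congr rfl
      intro b hb
      apply hm'e
      · rintro rfl; exact hvW ha
      · rintro rfl; exact hvW hb
    have hm'er : ∀ W : Finset V, I2 m' W = I2 m' (W.erase v) := by
      intro W
      by_cases hvW : v ∈ W
      · conv_lhs => rw [← insert_erase hvW]
        rw [I2_insert m' hm's hm'0 v _ (by simp)]
        simp only [hm'v, sum_const_zero]
        omega
      · rw [erase_eq_of_notMem hvW]
    have ex := extract W₀ (m v)
    rcases Nat.lt_or_ge (∑ b ∈ W₀, m v b) 3 with hlt | hge
    · -- degree ≤ 2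
      have hD := ih _ hcard m' hm's hm'0 hm'sup hm'sp
      have hab : ∃ a ∈ W₀, ∃ b ∈ W₀, ∀ y, m v y ≤ ind (y = a) + ind (y = b) := by
        rcases Nat.lt_or_ge (∑ b ∈ W₀, m v b) 1 with h1 | h1
        · refine ⟨v, hv, v, hv, ?_⟩
          intro y
          by_cases hy : y ∈ W₀
          · have : ∑ b ∈ W₀, m v b = 0 := by omega
            rw [sum_eq_zero_iff] at this
            rw [this y hy]; omega
          · rw [hsup2 y hy]; omega
        · rcases Nat.lt_or_ge (∑ b ∈ W₀, m v b) 2 with h2 | h2
          · obtain ⟨a, ha, g', hg1, hg2, hg3⟩ := ex 0 hsup2 (by omega)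
            refine ⟨a, ha, a, ha, ?_⟩
            intro y
            rw [hg1 y]
            by_cases hy : y ∈ W₀
            · rw [sum_eq_zero_iff] at hg3
              rw [hg3 y hy]; omega
            · rw [hg2 y hy]; omega
          · obtain ⟨a, ha, g', hg1, hg2, hg3⟩ := ex 1 hsup2 (by omega)
            obtain ⟨b, hb, g'', hh1, hh2, hh3⟩ := extract W₀ g' 0 hg2 (by omega)
            refine ⟨a, ha, b, hb, ?_⟩
            intro y
            rw [hg1 y, hh1 y]
            by_cases hy : y ∈ W₀
            · rw [sum_eq_zero_iff] at hh3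
              rw [hh3 y hy]; omega
            · rw [hh2 y hy]; omega
      obtain ⟨a, ha, b, hb, hab⟩ := hab
      exact dec_small W₀ m m' hs h0 v hv (fun x y hx hy => (hm'e x y hx hy).ge) hD a b ha hb hab
    · -- degree 3
      have h3 : ∑ b ∈ W₀, m v b = 3 := by omega
      obtain ⟨a, ha, g', hg1, hg2, hg3⟩ := ex 2 hsup2 (by omega)
      obtain ⟨b, hb, g'', hh1, hh2, hh3⟩ := extract W₀ g' 1 hg2 (by omega)
      obtain ⟨c, hc, g3, hk1, hk2, hk3⟩ := extract W₀ g'' 0 hh2 (by omega)
      have hdeg : ∀ y, m v y = ind (y = a) + ind (y = b) + ind (y = c) := by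
        intro y
        rw [hg1 y, hh1 y, hk1 y]
        by_cases hy : y ∈ W₀
        · rw [sum_eq_zero_iff] at hk3
          rw [hk3 y hy]; omega
        · rw [hk2 y hy]; omega
      have hav : a ≠ v := by
        rintro rfl
        have := hdeg a
        rw [h0, ind_pos rfl] at this
        omega
      have hbv : b ≠ v := by
        rintro rfl
        have := hdeg b
        rw [h0, ind_pos (show b = b from rfl)] at this
        omega
      have hcv : c ≠ v := by
        rintro rfl
        have := hdeg c
        rw [h0, ind_pos (show c = c from rfl)] at this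
        omega
      have sumind : ∀ (Z : Finset V) (p : V), p ∈ Z → ∑ y ∈ Z, ind (y = p) = 1 := by
        intro Z p hp
        rw [sum_eq_single p]
        · exact ind_pos rfl
        · intro b _ hb; exact ind_neg hb
        · intro h; exact absurd hp h
      -- no tight set contains all three neighbours
      have no3 : ∀ Z : Finset V, v ∉ Z → a ∈ Z → b ∈ Z → c ∈ Z → I2 m' Z + 4 < 4 * Z.card := by
        intro Z hvZ haZ hbZ hcZ
        have h1 := hsp (insert v Z) ⟨v, mem_insert_self v Z⟩
        rw [I2_insert m hs h0 v Z hvZ, card_insert_of_notMem hvZ] at h1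
        have h2 : ∑ y ∈ Z, m v y = 3 := by
          simp only [hdeg, sum_add_distrib]
          rw [sumind Z a haZ, sumind Z b hbZ, sumind Z c hcZ]
        rw [h2] at h1
        rw [hm'I Z hvZ]
        omega
      -- using a good pair
      have good : ∀ p q r : V, p ∈ W₀ → q ∈ W₀ → r ∈ W₀ → p ≠ v → q ≠ v → p ≠ q →
          (∀ y, m v y ≤ ind (y = p) + ind (y = q) + ind (y = r)) →
          (∀ W : Finset V, p ∈ W → q ∈ W → v ∉ W → I2 m' W + 6 ≤ 4 * W.card) → Dec W₀ m := by
        intro p q r hp hq hr hpv hqv hpq hle hgood
        let e : V → V → ℕ := fun x y => ind ((x = p ∧ y = q) ∨ (x = q ∧ y = p))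
        have hes : ∀ x y, e x y = e y x := by
          intro x y
          apply ind_congr
          tauto
        have he0 : ∀ x, e x x = 0 := by
          intro x
          apply ind_neg
          rintro (⟨rfl, h⟩ | ⟨rfl, h⟩)
          · exact hpq h
          · exact hpq h.symm
        have hD : Dec (W₀.erase v) (fun x y => m' x y + e x y) := by
          apply ih _ hcard
          · intro x y
            simp only [hm's x y, hes x y]
          · intro x
            simp only [hm'0, he0]
          · intro x y hxy
            by_cases h : m' x y = 0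
            · have h' : e x y ≠ 0 := by
                intro h'; apply hxy; simp only [h, h']
              have h'' : (x = p ∧ y = q) ∨ (x = q ∧ y = p) := by
                by_contra hc
                exact h' (ind_neg hc)
              rcases h'' with ⟨rfl, rfl⟩ | ⟨rfl, rfl⟩
              · exact mem_erase.mpr ⟨hpv, hp⟩
              · exact mem_erase.mpr ⟨hqv, hq⟩
            · exact hm'sup x y h
          · intro W hW
            rw [I2_add]
            by_cases hpqW : p ∈ W ∧ q ∈ W
            · have h1 : I2 e W ≤ 2 := I2_pair_le p q W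
              have h2 := hgood (W.erase v) (mem_erase.mpr ⟨hpv, hpqW.1⟩)
                (mem_erase.mpr ⟨hqv, hpqW.2⟩) (by simp)
              rw [← hm'er W] at h2
              have h3 : (W.erase v).card ≤ W.card := card_le_card (erase_subset v W)
              omega
            · have h1 : I2 e W = 0 := I2_pair_zero p q W hpqW
              have h2 := hm'sp W hW
              omega
        refine dec_three W₀ m _ hs h0 v hv p q r hp hq hr hpv hqv hpq ?_ hD hle
        intro x y hx hy
        rw [hm'e x y hx hy]
      have tight : ∀ p q : V, ¬ (∀ W : Finset V, p ∈ W → q ∈ W → v ∉ W →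
          I2 m' W + 6 ≤ 4 * W.card) →
          ∃ W : Finset V, p ∈ W ∧ q ∈ W ∧ v ∉ W ∧ 4 * W.card ≤ I2 m' W + 4 := by
        intro p q h
        push Not at h
        obtain ⟨W, h1, h2, h3, h4⟩ := h
        refine ⟨W, h1, h2, h3, ?_⟩
        obtain ⟨k, hk⟩ := I2_even m' hm's hm'0 W
        have h5 := hm'sp W ⟨p, h1⟩
        omega
      by_cases hab : a = b
      · -- the pair (a, c)
        have hac : a ≠ c := by
          rintro rfl
          subst hab
          have h1 := hsp {v, a} ⟨v, by simp⟩
          have hva : v ∉ ({a} : Finset V) := by simpa using hav.symm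
          rw [I2_insert m hs h0 v {a} hva, card_insert_of_notMem hva] at h1
          have h2 := hdeg a
          rw [ind_pos rfl] at h2
          simp only [sum_singleton, h2, card_singleton] at h1
          omega
        apply good a c b ha hc hb hav hcv hac
        · intro y; rw [hdeg y]; omega
        · by_contra hcon
          obtain ⟨W, h1, h2, h3, h4⟩ := tight a c hcon
          have := no3 W h3 h1 (hab ▸ h1) h2
          omega
      · by_cases hG : ∀ W : Finset V, a ∈ W → b ∈ W → v ∉ W → I2 m' W + 6 ≤ 4 * W.card
        · exact good a b c ha hb hc hav hbv hab (fun y => (hdeg y).le) hG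
        · obtain ⟨X, x1, x2, x3, x4⟩ := tight a b hG
          have hcX : c ∉ X := by
            intro hcX
            have := no3 X x3 x1 x2 hcX
            omega
          have hbc : b ≠ c := by
            rintro rfl; exact hcX x2
          apply good b c a hb hc ha hbv hcv hbc
          · intro y; rw [hdeg y]; omega
          · by_contra hcon
            obtain ⟨Y, y1, y2, y3, y4⟩ := tight b c hcon
            have hun := I2_union m' X Y
            have hcu : (X ∪ Y).card + (X ∩ Y).card = X.card + Y.card := card_union_add_card_inter X Y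
            have hin := hm'sp (X ∩ Y) ⟨b, mem_inter.mpr ⟨x2, y1⟩⟩
            have h3 := no3 (X ∪ Y) (by simp [x3, y3]) (mem_union_left _ x1) (mem_union_left _ x2)
              (mem_union_right _ y2)
            omega

/-- **(2,2)-sparse graphs are covered by two graphs with the extension property.** -/
theorem two_ext {V : Type*} [Finite V] (G : SimpleGraph V)
    (hsp : Sparse (fun x y => ind (G.Adj x y))) :
    ∃ F₁ F₂ : SimpleGraph V, Ext F₁ ∧ Ext F₂ ∧
      ∀ u v, G.Adj u v → F₁.Adj u v ∨ F₂.Adj u v := by
  classical
  have := Fintype.ofFinite V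
  obtain ⟨F₁, F₂, e1, e2, _, _, hle⟩ := dec_all _ (univ : Finset V) rfl
    (fun x y => ind (G.Adj x y)) (fun x y => ind_congr (G.adj_comm x y))
    (fun x => ind_neg (G.loopless.irrefl x)) (fun _ _ _ => mem_univ _) hsp
  refine ⟨F₁, F₂, e1, e2, ?_⟩
  intro u v h
  by_contra hcon
  push Not at hcon
  have := hle u v
  simp only [ind_pos h, ind_neg hcon.1, ind_neg hcon.2] at this
  omega

end Pool.Agent.TH455
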